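import Pool.Agent.P.MP_81f9fb_co.Block

set_option autoImplicit false

namespace Pool.Agent.P.MP_81f9fb_co

open Finset Classical

variable {V : Type} [Fintype V]

/-- a proper nontrivial block system with small boundary -/
def HasBlock (X : V → V → Prop) : Prop :=
  ∃ E : V → V → Prop, Equivalence E ∧ VT2 X E ∧ (∃ x y, x ≠ y ∧ E x y) ∧ (∃ x y, ¬ E x y) ∧
    ∃ v, (bd X E v).card ≤ (out X v).card

/-- two vertices with almost the same closed out-neighbourhood -/
def NearTwin (X : V → V → Prop) : Prop :=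
  ∃ u w, u ≠ w ∧ (nb X {u, w}).card ≤ (out X u).card + 2

/-- fragments -/
def Frag (X : V → V → Prop) (κ : ℕ) (F : Finset V) : Prop :=
  2 ≤ F.card ∧ (nb X F).card + 2 ≤ Fintype.card V ∧ (nb X F).card = F.card + κ

/-- lower bound for boundaries -/
def Conn (X : V → V → Prop) (κ : ℕ) : Prop :=
  ∀ F : Finset V, 2 ≤ F.card → (nb X F).card + 2 ≤ Fintype.card V → F.card + κ ≤ (nb X F).card

omit [Fintype V] in
lemma Inv.trans {X : V → V → Prop} {φ ψ : Equiv.Perm V} (h1 : Inv X φ) (h2 : Inv X ψ) :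
    Inv X (φ.trans ψ) := fun a b => (h2 _ _).trans (h1 a b)

omit [Fintype V] in
lemma Inv.symm {X : V → V → Prop} {φ : Equiv.Perm V} (h1 : Inv X φ) : Inv X φ.symm :=
  fun a b => by rw [← h1]; simp

lemma card_nb_flip_compl (X : V → V → Prop) (F : Finset V) :
    (nb (fun a b => X b a) (nb X F)ᶜ).card + F.card ≤ Fintype.card V := by
  have : nb (fun a b => X b a) (nb X F)ᶜ ⊆ Fᶜ := by
    intro y hy
    rw [mem_compl]
    intro hF
    rcases mem_nb.mp hy with h | ⟨x, hx, h⟩
    · exact mem_compl.mp h (subset_nb X F hF)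
    · exact mem_compl.mp hx (mem_nb_of_rel hF h)
  have h1 := card_le_card this
  have h2 := card_add_card_compl F
  omega

lemma Conn.flip {X : V → V → Prop} {κ : ℕ} (h : Conn X κ) : Conn (fun a b => X b a) κ := by
  intro F h1 h2
  have e1 : (nb X (nb (fun a b => X b a) F)ᶜ).card + F.card ≤ Fintype.card V :=
    card_nb_flip_compl (fun a b => X b a) F
  have e2 := card_add_card_compl (nb (fun a b => X b a) F)
  have e3 := h (nb (fun a b => X b a) F)ᶜ (by omega) (by omega)
  omega

lemma Frag.flip {X : V → V → Prop} {κ : ℕ} (h : Conn X κ) {F : Finset V} (hF : Frag X κ F) :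
    Frag (fun a b => X b a) κ (nb X F)ᶜ := by
  obtain ⟨h1, h2, h3⟩ := hF
  have e1 := card_nb_flip_compl X F
  have e2 := card_add_card_compl (nb X F)
  have e3 := h.flip (nb X F)ᶜ (by omega) (by omega)
  exact ⟨by omega, by omega, by omega⟩

lemma conn_one {X : V → V → Prop} (hirr : ∀ x, ¬ X x x) (hVT : VT X) {κ : ℕ} (h : Conn X κ)
    (v : V) (hκ : κ ≤ (out X v).card) (F : Finset V) (hF : F.Nonempty)
    (hn : (nb X F).card + 1 ≤ Fintype.card V) : F.card + κ ≤ (nb X F).card := by
  by_cases h1 : 2 ≤ F.card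
  · by_cases h2 : (nb X F).card + 2 ≤ Fintype.card V
    · exact h F h1 h2
    · have h3 : 0 < (nb X F)ᶜ.card := by have := card_add_card_compl (nb X F); omega
      obtain ⟨z, hz⟩ := card_pos.mp h3
      have h4 : Disjoint F (insert z (inn X z)) := by
        rw [disjoint_left]
        intro x hx hx'
        rcases mem_insert.mp hx' with h5 | h5
        · exact mem_compl.mp hz (h5 ▸ subset_nb X F hx)
        · exact mem_compl.mp hz (mem_nb_of_rel hx (mem_inn.mp h5))
      have h5 := card_le_univ (F ∪ insert z (inn X z))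
      rw [card_union_of_disjoint h4, card_insert_of_notMem (by simp [hirr]),
        hVT.card_inn z v] at h5
      omega
  · have : F.card = 1 := by have := card_pos.mpr hF; omega
    obtain ⟨x, rfl⟩ := card_eq_one.mp this
    rw [card_nb_singleton hirr, hVT.card_out x v, card_singleton]
    omega

lemma long_of_in_nbr {X : V → V → Prop} {k : ℕ} (hX : NoShort k X) (A : Finset V)
    (hne : A.Nonempty) (h : ∀ x ∈ A, ∃ y ∈ A, X y x) : k + 1 ≤ A.card := by
  have h' : ∀ x, ∃ y, x ∈ A → y ∈ A ∧ X y x := by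
    intro x
    by_cases hx : x ∈ A
    · obtain ⟨y, h1, h2⟩ := h x hx
      exact ⟨y, fun _ => ⟨h1, h2⟩⟩
    · exact ⟨x, fun h => absurd h hx⟩
  choose f hf using h'
  have hit : ∀ m, ∀ y ∈ A, f^[m] y ∈ A := by
    intro m y hy
    induction m with
    | zero => exact hy
    | succ m ih => rw [Function.iterate_succ_apply']; exact (hf _ ih).1
  have hb : ∀ m, ∀ y ∈ A, y ∈ ball X m (f^[m] y) := by
    intro m y hy
    induction m with
    | zero => exact mem_singleton_self y
    | succ m ih =>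
      rw [Function.iterate_succ_apply']
      exact mem_ball_front (hf _ (hit m y hy)).2 m ih
  obtain ⟨x0, hx0⟩ := hne
  have main : ∀ i j, i < j → j ≤ A.card → f^[i] x0 = f^[j] x0 → k + 1 ≤ A.card := by
    intro i j hij hj he
    have h1 := hb (j - (i + 1)) _ (hit (i + 1) x0 hx0)
    rw [← Function.iterate_add_apply, show j - (i + 1) + (i + 1) = j by omega, ← he] at h1
    by_contra hc
    refine hX (j - (i + 1)) (by omega) _ _ h1 ?_
    rw [Function.iterate_succ_apply']
    exact (hf _ (hit i x0 hx0)).2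
  obtain ⟨i, hi, j, hj, hij, he⟩ := exists_ne_map_eq_of_card_lt_of_maps_to
    (s := range (A.card + 1)) (t := A) (by simp) (f := fun i => f^[i] x0)
    (fun i _ => hit i x0 hx0)
  have hi' := mem_range.mp hi
  have hj' := mem_range.mp hj
  rcases lt_or_gt_of_ne hij with h1 | h1
  · exact main i j h1 (by omega) he
  · exact main j i h1 (by omega) he.symm

lemma arith4 (k n d a : ℕ) (hk : 3 ≤ k) (hn : n + 2 ≤ k * (d + 1)) (hn' : k * d + 1 ≤ n)
    (ha : k + 1 ≤ a) (h1 : n = 2 * a + d) (h2 : 2 * a ≤ d + 6) : False := by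
  have h3 : 3 * d ≤ k * d := Nat.mul_le_mul_right d hk
  have h4 : k ≤ 4 := by omega
  interval_cases k <;> omega

theorem atoms {X : V → V → Prop} (hVT : VT X) {k : ℕ} (hk : 3 ≤ k) (hX : NoShort k X) (v : V)
    (hn : Fintype.card V + 2 ≤ k * ((out X v).card + 1)) {κ : ℕ} (hκ : κ ≤ (out X v).card)
    (hC : Conn X κ) (A0 : Finset V) (hA0 : Frag X κ A0)
    (H : ∀ F, Frag X κ F → A0.card ≤ F.card ∧ (nb X F).card + A0.card ≤ Fintype.card V) :
    HasBlock X ∨ NearTwin X := by
  have hirr := hX.irrefl (by omega)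
  have hC1 := conn_one hirr hVT hC v hκ
  set a := A0.card with ha
  set n := Fintype.card V with hn0
  set d := (out X v).card with hd
  let 𝒜 : Finset V → Prop := fun B => ∃ φ : Equiv.Perm V, Inv X φ ∧ B = A0.map φ.toEmbedding
  have hA1 : ∀ B, 𝒜 B → B.card = a ∧ (nb X B).card = a + κ := by
    rintro B ⟨φ, hφ, rfl⟩
    rw [nb_map hφ, card_map, card_map]
    exact ⟨rfl, hA0.2.2⟩
  have hA0' : 𝒜 A0 := ⟨Equiv.refl V, fun _ _ => Iff.rfl, by simp⟩
  have hA3 : ∀ B (φ : Equiv.Perm V), 𝒜 B → Inv X φ → 𝒜 (B.map φ.toEmbedding) := by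
    rintro B φ ⟨ψ, hψ, rfl⟩ hφ
    exact ⟨ψ.trans φ, hψ.trans hφ, by rw [map_map]; rfl⟩
  have ha2 : 2 ≤ a := hA0.1
  have hna : a + κ + a ≤ n := by have := (H A0 hA0).2; rw [hA0.2.2] at this; exact this
  have key : ∀ U C, 𝒜 C → (nb X U).card = U.card + κ → (nb X U).card + a ≤ n →
      (C ∩ U).Nonempty → (nb X (C ∩ U)).card = (C ∩ U).card + κ ∧
        (nb X (C ∪ U)).card = (C ∪ U).card + κ ∧ (2 ≤ (C ∩ U).card → C ⊆ U) := by
    intro U C hCA h1 h2 hne
    obtain ⟨c1, c2⟩ := hA1 C hCA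
    have e0 := card_le_card (nb_mono X (inter_subset_left (s₁ := C) (s₂ := U)))
    have e1 := hC1 _ hne (by omega)
    have e2 := nb_submod X C U
    have e3 := card_union_add_card_inter C U
    have e4 := card_pos.mpr hne
    have e5 := hC1 (C ∪ U) (hne.mono (inter_subset_left.trans subset_union_left)) (by omega)
    refine ⟨by omega, by omega, fun h3 => ?_⟩
    have e6 := (H (C ∩ U) ⟨h3, by omega, by omega⟩).1
    rw [← eq_of_subset_of_card_le (inter_subset_left (s₁ := C) (s₂ := U)) (by omega)]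
    exact inter_subset_right
  have hint : ∀ B C, 𝒜 B → 𝒜 C → B ≠ C → (B ∩ C).card ≤ 1 := by
    intro B C hB hC' hne
    by_contra hc
    obtain ⟨c1, c2⟩ := hA1 C hC'
    have := (key C B hB (by omega) (by omega) (card_pos.mp (by omega))).2.2 (by omega)
    exact hne (eq_of_subset_of_card_le this (by rw [(hA1 B hB).1, c1]))
  obtain ⟨x0, hx0⟩ : A0.Nonempty := card_pos.mp (by omega)
  by_cases hdis : ∀ B C, 𝒜 B → 𝒜 C → (B ∩ C).Nonempty → B = C
  · left
    have hcov : ∀ x, ∃ B, 𝒜 B ∧ x ∈ B := by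
      intro x
      obtain ⟨φ, hφ, rfl⟩ := hVT x0 x
      exact ⟨_, ⟨φ, hφ, rfl⟩, by simpa using hx0⟩
    let E : V → V → Prop := fun x y => ∃ B, 𝒜 B ∧ x ∈ B ∧ y ∈ B
    have hE0 : ∀ y, E x0 y → y ∈ A0 := by
      rintro y ⟨B, hB, h1, h2⟩
      rw [hdis A0 B hA0' hB ⟨x0, mem_inter.mpr ⟨hx0, h1⟩⟩]; exact h2
    refine ⟨E, ⟨fun x => ?_, ?_, ?_⟩, fun u w => ?_, ?_, ?_, x0, ?_⟩
    · obtain ⟨B, h1, h2⟩ := hcov x
      exact ⟨B, h1, h2, h2⟩
    · rintro x y ⟨B, h1, h2, h3⟩
      exact ⟨B, h1, h3, h2⟩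
    · rintro x y z ⟨B, h1, h2, h3⟩ ⟨C, h4, h5, h6⟩
      rw [← hdis B C h1 h4 ⟨y, mem_inter.mpr ⟨h3, h5⟩⟩] at h6
      exact ⟨B, h1, h2, h6⟩
    · obtain ⟨φ, hφ, h⟩ := hVT u w
      refine ⟨φ, hφ, fun x y => ⟨?_, ?_⟩, h⟩
      · rintro ⟨B, h1, h2, h3⟩
        exact ⟨_, hA3 B φ.symm h1 hφ.symm, by simpa using h2, by simpa using h3⟩
      · rintro ⟨B, h1, h2, h3⟩
        exact ⟨_, hA3 B φ h1 hφ, by simpa using h2, by simpa using h3⟩
    · obtain ⟨x, hx, y, hy, hxy⟩ := one_lt_card.mp (show 1 < A0.card by omega)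
      exact ⟨x, y, hxy, A0, hA0', hx, hy⟩
    · have : 0 < A0ᶜ.card := by have := card_add_card_compl A0; omega
      obtain ⟨y, hy⟩ := card_pos.mp this
      exact ⟨x0, y, fun h => mem_compl.mp hy (hE0 y h)⟩
    · have : bd X E x0 ⊆ nb X A0 \ A0 := by
        intro w hw
        obtain ⟨h1, y, h2, h3⟩ := mem_bd.mp hw
        exact mem_sdiff.mpr ⟨mem_nb_of_rel (hE0 y h2) h3, fun h => h1 ⟨A0, hA0', hx0, h⟩⟩
      have h1 := card_le_card this
      have h2 := card_sdiff_add_card_eq_card (subset_nb X A0)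
      rw [hVT.card_out x0 v]
      have := hA0.2.2
      omega
  right
  push Not at hdis
  obtain ⟨B0, C0, hB0, hC0, ⟨z, hz⟩, hBC⟩ := hdis
  have hκd : κ = d := by
    obtain ⟨c1, c2⟩ := hA1 C0 hC0
    have h1 := (key C0 B0 hB0 (by omega) (by omega) ⟨z, hz⟩).1
    have h2 : B0 ∩ C0 = {z} := by
      symm
      exact eq_of_subset_of_card_le (singleton_subset_iff.mpr hz) (hint B0 C0 hB0 hC0 hBC)
    rw [h2, card_nb_singleton hirr, hVT.card_out z v, card_singleton] at h1
    omega
  have other : ∀ B x, ∃ C, 𝒜 C ∧ x ∈ C ∧ C ≠ B := by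
    intro B x
    obtain ⟨φ, hφ, rfl⟩ := hVT z x
    by_cases h : B0.map φ.toEmbedding = B
    · refine ⟨_, hA3 C0 φ hC0 hφ, by simpa using (mem_inter.mp hz).2, ?_⟩
      rw [← h]
      exact fun h' => hBC (map_injective _ h').symm
    · exact ⟨_, hA3 B0 φ hB0 hφ, by simpa using (mem_inter.mp hz).1, h⟩
  by_cases ha3 : a = 2
  · obtain ⟨u, w, huw, h⟩ := card_eq_two.mp (ha.symm.trans ha3)
    refine ⟨u, w, huw, ?_⟩
    rw [← h, hA0.2.2, hVT.card_out u v]
    omega
  exfalso
  have hak : k + 1 ≤ a := by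
    refine long_of_in_nbr hX A0 ⟨x0, hx0⟩ fun x hx => ?_
    by_contra hc
    push Not at hc
    have h1 : nb X (A0.erase x) ⊆ (nb X A0).erase x := by
      intro y hy
      refine mem_erase.mpr ⟨?_, nb_mono X (erase_subset x A0) hy⟩
      rintro rfl
      rcases mem_nb.mp hy with h | ⟨w, hw, h⟩
      · exact notMem_erase _ _ h
      · exact hc w (mem_of_mem_erase hw) h
    have h2 := card_le_card h1
    rw [card_erase_of_mem (subset_nb X A0 hx), hA0.2.2] at h2
    have h3 := card_erase_of_mem hx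
    have h4 := hC (A0.erase x) (by omega) (by omega)
    have h5 := (H (A0.erase x) ⟨by omega, by omega, by omega⟩).1
    omega
  subst hκd
  let L : Finset V → Finset V := fun U => U.filter (fun x => ∃ C, 𝒜 C ∧ x ∈ C ∧ ¬ C ⊆ U)
  have one : ∀ U C x, 𝒜 C → (nb X U).card = U.card + d → (nb X U).card + a ≤ n → x ∈ C → x ∈ U →
      ¬ C ⊆ U → C ∩ U = {x} := by
    intro U C x h1 h2 h3 h4 h5 h6
    have hx : x ∈ C ∩ U := mem_inter.mpr ⟨h4, h5⟩
    have := (key U C h1 h2 h3 ⟨x, hx⟩).2.2
    symm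
    refine eq_of_subset_of_card_le (singleton_subset_iff.mpr hx) ?_
    rw [card_singleton]
    by_contra hc
    exact h6 (this (by omega))
  have notsub : ∀ U C C', 𝒜 C → 𝒜 C' → (nb X U).card = U.card + d → (nb X U).card + a ≤ n →
      C' ≠ C → ¬ C' ⊆ U → ¬ C' ⊆ C ∪ U := by
    intro U C C' h1 h2 h3 h4 h5 h6 h7
    have e1 := hint C' C h2 h1 h5
    have e2 : (C' ∩ U).card ≤ 1 := by
      by_contra hc
      exact h6 ((key U C' h2 h3 h4 (card_pos.mp (by omega))).2.2 (by omega))
    have e3 : C' ⊆ (C' ∩ C) ∪ (C' ∩ U) := by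
      rw [← inter_union_distrib_left]
      exact subset_inter (Subset.refl _) h7
    have e4 := (card_le_card e3).trans (card_union_le _ _)
    rw [(hA1 C' h2).1] at e4
    omega
  have ext : ∀ U C x, 𝒜 C → (nb X U).card = U.card + d → (nb X U).card + a ≤ n → x ∈ C → x ∈ U →
      ¬ C ⊆ U → (C ∪ U).card + 1 = U.card + a ∧ (nb X (C ∪ U)).card = (C ∪ U).card + d ∧
        (L U).card + a ≤ (L (C ∪ U)).card + 2 := by
    intro U C x h1 h2 h3 h4 h5 h6
    have e1 := one U C x h1 h2 h3 h4 h5 h6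
    have e2 := card_union_add_card_inter C U
    rw [e1, card_singleton, (hA1 C h1).1] at e2
    refine ⟨by omega, (key U C h1 h2 h3 ⟨x, mem_inter.mpr ⟨h4, h5⟩⟩).2.1, ?_⟩
    have hCU : ∀ y, y ∈ C → y ∈ U → y = x := fun y a1 a2 =>
      mem_singleton.mp (e1 ▸ mem_inter.mpr ⟨a1, a2⟩)
    have e3 : (L U).erase x ∪ C.erase x ⊆ L (C ∪ U) := by
      intro y hy
      rcases mem_union.mp hy with h | h
      · obtain ⟨a1, a2⟩ := mem_erase.mp h
        obtain ⟨a3, C', a4, a5, a6⟩ := mem_filter.mp a2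
        refine mem_filter.mpr ⟨mem_union_right _ a3, C', a4, a5, ?_⟩
        refine notsub U C C' h1 a4 h2 h3 ?_ a6
        rintro rfl
        exact a1 (hCU y a5 a3)
      · obtain ⟨a1, a2⟩ := mem_erase.mp h
        obtain ⟨C', a4, a5, a6⟩ := other C y
        refine mem_filter.mpr ⟨mem_union_left _ a2, C', a4, a5, ?_⟩
        exact notsub U C C' h1 a4 h2 h3 a6 fun h' => a1 (hCU y a2 (h' a5))
    have e4 := card_le_card e3
    rw [card_union_of_disjoint (by
      rw [disjoint_left]
      intro y a1 a2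
      exact (mem_erase.mp a1).1 (hCU y (mem_of_mem_erase a2)
        (mem_filter.mp (mem_of_mem_erase a1)).1)), card_erase_of_mem h4, (hA1 C h1).1] at e4
    have e5 := pred_card_le_card_erase (s := L U) (a := x)
    omega
  have big : ∀ U, (nb X U).card = U.card + d → 2 ≤ U.card → (nb X U).card + 2 ≤ n →
      (nb X U).card + a ≤ n := fun U h1 h2 h3 => (H U ⟨h2, h3, h1⟩).2
  have Q : ∀ m U, n = (nb X U).card + m → (nb X U).card = U.card + d → a ≤ m →
      a + 1 ≤ (L U).card → False := by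
    intro m
    induction m using Nat.strong_induction_on with
    | _ m ih =>
      intro U h1 h2 h3 h4
      rcases eq_or_lt_of_le h3 with h5 | h5
      · have hz : ∀ y, ∃ C z, y ∈ L U → 𝒜 C ∧ y ∈ C ∧ ¬ C ⊆ U ∧ z ∉ nb X (C ∪ U) := by
          intro y
          by_cases hy : y ∈ L U
          · obtain ⟨a3, C, a4, a5, a6⟩ := mem_filter.mp hy
            obtain ⟨b1, b2, -⟩ := ext U C y a4 h2 (by omega) a5 a3 a6
            have : 0 < (nb X (C ∪ U))ᶜ.card := by
              have := card_add_card_compl (nb X (C ∪ U)); omega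
            obtain ⟨z, hz⟩ := card_pos.mp this
            exact ⟨C, z, fun _ => ⟨a4, a5, a6, mem_compl.mp hz⟩⟩
          · exact ⟨∅, y, fun h => absurd h hy⟩
        choose Cf zf hz using hz
        have hlt : (nb X U)ᶜ.card < (L U).card := by
          have := card_add_card_compl (nb X U); omega
        obtain ⟨y, hy, y', hy', hne, he⟩ := exists_ne_map_eq_of_card_lt_of_maps_to hlt
          (f := zf) (fun y hy => mem_compl.mpr fun h =>
            (hz y hy).2.2.2 (nb_mono X subset_union_right h))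
        obtain ⟨p1, p2, p3, p4⟩ := hz y hy
        obtain ⟨q1, q2, q3, q4⟩ := hz y' hy'
        have hyU := (mem_filter.mp hy).1
        have hyU' := (mem_filter.mp hy').1
        obtain ⟨b1, -, -⟩ := ext U _ y p1 h2 (by omega) p2 hyU p3
        have hCC : Cf y' ≠ Cf y := by
          intro h
          have := one U _ y p1 h2 (by omega) p2 hyU p3
          exact hne (mem_singleton.mp (this ▸ mem_inter.mpr ⟨h ▸ q2, hyU'⟩)).symm
        have r1 := notsub U _ _ p1 q1 h2 (by omega) hCC q3
        have r2 : (Cf y ∪ U).card < (Cf y' ∪ (Cf y ∪ U)).card := by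
          apply card_lt_card
          refine ⟨subset_union_right, fun h => r1 (subset_union_left.trans h)⟩
        have r3 : zf y ∉ nb X (Cf y' ∪ (Cf y ∪ U)) := by
          rw [nb_union, mem_union, not_or]
          exact ⟨fun h => q4 (he ▸ nb_mono X subset_union_left h), p4⟩
        have r4 : (nb X (Cf y' ∪ (Cf y ∪ U))).card + 1 ≤ n := by
          have := card_add_card_compl (nb X (Cf y' ∪ (Cf y ∪ U)))
          have : 0 < (nb X (Cf y' ∪ (Cf y ∪ U)))ᶜ.card := card_pos.mpr ⟨_, mem_compl.mpr r3⟩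
          omega
        have r5 := hC1 _ (card_pos.mp (by omega)) r4
        omega
      · obtain ⟨y, hy⟩ : (L U).Nonempty := card_pos.mp (by omega)
        obtain ⟨a3, C, a4, a5, a6⟩ := mem_filter.mp hy
        obtain ⟨b1, b2, b3⟩ := ext U C y a4 h2 (by omega) a5 a3 a6
        have b4 := big _ b2 (by omega) (by omega)
        exact ih (n - (nb X (C ∪ U)).card) (by omega) (C ∪ U) (by omega) b2 (by omega) (by omega)
  have notsub0 : ∀ C, 𝒜 C → C ≠ A0 → ¬ C ⊆ A0 := fun C h1 h2 h3 =>
    h2 (eq_of_subset_of_card_le h3 (by rw [(hA1 C h1).1]))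
  obtain ⟨B, hB, hxB, hBA⟩ := other A0 x0
  have f1 := hA0.2.2
  obtain ⟨b1, b2, b3⟩ := ext A0 B x0 hB f1 (by omega) hxB hx0 (notsub0 B hB hBA)
  rcases eq_or_lt_of_le hna with hI | hII
  · have hone := fun C x h1 h2 h3 h4 => one A0 C x h1 f1 (by omega) h2 h3 (notsub0 C h1 h4)
    obtain ⟨x, hx, x', hx', hxx⟩ := one_lt_card.mp
      (show 1 < (A0.erase x0).card by rw [card_erase_of_mem hx0]; omega)
    obtain ⟨C, hC1', hC2, hC3⟩ := other A0 x
    obtain ⟨C', hC1'', hC2', hC3'⟩ := other A0 x'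
    have lower : ∀ C x, 𝒜 C → x ∈ C → x ∈ A0.erase x0 → C ≠ A0 →
        a ≤ (C \ (B ∪ A0)).card + 2 := by
      intro C x h1 h2 h3 h4
      have e1 := hone C x h1 h2 (mem_of_mem_erase h3) h4
      have e2 : C ≠ B := by
        rintro rfl
        exact (mem_erase.mp h3).1 (mem_singleton.mp (e1 ▸ mem_inter.mpr ⟨hxB, hx0⟩)).symm
      have e3 := hint C B h1 hB e2
      have e4 := card_sdiff_add_card_inter C (B ∪ A0)
      have e5 := card_union_le (C ∩ B) (C ∩ A0)
      rw [← inter_union_distrib_left, e1, card_singleton] at e5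
      rw [(hA1 C h1).1] at e4
      omega
    have l1 := lower C x hC1' hC2 hx hC3
    have l2 := lower C' x' hC1'' hC2' hx' hC3'
    have hCC : C ≠ C' := by
      rintro rfl
      have e1 := hone C x hC1' hC2 (mem_of_mem_erase hx) hC3
      exact hxx (mem_singleton.mp (e1 ▸ mem_inter.mpr ⟨hC2', mem_of_mem_erase hx'⟩)).symm
    have l3 := hint C C' hC1' hC1'' hCC
    have l4 := card_union_add_card_inter (C \ (B ∪ A0)) (C' \ (B ∪ A0))
    have l5 : ((C \ (B ∪ A0)) ∩ (C' \ (B ∪ A0))).card ≤ (C ∩ C').card :=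
      card_le_card (inter_subset_inter sdiff_subset sdiff_subset)
    have l6 : ((C \ (B ∪ A0)) ∪ (C' \ (B ∪ A0))).card ≤ (B ∪ A0)ᶜ.card := by
      apply card_le_card
      intro y hy
      rw [mem_compl]
      rcases mem_union.mp hy with h | h <;> exact (mem_sdiff.mp h).2
    have l7 := card_add_card_compl (B ∪ A0)
    exact arith4 k n d a hk hn (card_ge hVT hX v) hak (by omega) (by omega)
  · have hL : L A0 = A0 := by
      refine filter_true_of_mem fun x _ => ?_
      obtain ⟨C, h1, h2, h3⟩ := other A0 x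
      exact ⟨C, h1, h2, notsub0 C h1 h3⟩
    rw [hL] at b3
    have b4 := big _ b2 (by omega) (by omega)
    exact Q (n - (nb X (B ∪ A0)).card) (B ∪ A0) (by omega) b2 (by omega) (by omega)

/-- either the digraph or its reverse has a small block or a pair of near twins -/
theorem block_or_twin {X : V → V → Prop} (hVT : VT X) {k : ℕ} (hk : 3 ≤ k) (hX : NoShort k X)
    (v : V) (hn : Fintype.card V + 2 ≤ k * ((out X v).card + 1)) (hd : 1 ≤ (out X v).card) :
    (HasBlock X ∨ NearTwin X) ∨ (HasBlock (fun a b => X b a) ∨ NearTwin (fun a b => X b a)) := by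
  have hirr := hX.irrefl (by omega)
  rcases eq_or_lt_of_le hd with hd1 | hd2
  · obtain ⟨w, hw⟩ := card_pos.mp hd
    refine Or.inl (Or.inr ⟨v, w, fun h => hirr v (by simpa [← h] using hw), ?_⟩)
    have : nb X {v, w} ⊆ insert v (nb X {w}) := by
      obtain ⟨w', hw'⟩ := card_eq_one.mp hd1.symm
      have hww : w = w' := by simpa [hw'] using hw
      intro y hy
      rw [insert_eq, nb_union, nb_singleton, hw', ← hww] at hy
      rcases mem_union.mp hy with h | h
      · rcases mem_insert.mp h with h | h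
        · exact h ▸ mem_insert_self _ _
        · exact mem_insert_of_mem (subset_nb X _ h)
      · exact mem_insert_of_mem h
    refine (card_le_card this).trans ((card_insert_le _ _).trans ?_)
    rw [card_nb_singleton hirr, hVT.card_out w v]
  have hex : ∃ m, ∃ F : Finset V, Frag X m F ∧ m ≤ (out X v).card := by
    by_contra hc
    push Not at hc
    have hdis : ∀ t, t < k → (ball X t v).card + (out X v).card ≤ Fintype.card V := by
      intro t ht
      have : Disjoint (ball X t v) (inn X v) := by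
        rw [disjoint_left]
        exact fun x h1 h2 => hX t ht v x h1 (mem_inn.mp h2)
      rw [← hVT.card_inn v v, ← card_union_of_disjoint this]
      exact card_le_univ _
    have hgrow : ∀ t, t + 1 < k → (t + 1) * ((out X v).card + 1) ≤ (ball X (t + 1) v).card := by
      intro t
      induction t with
      | zero => intro _; rw [ball_succ, ball_zero, card_nb_singleton hirr]; omega
      | succ t ih =>
        intro ht
        have h1 := ih (by omega)
        have h2 := hdis (t + 2) ht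
        have h3 := card_le_card (subset_nb X (ball X (t + 1) v))
        have h4 : 1 * ((out X v).card + 1) ≤ (t + 1) * ((out X v).card + 1) :=
          Nat.mul_le_mul_right _ (by omega)
        rw [ball_succ] at h2 ⊢
        have h5 := hc ((nb X (ball X (t + 1) v)).card - (ball X (t + 1) v).card) (ball X (t + 1) v)
          ⟨by omega, by omega, by omega⟩
        rw [add_mul]
        omega
    obtain ⟨k', rfl⟩ : ∃ k', k = k' + 2 := ⟨k - 2, by omega⟩
    have h1 := hgrow k' (by omega)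
    have h2 := hdis (k' + 1) (by omega)
    have h3 : (k' + 2) * ((out X v).card + 1) =
        (k' + 1) * ((out X v).card + 1) + ((out X v).card + 1) := by ring
    omega
  set κ := Nat.find hex with hκ
  obtain ⟨F0, hF0, hκd⟩ := Nat.find_spec hex
  have hC : Conn X κ := by
    intro F h1 h2
    by_contra hc
    have h3 := card_le_card (subset_nb X F)
    have := Nat.find_min' hex (m := (nb X F).card - F.card)
      ⟨F, ⟨h1, h2, by omega⟩, by omega⟩
    omega
  have hex2 : ∃ c, ∃ F : Finset V, (Frag X κ F ∨ Frag (fun a b => X b a) κ F) ∧ F.card = c :=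
    ⟨_, F0, Or.inl hF0, rfl⟩
  obtain ⟨A0, hA0, hA0c⟩ := Nat.find_spec hex2
  have hmin : ∀ F, (Frag X κ F ∨ Frag (fun a b => X b a) κ F) → A0.card ≤ F.card := by
    intro F hF
    rw [hA0c]
    exact Nat.find_min' hex2 ⟨F, hF, rfl⟩
  rcases hA0 with h | h
  · refine Or.inl (atoms hVT hk hX v hn hκd hC A0 h fun F hF => ⟨hmin F (Or.inl hF), ?_⟩)
    have h1 := hmin _ (Or.inr (hF.flip hC))
    have h2 := card_add_card_compl (nb X F)
    omega
  · have hio : (out (fun a b => X b a) v).card = (out X v).card := hVT.card_inn v v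
    refine Or.inr (atoms hVT.flip hk hX.flip v (by rw [hio]; exact hn) (by rw [hio]; exact hκd)
      hC.flip A0 h fun F hF => ⟨hmin F (Or.inr hF), ?_⟩)
    have h1 := hmin _ (Or.inl (hF.flip hC.flip))
    have h2 := card_add_card_compl (nb (fun a b => X b a) F)
    omega

end Pool.Agent.P.MP_81f9fb_co
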