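import Mathlib

set_option autoImplicit false

namespace Pool.Agent.P.MP_81f9fb_co

open Finset Classical

variable {V : Type} [Fintype V]

/-- out-neighbours -/
noncomputable def out (R : V → V → Prop) (v : V) : Finset V := univ.filter (R v)

/-- in-neighbours -/
noncomputable def inn (R : V → V → Prop) (v : V) : Finset V := univ.filter (fun u => R u v)

/-- closed out-neighbourhood of a set -/
noncomputable def nb (R : V → V → Prop) (F : Finset V) : Finset V :=
  univ.filter (fun y => y ∈ F ∨ ∃ x ∈ F, R x y)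

/-- invariance under a permutation -/
def Inv (R : V → V → Prop) (φ : Equiv.Perm V) : Prop := ∀ a b, R (φ a) (φ b) ↔ R a b

/-- vertex-transitivity -/
def VT (R : V → V → Prop) : Prop := ∀ u v, ∃ φ : Equiv.Perm V, Inv R φ ∧ φ u = v

@[simp] lemma mem_out {R : V → V → Prop} {v w : V} : w ∈ out R v ↔ R v w := by simp [out]
@[simp] lemma mem_inn {R : V → V → Prop} {v w : V} : w ∈ inn R v ↔ R w v := by simp [inn]
lemma mem_nb {R : V → V → Prop} {F : Finset V} {y : V} :
    y ∈ nb R F ↔ y ∈ F ∨ ∃ x ∈ F, R x y := by simp [nb]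

lemma subset_nb (R : V → V → Prop) (F : Finset V) : F ⊆ nb R F :=
  fun _ h => mem_nb.mpr (Or.inl h)

lemma mem_nb_of_rel {R : V → V → Prop} {F : Finset V} {x y : V} (hx : x ∈ F) (h : R x y) :
    y ∈ nb R F := mem_nb.mpr (Or.inr ⟨x, hx, h⟩)

lemma nb_mono (R : V → V → Prop) {F F' : Finset V} (h : F ⊆ F') : nb R F ⊆ nb R F' := by
  intro y hy
  rcases mem_nb.mp hy with h1 | ⟨x, hx, h1⟩
  · exact mem_nb.mpr (Or.inl (h h1))
  · exact mem_nb_of_rel (h hx) h1

lemma nb_union (R : V → V → Prop) (F F' : Finset V) : nb R (F ∪ F') = nb R F ∪ nb R F' := by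
  ext y
  simp only [mem_nb, mem_union]
  constructor
  · rintro ((h | h) | ⟨x, hx | hx, h⟩)
    · exact Or.inl (Or.inl h)
    · exact Or.inr (Or.inl h)
    · exact Or.inl (Or.inr ⟨x, hx, h⟩)
    · exact Or.inr (Or.inr ⟨x, hx, h⟩)
  · rintro ((h | ⟨x, hx, h⟩) | (h | ⟨x, hx, h⟩))
    · exact Or.inl (Or.inl h)
    · exact Or.inr ⟨x, Or.inl hx, h⟩
    · exact Or.inl (Or.inr h)
    · exact Or.inr ⟨x, Or.inr hx, h⟩

lemma nb_submod (R : V → V → Prop) (F F' : Finset V) :
    (nb R (F ∩ F')).card + (nb R (F ∪ F')).card ≤ (nb R F).card + (nb R F').card := by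
  rw [nb_union, ← card_union_add_card_inter (nb R F) (nb R F'), add_comm]
  gcongr
  exact subset_inter (nb_mono R inter_subset_left) (nb_mono R inter_subset_right)

lemma nb_singleton (R : V → V → Prop) (v : V) : nb R {v} = insert v (out R v) := by
  ext y; simp [mem_nb]

lemma card_nb_singleton {R : V → V → Prop} (hirr : ∀ x, ¬ R x x) (v : V) :
    (nb R {v}).card = (out R v).card + 1 := by
  rw [nb_singleton, card_insert_of_notMem (by simp [hirr])]

lemma nb_map {R : V → V → Prop} {φ : Equiv.Perm V} (h : Inv R φ) (F : Finset V) :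
    nb R (F.map φ.toEmbedding) = (nb R F).map φ.toEmbedding := by
  ext y
  obtain ⟨y, rfl⟩ := φ.surjective y
  simp only [mem_nb, mem_map_equiv, Equiv.symm_apply_apply]
  refine or_congr Iff.rfl ⟨?_, ?_⟩
  · rintro ⟨x, hx, hr⟩
    refine ⟨φ.symm x, hx, ?_⟩
    rw [← h]; simpa using hr
  · rintro ⟨x, hx, hr⟩
    exact ⟨φ x, by simpa using hx, (h _ _).mpr hr⟩

omit [Fintype V] in
lemma VT.flip {R : V → V → Prop} (h : VT R) : VT (fun a b => R b a) := fun u v => by
  obtain ⟨φ, h1, h2⟩ := h u v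
  exact ⟨φ, fun a b => h1 b a, h2⟩

lemma VT.card_out {R : V → V → Prop} (h : VT R) (u v : V) : (out R u).card = (out R v).card := by
  obtain ⟨φ, h1, rfl⟩ := h u v
  exact card_equiv φ (fun a => by simp [h1 u a])

lemma sum_out_eq_sum_inn (R : V → V → Prop) :
    ∑ u, (out R u).card = ∑ v, (inn R v).card := by
  simp only [out, inn, card_filter]
  exact sum_comm

lemma VT.card_inn {R : V → V → Prop} (h : VT R) (u v : V) : (inn R u).card = (out R v).card := by
  have h1 := sum_out_eq_sum_inn R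
  have h2 : ∀ w, (inn R w).card = (inn R u).card := fun w => h.flip.card_out w u
  simp only [h.card_out _ v, h2, sum_const, smul_eq_mul] at h1
  have : 0 < (univ : Finset V).card := card_pos.mpr ⟨u, mem_univ u⟩
  exact (Nat.eq_of_mul_eq_mul_left this h1).symm

/-- The Scherk-Kemperman-Hamidoune inequality. -/
theorem skh {R : V → V → Prop} (hirr : ∀ x, ¬ R x x) (hVT : VT R) (v : V) (F : Finset V)
    (hv : v ∈ F) (hF : ∀ x ∈ F, ¬ R x v) : F.card + (out R v).card ≤ (nb R F).card := by
  let Mos : V → Finset V → Prop := fun v F => v ∈ F ∧ ∀ x ∈ F, ¬ R x v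
  have hex : ∃ m, ∃ v F, Mos v F ∧ (nb R F).card = F.card + m :=
    ⟨(nb R F).card - F.card, v, F, ⟨hv, hF⟩, by
      have := card_le_card (subset_nb R F); omega⟩
  set μ := Nat.find hex with hμ
  have hmin : ∀ v F, Mos v F → F.card + μ ≤ (nb R F).card := by
    intro v F hM
    have h1 := card_le_card (subset_nb R F)
    have := Nat.find_min' hex (m := (nb R F).card - F.card) ⟨v, F, hM, by omega⟩
    omega
  have hex2 : ∃ c, ∃ v F, Mos v F ∧ (nb R F).card = F.card + μ ∧ F.card = c := by
    obtain ⟨v, F, h1, h2⟩ := Nat.find_spec hex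
    exact ⟨_, v, F, h1, h2, rfl⟩
  set c := Nat.find hex2 with hc
  have hmin2 : ∀ v F, Mos v F → (nb R F).card = F.card + μ → c ≤ F.card :=
    fun v F h1 h2 => Nat.find_min' hex2 ⟨v, F, h1, h2, rfl⟩
  have hker : ∀ w, ∃ K, Mos w K ∧ (nb R K).card = K.card + μ ∧ K.card = c := by
    intro w
    obtain ⟨u, K, h1, h2, h3⟩ := Nat.find_spec hex2
    obtain ⟨φ, hφ, rfl⟩ := hVT u w
    refine ⟨K.map φ.toEmbedding, ⟨by simpa using h1.1, ?_⟩, ?_, ?_⟩
    · intro x hx
      obtain ⟨y, hy, rfl⟩ := mem_map.mp hx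
      exact fun h => h1.2 y hy ((hφ _ _).mp h)
    · rw [nb_map hφ, card_map, card_map, h2]
    · rw [card_map, h3]
  choose K hK1 hK2 hK3 using hker
  have key : ∀ v w, w ∈ K v → v ∈ nb R (K w) := by
    intro v w hw
    by_contra hn
    have hM1 : Mos v (K v ∪ K w) := by
      refine ⟨mem_union_left _ (hK1 v).1, fun x hx => ?_⟩
      rcases mem_union.mp hx with hx | hx
      · exact (hK1 v).2 x hx
      · exact fun h => hn (mem_nb_of_rel hx h)
    have hM2 : Mos w (K v ∩ K w) :=
      ⟨mem_inter.mpr ⟨hw, (hK1 w).1⟩, fun x hx => (hK1 w).2 x (mem_inter.mp hx).2⟩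
    have e1 := hmin _ _ hM1
    have e2 := hmin _ _ hM2
    have e3 := nb_submod R (K v) (K w)
    have e4 := card_union_add_card_inter (K v) (K w)
    have e5 := hmin2 _ _ hM2 (by rw [hK2, hK2] at e3; omega)
    have e6 : K v ∩ K w = K v := eq_of_subset_of_card_le inter_subset_left (by rw [hK3]; exact e5)
    have : v ∈ K w := (mem_inter.mp (e6 ▸ (hK1 v).1)).2
    exact hn (subset_nb R _ this)
  let Ω : V → V → Prop := fun w x => x ∈ nb R (K w) ∧ x ∉ nb R {w}
  have hout : ∀ w, (out Ω w).card + ((out R v).card + 1) = c + μ := by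
    intro w
    have : out Ω w = nb R (K w) \ nb R {w} := by ext x; simp [Ω]
    rw [this, hVT.card_out v w, ← card_nb_singleton hirr,
      card_sdiff_add_card_eq_card (nb_mono R (singleton_subset_iff.mpr (hK1 w).1)), hK2, hK3]
  have hinn : ∀ x, c ≤ (inn Ω x).card + 1 := by
    intro x
    have : (K x).erase x ⊆ inn Ω x := by
      intro w hw
      obtain ⟨h1, h2⟩ := mem_erase.mp hw
      refine mem_inn.mpr ⟨key x w h2, ?_⟩
      rw [nb_singleton]
      simp only [mem_insert, mem_out, not_or]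
      exact ⟨h1.symm, (hK1 x).2 w h2⟩
    have h3 := card_le_card this
    rw [card_erase_of_mem (hK1 x).1, hK3] at h3
    omega
  have hsum := sum_out_eq_sum_inn Ω
  have hle : (out R v).card ≤ μ := by
    by_contra hlt
    have : ∑ u, (out Ω u).card < ∑ u, (inn Ω u).card := by
      apply sum_lt_sum_of_nonempty ⟨v, mem_univ v⟩
      intro u _
      have := hout u
      have := hinn u
      omega
    omega
  have := hmin v F ⟨hv, hF⟩
  omega

/-- ball of radius `t` -/
noncomputable def ball (R : V → V → Prop) (t : ℕ) (v : V) : Finset V := (nb R)^[t] {v}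

lemma ball_zero (R : V → V → Prop) (v : V) : ball R 0 v = {v} := rfl

lemma ball_succ (R : V → V → Prop) (t : ℕ) (v : V) : ball R (t + 1) v = nb R (ball R t v) :=
  Function.iterate_succ_apply' _ _ _

lemma ball_mono (R : V → V → Prop) (v : V) {s t : ℕ} (h : s ≤ t) : ball R s v ⊆ ball R t v := by
  induction h with
  | refl => exact Subset.refl _
  | step _ ih => rw [ball_succ]; exact ih.trans (subset_nb R _)

lemma mem_ball_self (R : V → V → Prop) (t : ℕ) (v : V) : v ∈ ball R t v :=
  ball_mono R v (Nat.zero_le t) (mem_singleton_self v)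

/-- no closed walk of length at most `k` -/
def NoShort (k : ℕ) (R : V → V → Prop) : Prop := ∀ t, t < k → ∀ v, ∀ x ∈ ball R t v, ¬ R x v

lemma NoShort.irrefl {k : ℕ} {R : V → V → Prop} (h : NoShort k R) (hk : 0 < k) (x : V) :
    ¬ R x x := h 0 hk x x (mem_singleton_self x)

lemma NoShort.asymm {k : ℕ} {R : V → V → Prop} (h : NoShort k R) (hk : 1 < k) {x y : V}
    (hxy : R x y) : ¬ R y x :=
  h 1 hk x y (by rw [ball_succ]; exact mem_nb_of_rel (mem_singleton_self x) hxy)

lemma ball_hom {W : Type} [Fintype W] {R : V → V → Prop} {S : W → W → Prop} (ψ : W → V)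
    (h : ∀ a b, S a b → R (ψ a) (ψ b)) (t : ℕ) (v : W) :
    ∀ x ∈ ball S t v, ψ x ∈ ball R t (ψ v) := by
  induction t with
  | zero => intro x hx; rw [ball_zero, mem_singleton] at hx ⊢; rw [hx]
  | succ t ih =>
    intro x hx
    rw [ball_succ] at hx ⊢
    rcases mem_nb.mp hx with h1 | ⟨y, hy, h1⟩
    · exact subset_nb R _ (ih x h1)
    · exact mem_nb_of_rel (ih y hy) (h _ _ h1)

lemma NoShort.hom {W : Type} [Fintype W] {k : ℕ} {R : V → V → Prop} {S : W → W → Prop}
    (hR : NoShort k R) (ψ : W → V) (h : ∀ a b, S a b → R (ψ a) (ψ b)) : NoShort k S :=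
  fun t ht v x hx hs => hR t ht (ψ v) (ψ x) (ball_hom ψ h t v x hx) (h _ _ hs)

lemma mem_ball_front {R : V → V → Prop} {u v : V} (h : R u v) (t : ℕ) :
    ball R t v ⊆ ball R (t + 1) u := by
  induction t with
  | zero =>
    intro x hx
    rw [ball_zero, mem_singleton] at hx
    rw [ball_succ, hx]
    exact mem_nb_of_rel (mem_singleton_self u) h
  | succ t ih => rw [ball_succ, ball_succ R (t + 1)]; exact nb_mono R ih

lemma ball_flip {R : V → V → Prop} (t : ℕ) : ∀ v x,
    x ∈ ball (fun a b => R b a) t v → v ∈ ball R t x := by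
  induction t with
  | zero => intro v x hx; rw [ball_zero, mem_singleton] at hx ⊢; exact hx.symm
  | succ t ih =>
    intro v x hx
    rw [ball_succ] at hx
    rcases mem_nb.mp hx with h1 | ⟨y, hy, h1⟩
    · exact ball_mono R x (Nat.le_succ t) (ih v x h1)
    · exact mem_ball_front h1 t (ih v y hy)

lemma NoShort.flip {k : ℕ} {R : V → V → Prop} (h : NoShort k R) :
    NoShort k (fun a b => R b a) :=
  fun t ht v x hx hs => h t ht x v (ball_flip t v x hx) hs

lemma card_ball {k : ℕ} {R : V → V → Prop} (hVT : VT R) (h : NoShort k R) (v : V) :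
    ∀ t ≤ k, t * (out R v).card + 1 ≤ (ball R t v).card := by
  intro t
  induction t with
  | zero => intro _; simp [ball_zero]
  | succ t ih =>
    intro ht
    have h1 := skh (h.irrefl (by omega)) hVT v (ball R t v) (mem_ball_self R t v)
      (h t (by omega) v)
    have h2 := ih (by omega)
    rw [ball_succ, add_mul]
    omega

lemma card_ge {k : ℕ} {R : V → V → Prop} (hVT : VT R) (h : NoShort k R) (v : V) :
    k * (out R v).card + 1 ≤ Fintype.card V :=
  (card_ball hVT h v k le_rfl).trans (card_le_univ _)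

end Pool.Agent.P.MP_81f9fb_co
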