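import Mathlib

set_option autoImplicit false

namespace Pool.Agent.P.MP_81f9fb_co

/-- the Cayley digraph of `ZMod n` with connection set `{1, …, d}` (empty when `d = 0`) -/
def circ (n d : ℕ) (x y : ZMod n) : Prop := ∃ s : ℕ, 1 ≤ s ∧ s ≤ d ∧ y = x + (s : ZMod n)

/-- the lexicographic product `X[Y]` -/
def lex {V W : Type} (X : V → V → Prop) (Y : W → W → Prop) (p q : V × W) : Prop :=
  X p.1 q.1 ∨ (p.1 = q.1 ∧ Y p.2 q.2)

/-- digraphs isomorphic to an iterated lexicographic product `X₁[X₂[⋯[Xₖ]⋯]]` of digraphs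
`circ n d` -/
inductive InL : (V : Type) → (V → V → Prop) → Prop
  | base {V : Type} {X : V → V → Prop} (n d : ℕ) (hd : d < n)
      (h : Nonempty (X ≃r circ n d)) : InL V X
  | prod {V W : Type} {X : V → V → Prop} {Y : W → W → Prop} (n d : ℕ) (hd : d < n)
      (hY : InL W Y) (h : Nonempty (X ≃r lex (circ n d) Y)) : InL V X

/-- `X` has a directed cycle of length `l` -/
def HasCycle {V : Type} (X : V → V → Prop) (l : ℕ) : Prop :=
  0 < l ∧ ∃ c : ZMod l → V, Function.Injective c ∧ ∀ i, X (c i) (c (i + 1))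

end Pool.Agent.P.MP_81f9fb_co
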