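import Pool.Agent.P.MP_81f9fb_co.Defs

set_option autoImplicit false

namespace Pool.Agent.P.MP_81f9fb_co

/-- the Cayley digraph of `ZMod m` with connection set `{1, …, e - 1, e + 1}` -/
def hole (m e : ℕ) (x y : ZMod m) : Prop :=
  ∃ s : ℕ, ((1 ≤ s ∧ s < e) ∨ s = e + 1) ∧ y = x + (s : ZMod m)

end Pool.Agent.P.MP_81f9fb_co
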