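import Pool.Agent.P.MP_81f9fb_co.Main

set_option autoImplicit false

namespace Pool.Agent.P.MP_81f9fb_co

open Finset Classical

variable {V : Type} [Fintype V]

lemma arith2a (k n d e μ δ h r : ℕ) (hn : n + 1 ≤ (k + 2) * (d + 1))
    (hde : δ + e = d + μ) (hhe : (k + 2) * e + 1 ≤ h) (t3 : (k + 2) * δ ≤ r) (s4 : h + r ≤ n) :
    μ = 0 := by
  by_contra hne
  have : 1 ≤ μ := Nat.one_le_iff_ne_zero.mpr hne
  nlinarith

lemma arith3a (k n d e δ h ρ : ℕ) (hn : n + 1 ≤ (k + 2) * (d + 1))
    (hde : δ + e = d) (hhe : (k + 2) * e + 1 ≤ h) (h5 : δ + h ≤ ρ) (s4 : h + ρ + ρ + k * ρ ≤ n) :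
    False := by
  subst hde
  have : (k + 2) * (δ + h) ≤ (k + 2) * ρ := Nat.mul_le_mul_left _ h5
  have : (k + 2) * 1 ≤ (k + 2) * h := Nat.mul_le_mul_left _ (by omega)
  nlinarith

/-- A block whose out-boundary has at most `d` elements is a module. -/
theorem block_module1 {X E : V → V → Prop} (hE : Equivalence E) (hVT : VT2 X E) (k' : ℕ)
    (hk : 1 ≤ k') (hX : NoShort (k' + 2) X) (v : V)
    (hn : Fintype.card V + 1 ≤ (k' + 2) * ((out X v).card + 1))
    (hD : (bd X E v).card ≤ (out X v).card) :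
    ∀ x x' w w', E x x' → E w w' → ¬ E x w → X x w → X x' w' := by
  have hirr := hX.irrefl (by omega)
  let Rin : V → V → Prop := fun x y => X x y ∧ E x y
  let P : V → V → Prop := fun x y => y ∈ bd X E x ∧ ¬ X x y
  have vE : VT E := hVT.vt fun _ _ h => h
  have vin : VT Rin := hVT.vt fun φ h1 h2 a b => and_congr (h1 a b) (h2 a b)
  have vP : VT P := hVT.vt fun φ h1 h2 a b => and_congr (inv_bd h1 h2 a b) (h1 a b).not
  have vR : ∀ θ, VT (Rt X E θ) := fun θ => hVT.vt fun φ h1 h2 => inv_Rt θ h1 h2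
  have iR : ∀ θ x, ¬ Rt X E θ x x := fun θ x h => h.1 (hE.refl x)
  set d := (out X v).card with hd
  set e := (out Rin v).card with he
  set μ := (out P v).card with hμ
  set δ := (bd X E v).card with hδ
  set h := (out E v).card with hh
  have hde : δ + e = d + μ := by
    have e1 : out X v ∪ out P v = bd X E v ∪ out Rin v := by
      ext y
      simp only [mem_union, mem_out, P, Rin]
      constructor
      · rintro (h1 | h1)
        · by_cases h2 : E v y
          · exact Or.inr ⟨h1, h2⟩
          · exact Or.inl (mem_bd.mpr ⟨h2, v, hE.refl v, h1⟩)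
        · exact Or.inl h1.1
      · rintro (h1 | h1)
        · by_cases h2 : X v y
          · exact Or.inl h2
          · exact Or.inr ⟨h1, h2⟩
        · exact Or.inl h1.1
    have e2 : Disjoint (out X v) (out P v) := by
      rw [disjoint_left]
      intro y h1 h2
      exact (mem_out.mp h2).2 (mem_out.mp h1)
    have e3 : Disjoint (bd X E v) (out Rin v) := by
      rw [disjoint_left]
      intro y h1 h2
      exact (mem_bd.mp h1).1 (mem_out.mp h2).2
    rw [← card_union_of_disjoint e2, ← card_union_of_disjoint e3, e1]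
  have hhe : (k' + 2) * e + 1 ≤ h := by
    have h1 : NoShort (k' + 2) Rin := hX.hom id fun a b h => h.1
    refine (card_ball vin h1 v _ le_rfl).trans (card_le_card ?_)
    have : ∀ t, ball Rin t v ⊆ out E v := by
      intro t
      induction t with
      | zero => intro x hx; rw [ball_zero, mem_singleton] at hx; rw [hx]; simp [hE.refl]
      | succ t ih =>
        intro x hx
        rw [ball_succ] at hx
        rcases mem_nb.mp hx with h2 | ⟨y, hy, h2⟩
        · exact ih h2
        · exact mem_out.mpr (hE.trans (mem_out.mp (ih hy)) h2.2)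
    exact this _
  have hμe : μ ≤ e := by omega
  let big : ℕ → V → V → Prop := fun t w y => μ < (ball X t w ∩ out E y).card
  have b1 : ∀ t w y z, big t w y → z ∈ bd X E y → ∃ x ∈ ball X t w, X x z := by
    intro t w y z hb hz
    by_contra hc
    push Not at hc
    have : ball X t w ∩ out E y ⊆ inn P z := by
      intro x hx
      obtain ⟨h1, h2⟩ := mem_inter.mp hx
      exact mem_inn.mpr ⟨by rw [← bd_congr hE (mem_out.mp h2)]; exact hz, hc x h1⟩
    have h3 := card_le_card this
    rw [vP.card_inn z v] at h3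
    exact absurd hb (not_lt.mpr h3)
  have b2 : ∀ t w y y', big t w y → Rt X E μ y y' → big (t + 1) w y' := by
    intro t w y y' hb hR
    refine lt_of_lt_of_le hR.2 (card_le_card (inter_subset_inter ?_ (Subset.refl _)))
    intro z hz
    obtain ⟨x, hx, hxz⟩ := b1 t w y z hb hz
    rw [ball_succ]
    exact mem_nb_of_rel hx hxz
  have b3 : ∀ t w y, big t w y → big (t + 1) w y := fun t w y hb =>
    lt_of_lt_of_le hb
      (card_le_card (inter_subset_inter (ball_mono X w (Nat.le_succ t)) (Subset.refl _)))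
  have b4 : ∀ w y, E w y → big 1 w y := by
    intro w y hwy
    have : insert w (out Rin w) ⊆ ball X 1 w ∩ out E y := by
      intro x hx
      rw [← cls_congr hE hwy, mem_inter, ball_succ, ball_zero]
      rcases mem_insert.mp hx with h1 | h1
      · rw [h1]; exact ⟨subset_nb X _ (mem_singleton_self w), mem_out.mpr (hE.refl w)⟩
      · exact ⟨mem_nb_of_rel (mem_singleton_self w) (mem_out.mp h1).1,
          mem_out.mpr (mem_out.mp h1).2⟩
    have h3 := card_le_card this
    rw [card_insert_of_notMem (fun h => hirr w (mem_out.mp h).1), vin.card_out w v] at h3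
    show μ < _
    omega
  have b5 : ∀ w y, Rt X E (2 * μ) w y → big 1 w y := by
    intro w y hR
    have : bd X E w ∩ out E y ⊆ (ball X 1 w ∩ out E y) ∪ out P w := by
      intro x hx
      obtain ⟨h1, h2⟩ := mem_inter.mp hx
      by_cases h3 : X w x
      · refine mem_union_left _ (mem_inter.mpr ⟨?_, h2⟩)
        rw [ball_succ, ball_zero]
        exact mem_nb_of_rel (mem_singleton_self w) h3
      · exact mem_union_right _ (mem_out.mpr ⟨h1, h3⟩)
    have h3 := (card_le_card this).trans (card_union_le _ _)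
    rw [vP.card_out w v] at h3
    have h4 := hR.2
    unfold II at h4
    show μ < _
    omega
  have b6 : ∀ t w y, t < k' + 2 → big t w y → w ∈ bd X E y → False := by
    intro t w y ht hb hw
    obtain ⟨x, hx, hxw⟩ := b1 t w y w hb hw
    exact hX t ht w x hx hxw
  -- the chain of sets
  set F1 := nb (Rt X E 0) (out E v) with hF1
  set F2 := nb (Rt X E (2 * μ)) F1 with hF2
  have hv0 : v ∈ out E v := mem_out.mpr (hE.refl v)
  have hv1 : v ∈ F1 := subset_nb _ _ hv0
  have hv2 : v ∈ F2 := subset_nb _ _ hv1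
  have c1 : ∀ y ∈ F1, E v y ∨ ∃ w ∈ bd X E v, E w y := by
    intro y hy
    rcases mem_nb.mp hy with h1 | ⟨z, hz, h1⟩
    · exact Or.inl (mem_out.mp h1)
    · obtain ⟨w, hw, hw'⟩ := Rt_exists h1
      exact Or.inr ⟨w, by rw [bd_congr hE (mem_out.mp hz)]; exact hw, hE.symm hw'⟩
  have c2 : ∀ j, ∀ x ∈ (nb (Rt X E μ))^[j] F2, ∃ y ∈ F1, ∀ w, E w y → big (j + 1) w x := by
    intro j
    induction j with
    | zero =>
      intro x hx
      rcases mem_nb.mp hx with h1 | ⟨y, hy, h1⟩
      · exact ⟨x, h1, fun w hw => b4 w x hw⟩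
      · exact ⟨y, hy, fun w hw => b5 w x (Rt_congr hE (hE.symm hw) (hE.refl x) h1)⟩
    | succ j ih =>
      intro x hx
      rw [Function.iterate_succ_apply'] at hx
      rcases mem_nb.mp hx with h1 | ⟨z, hz, h1⟩
      · obtain ⟨y, hy, h2⟩ := ih x h1
        exact ⟨y, hy, fun w hw => b3 _ _ _ (h2 w hw)⟩
      · obtain ⟨y, hy, h2⟩ := ih z hz
        exact ⟨y, hy, fun w hw => b2 _ _ _ _ (h2 w hw) h1⟩
  set ρ0 := (out (Rt X E 0) v).card with hρ0
  set ρ1 := (out (Rt X E μ) v).card with hρ1
  set ρ2 := (out (Rt X E (2 * μ)) v).card with hρ2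
  have s1 : h + ρ0 ≤ F1.card :=
    skh (iR 0) (vR 0) v _ hv0 fun x hx hR => hR.1 (hE.symm (mem_out.mp hx))
  have s2 : F1.card + ρ2 ≤ F2.card := by
    refine skh (iR _) (vR _) v _ hv1 fun y hy hR => ?_
    rcases c1 y hy with h1 | ⟨w, hw, h1⟩
    · exact hR.1 (hE.symm h1)
    · exact b6 1 w v (by omega) (b5 w v (Rt_congr hE (hE.symm h1) (hE.refl v) hR)) hw
  have s3 : ∀ j ≤ k', v ∈ (nb (Rt X E μ))^[j] F2 ∧
      F2.card + j * ρ1 ≤ ((nb (Rt X E μ))^[j] F2).card := by
    intro j
    induction j with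
    | zero => intro _; simpa using hv2
    | succ j ih =>
      intro hj
      obtain ⟨i1, i2⟩ := ih (by omega)
      rw [Function.iterate_succ_apply']
      refine ⟨subset_nb _ _ i1, ?_⟩
      have := skh (iR μ) (vR μ) v _ i1 fun x hx hR => by
        obtain ⟨y, hy, h2⟩ := c2 j x hx
        rcases c1 y hy with h1 | ⟨w, hw, h1⟩
        · obtain ⟨w, hw, hw'⟩ := Rt_exists hR
          exact b6 (j + 1) w x (by omega) (h2 w (hE.trans (hE.symm hw') h1)) hw
        · exact b6 (j + 2) w v (by omega) (b2 _ _ _ _ (h2 w h1) hR) hw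
      rw [add_mul]
      omega
  have s4 : h + ρ0 + ρ2 + k' * ρ1 ≤ Fintype.card V := by
    have := (s3 k' le_rfl).2.trans (card_le_univ _)
    omega
  have t1 : ∑ y, II X E v y = δ * h := by
    have : ∀ y, II X E v y = ∑ w ∈ bd X E v, if E y w then 1 else 0 := by
      intro y
      rw [← card_filter]
      unfold II
      congr 1
      ext w; simp
    simp only [this]
    rw [sum_comm, sum_congr rfl (g := fun _ => h), sum_const, smul_eq_mul]
    intro w _
    rw [← card_filter]
    exact vE.card_inn w v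
  have t2 : ∀ y, (k' + 2) * II X E v y ≤ h * ((if Rt X E 0 v y then 1 else 0) +
      (if Rt X E (2 * μ) v y then 1 else 0) + k' * (if Rt X E μ v y then 1 else 0)) := by
    intro y
    by_cases h0 : E v y
    · have : II X E v y = 0 := by
        unfold II
        rw [card_eq_zero, ← disjoint_iff_inter_eq_empty, disjoint_left]
        intro w h1 h2
        exact (mem_bd.mp h1).1 (hE.trans h0 (mem_out.mp h2))
      rw [this]; simp
    · have hle : II X E v y ≤ h := by
        rw [hh, ← vE.card_out y v]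
        exact card_le_card inter_subset_right
      have hkμ : (k' + 2) * μ ≤ h :=
        (Nat.mul_le_mul_left _ hμe).trans ((Nat.le_succ _).trans hhe)
      simp only [Rt, h0, not_false_eq_true, true_and]
      exact arith1 k' h μ _ hk hle hkμ
  have t3 : (k' + 2) * δ ≤ ρ0 + ρ2 + k' * ρ1 := by
    have := sum_le_sum (s := univ) fun y _ => t2 y
    rw [← mul_sum, ← mul_sum, t1, sum_add_distrib, sum_add_distrib, ← mul_sum, ← card_filter,
      ← card_filter, ← card_filter] at this
    have hpos : 0 < h := by omega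
    refine Nat.le_of_mul_le_mul_left ?_ hpos
    calc h * ((k' + 2) * δ) = (k' + 2) * (δ * h) := by ring
      _ ≤ _ := this
  have hμ0 : μ = 0 := arith2a k' _ d e μ δ h _ hn hde hhe t3 (by omega)
  have hP : ∀ x y, y ∈ bd X E x → X x y := by
    intro x y hy
    by_contra hc
    have : 0 < (out P x).card := card_pos.mpr ⟨y, mem_out.mpr ⟨hy, hc⟩⟩
    rw [vP.card_out x v] at this
    omega
  let P' : V → V → Prop := fun x y => Rt X E 0 x y ∧ y ∉ bd X E x
  have vP' : VT P' := hVT.vt fun φ h1 h2 a b => and_congr (inv_Rt 0 h1 h2 a b) (inv_bd h1 h2 a b).not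
  have hbdR : ∀ x w w', w ∈ bd X E x → E w w' → Rt X E 0 x w' := by
    intro x w w' hw hww'
    refine ⟨fun h1 => (mem_bd.mp hw).1 (hE.trans h1 (hE.symm hww')), ?_⟩
    exact card_pos.mpr ⟨w, mem_inter.mpr ⟨hw, mem_out.mpr (hE.symm hww')⟩⟩
  have hP' : ∀ x y, Rt X E 0 x y → y ∈ bd X E x := by
    intro x y hR
    by_contra hc
    have h1 : out E x ⊆ inn P' y := by
      intro z hz
      have hz' := mem_out.mp hz
      exact mem_inn.mpr ⟨Rt_congr hE hz' (hE.refl y) hR, by rw [← bd_congr hE hz']; exact hc⟩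
    have h2 := card_le_card h1
    rw [vE.card_out x v, vP'.card_inn y v] at h2
    have h3 : bd X E v ∪ out P' v ⊆ out (Rt X E 0) v := by
      intro z hz
      rcases mem_union.mp hz with h4 | h4
      · exact mem_out.mpr (hbdR v z z h4 (hE.refl z))
      · exact mem_out.mpr (mem_out.mp h4).1
    have h4 := card_le_card h3
    rw [card_union_of_disjoint (by
      rw [disjoint_left]
      intro z h5 h6
      exact (mem_out.mp h6).2 h5)] at h4
    have e1 : ρ1 = ρ0 := by rw [hρ1, hμ0]
    have e2 : ρ2 = ρ0 := by rw [hρ2, hμ0]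
    have h5 : δ + h ≤ ρ0 := by omega
    rw [e1, e2] at s4
    exact arith3a k' _ d e δ h ρ0 hn (by omega) hhe h5 s4
  intro x x' w w' hx hw hxw hX'
  refine hP _ _ (hP' _ _ (hbdR x' w w' ?_ hw))
  rw [← bd_congr hE hx]
  exact mem_bd.mpr ⟨hxw, x, hE.refl x, hX'⟩

end Pool.Agent.P.MP_81f9fb_co
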