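import Pool.Agent.P.MP_81f9fb_co.Eq9

set_option autoImplicit false

namespace Pool.Agent.P.MP_81f9fb_co

open Finset Classical

lemma vt_congr {V W : Type} {X : V → V → Prop} {Y : W → W → Prop} (e : X ≃r Y)
    (h : ∀ u v, ∃ φ : Y ≃r Y, φ u = v) (u v : V) : ∃ φ : X ≃r X, φ u = v := by
  obtain ⟨φ, h⟩ := h (e u) (e v)
  exact ⟨(e.trans φ).trans e.symm, by simp [h]⟩

lemma vt_lex {V W : Type} {X : V → V → Prop} {Y : W → W → Prop}
    (h1 : ∀ u v, ∃ φ : X ≃r X, φ u = v) (h2 : ∀ u v, ∃ φ : Y ≃r Y, φ u = v) (u v : V × W) :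
    ∃ φ : lex X Y ≃r lex X Y, φ u = v := by
  obtain ⟨φ, a⟩ := h1 u.1 v.1
  obtain ⟨ψ, b⟩ := h2 u.2 v.2
  exact ⟨lexCongr φ ψ, Prod.ext a b⟩

lemma vt_cay {n : ℕ} (S : ℕ → Prop) {X : ZMod n → ZMod n → Prop}
    (h : ∀ x y, X x y ↔ ∃ s : ℕ, S s ∧ y = x + (s : ZMod n)) (u v : ZMod n) :
    ∃ φ : X ≃r X, φ u = v := by
  refine ⟨⟨Equiv.addRight (v - u), fun {a b} => ?_⟩, by simp⟩
  simp only [h, Equiv.coe_addRight]
  refine exists_congr fun s => and_congr_right fun _ => ⟨fun h => ?_, fun h => ?_⟩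
  · linear_combination h
  · linear_combination h

lemma InL.vt {V : Type} {X : V → V → Prop} (h : InL V X) : ∀ u v, ∃ φ : X ≃r X, φ u = v := by
  have c : ∀ n d, ∀ u v, ∃ φ : circ n d ≃r circ n d, φ u = v := fun n d =>
    vt_cay (fun s => 1 ≤ s ∧ s ≤ d) fun x y => by simp only [circ, and_assoc]
  induction h with
  | base n d hd h => exact vt_congr h.some (c n d)
  | prod n d hd _ h ih => exact vt_congr h.some (vt_lex (c n d) ih)

lemma cyc_of_ball {V : Type} [Fintype V] {X : V → V → Prop} {t : ℕ} {v x : V}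
    (hx : x ∈ ball X t v) (hxv : X x v) : ∃ l ≤ t + 1, HasCycle X l := by
  obtain ⟨l, hl, f, h1, h2, h4⟩ := walk_of_ball v t x hx
  obtain ⟨l', h5, h6⟩ := cycle_of_walk (X := X) (l + 1) (fun i => if i ≤ l then f i else v)
    (by omega) (by simp [h1]) (by
      intro i hi
      by_cases h7 : i < l
      · simp only [h7.le, Nat.succ_le_of_lt h7, if_true]
        exact h4 i h7
      · have : i = l := by omega
        subst this
        simp only [le_refl, if_true, Nat.not_succ_le_self, if_false]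
        rw [h2]; exact hxv)
  exact ⟨l', by omega, h6⟩

lemma NoShort.lt {V : Type} [Fintype V] {X : V → V → Prop} {k l : ℕ} (h : NoShort k X)
    (hc : HasCycle X l) : k < l := by
  obtain ⟨hl, c, -, hc⟩ := hc
  obtain ⟨j, rfl⟩ : ∃ j, l = j + 1 := ⟨l - 1, by omega⟩
  have hb : ∀ i : ℕ, c (i : ZMod (j + 1)) ∈ ball X i (c 0) := by
    intro i
    induction i with
    | zero => simpa using mem_ball_self X 0 (c 0)
    | succ i ih => exact mem_ball_step ih (by simpa using hc i)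
  by_contra hk
  refine h j (by omega) (c 0) _ (hb j) ?_
  have := hc j
  rwa [show (j : ZMod (j + 1)) + 1 = 0 by simp] at this

lemma NoShort.lex {V W : Type} [Fintype V] [Fintype W] {T : V → V → Prop} {Y : W → W → Prop}
    {k : ℕ} (h1 : NoShort k T) (h2 : NoShort k Y) : NoShort k (lex T Y) := by
  rintro t ht ⟨a, u⟩
  have key : ∀ t, ∀ p ∈ ball (MP_81f9fb_co.lex T Y) t (a, u), (p.1 = a ∧ p.2 ∈ ball Y t u) ∨
      ∃ s < t, ∃ b ∈ ball T s a, T b p.1 := by
    intro t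
    induction t with
    | zero =>
      intro p hp
      rw [ball_zero, mem_singleton] at hp
      exact Or.inl (by rw [hp]; exact ⟨rfl, mem_ball_self Y 0 u⟩)
    | succ t ih =>
      intro q hq
      rw [ball_succ] at hq
      rcases mem_nb.mp hq with h | ⟨p, hp, h⟩
      · rcases ih q h with ⟨e1, e2⟩ | ⟨s, e1, e2⟩
        · exact Or.inl ⟨e1, ball_mono Y u (Nat.le_succ t) e2⟩
        · exact Or.inr ⟨s, by omega, e2⟩
      · rcases ih p hp with ⟨e1, e2⟩ | ⟨s, e1, b, e2, e3⟩ <;> rcases h with h | ⟨h, h'⟩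
        · exact Or.inr ⟨0, by omega, a, mem_ball_self T 0 a, e1 ▸ h⟩
        · exact Or.inl ⟨h ▸ e1, mem_ball_step e2 h'⟩
        · exact Or.inr ⟨s + 1, by omega, p.1, mem_ball_step e2 e3, h⟩
        · exact Or.inr ⟨s, by omega, b, e2, h ▸ e3⟩
  intro p hp h
  rcases key t p hp with ⟨e1, e2⟩ | ⟨s, e1, b, e2, e3⟩ <;> rcases h with h | ⟨h, h'⟩
  · exact h1.irrefl (by omega) a (e1 ▸ h)
  · exact h2 t ht u _ e2 h'
  · exact h1 (s + 1) (by omega) a _ (mem_ball_step e2 e3) h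
  · exact h1 s (by omega) a b e2 (by rw [h] at e3; exact e3)

lemma hole_noShort {m e k : ℕ} [NeZero m] (he : 2 ≤ e) (hm : m + 1 = k * (e + 1)) :
    NoShort k (hole m e) := by
  intro t ht v
  have key : ∀ t, ∀ x ∈ ball (hole m e) t v,
      ∃ r : ℕ, x = v + r ∧ r ≤ t * (e + 1) ∧ r + 1 ≠ t * (e + 1) := by
    intro t
    induction t with
    | zero =>
      intro x hx
      rw [ball_zero, mem_singleton] at hx
      exact ⟨0, by simp [hx], by omega, by omega⟩
    | succ t ih =>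
      intro y hy
      rw [ball_succ] at hy
      rw [add_mul t]
      rcases mem_nb.mp hy with h | ⟨x, hx, s, h1, h2⟩
      · obtain ⟨r, e1, e2, e3⟩ := ih y h
        exact ⟨r, e1, by omega, by omega⟩
      · obtain ⟨r, e1, e2, e3⟩ := ih x hx
        exact ⟨r + s, by rw [h2, e1]; push_cast; ring, by omega, by omega⟩
  rintro x hx ⟨s, h1, h2⟩
  obtain ⟨r, e1, e2, e3⟩ := key t x hx
  have e4 : ((r + s : ℕ) : ZMod m) = 0 := by
    rw [e1] at h2
    push_cast
    linear_combination -h2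
  obtain ⟨j, rfl⟩ : ∃ j, k = t + 1 + j := ⟨k - (t + 1), by omega⟩
  obtain ⟨q, hq⟩ := (ZMod.natCast_eq_zero_iff _ _).mp e4
  have e5 : (t + 1 + j) * (e + 1) = t * (e + 1) + (e + 1) + j * (e + 1) := by ring
  have e6 : j = 0 ∨ e + 1 ≤ j * (e + 1) := by
    rcases Nat.eq_zero_or_pos j with h | h
    · exact Or.inl h
    · exact Or.inr (Nat.le_mul_of_pos_left _ h)
  rcases q with _ | _ | q
  · omega
  · rcases e6 with rfl | e6 <;> omega
  · have : m * (q + 1 + 1) = m * q + 2 * m := by ring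
    omega

lemma hole_back {m e k : ℕ} [NeZero m] (he : 2 ≤ e) (hm : m + 1 = (k + 1) * (e + 1)) :
    ∃ x ∈ ball (hole m e) (k + 1) 0, hole m e x 0 := by
  have hb : ∀ j : ℕ, ((j * (e + 1) : ℕ) : ZMod m) ∈ ball (hole m e) j 0 := by
    intro j
    induction j with
    | zero => simpa using mem_ball_self (hole m e) 0 0
    | succ j ih => exact mem_ball_step ih ⟨e + 1, Or.inr rfl, by push_cast; ring⟩
  refine ⟨_, mem_ball_step (hb k) ⟨1, by omega, rfl⟩, e - 1, by omega, ?_⟩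
  rw [← Nat.cast_add, ← Nat.cast_add, show k * (e + 1) + 1 + (e - 1) = m by
    rw [add_mul] at hm; omega, ZMod.natCast_self]

theorem classification (V : Type) [Fintype V] (X : V → V → Prop) (d g : ℕ) (h3 : 3 < g) :
    ((∀ u v : V, ∃ φ : X ≃r X, φ u = v) ∧ (∀ v : V, Set.ncard {w | X v w} = d) ∧
      IsLeast {l | HasCycle X l} g ∧ ¬ InL V X ∧
      (Fintype.card V : ℤ) ≤ ((d : ℤ) + 1) * ((g : ℤ) - 1) - 1) ↔
    ∃ (W : Type) (_ : Fintype W) (T : W → W → Prop) (c e : ℕ), InL W T ∧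
      (∀ w : W, Set.ncard {w' | T w w'} = c) ∧ (∀ l < g, ¬ HasCycle T l) ∧
      Fintype.card W = (g - 1) * c + 1 ∧ 2 ≤ e ∧ d = c * ((g - 1) * (e + 1) - 1) + e ∧
      Nonempty (X ≃r lex T (hole ((g - 1) * (e + 1) - 1) e)) := by
  have nc : ∀ (W : Type) [Fintype W] (T : W → W → Prop) (w : W),
      Set.ncard {w' | T w w'} = (out T w).card := by
    intro W _ T w
    rw [← Set.ncard_coe_finset]
    congr 1
    ext w; simp
  have ns : ∀ (W : Type) [Fintype W] (T : W → W → Prop), (∀ l < g, ¬ HasCycle T l) →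
      NoShort (g - 1) T := fun W _ T h t ht v x hx hxv => by
    obtain ⟨l, h1, h2⟩ := cyc_of_ball hx hxv
    exact h l (by omega) h2
  have hm : ∀ e, 3 * e + 2 ≤ (g - 1) * (e + 1) - 1 ∧
      (g - 1) * (e + 1) - 1 + 1 = (g - 1) * (e + 1) := fun e => by
    have : 3 * (e + 1) ≤ (g - 1) * (e + 1) := Nat.mul_le_mul_right _ (by omega)
    omega
  have deg : ∀ (W : Type) [Fintype W] (T : W → W → Prop) (c e m : ℕ), 2 ≤ e → 3 * e + 2 ≤ m →
      (∀ w, ¬ T w w) → (∀ w : W, Set.ncard {w' | T w w'} = c) → (X ≃r lex T (hole m e)) →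
      ∀ v : V, Set.ncard {w | X v w} = c * m + e := by
    intro W _ T c e m he hm hT hc φ v
    have : NeZero m := ⟨by omega⟩
    rw [nc, card_out_iso φ, card_out_lex hT, ZMod.card, card_out_hole (by omega) (by omega),
      ← nc, hc]
  constructor
  · rintro ⟨hVT, hd, hg, hL⟩
    obtain ⟨W, _, T, c, e, h1, h2, h4, h5, ⟨φ⟩⟩ := (extremal V X hVT d g hd hg h3).mp hL
    have s0 : NoShort (g - 1) X := ns V X fun l hl h => by have := hg.2 h; omega
    have s1 : NoShort (g - 1) T :=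
      s0.hom (fun B => φ.symm (B, 0)) fun a b h => φ.symm.map_rel_iff.mpr (Or.inl h)
    obtain ⟨-, c0, -, -⟩ := hg.1
    exact ⟨W, _, T, c, e, h1, h2, fun l hl h => by have := s1.lt h; omega, h4, h5,
      (hd (c0 0)).symm.trans (deg W T c e _ h5 (hm e).1 (s1.irrefl (by omega)) h2 φ _), ⟨φ⟩⟩
  · rintro ⟨W, _, T, c, e, h1, h2, h6, h4, h5, h7, ⟨φ⟩⟩
    have s1 := ns W T h6
    have : NeZero ((g - 1) * (e + 1) - 1) := ⟨by have := (hm e).1; omega⟩
    have s0 : NoShort (g - 1) X := (s1.lex (hole_noShort h5 (hm e).2)).hom φ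
      fun a b h => φ.map_rel_iff.mpr h
    have hVT := vt_congr φ (vt_lex h1.vt (vt_cay _ fun _ _ => Iff.rfl))
    have hd : ∀ v : V, Set.ncard {w | X v w} = d :=
      h7 ▸ deg W T c e _ h5 (hm e).1 (s1.irrefl (by omega)) h2 φ
    obtain ⟨w0⟩ : Nonempty W := Fintype.card_pos_iff.mp (by omega)
    have hg : IsLeast {l | HasCycle X l} g := by
      obtain ⟨x, x1, x2⟩ := hole_back (k := g - 2) h5
        ((hm e).2.trans (by rw [show g - 2 + 1 = g - 1 by omega]))
      have hh : ∀ a b, hole ((g - 1) * (e + 1) - 1) e a b →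
          X (φ.symm (w0, a)) (φ.symm (w0, b)) :=
        fun a b h => φ.symm.map_rel_iff.mpr (Or.inr ⟨rfl, h⟩)
      obtain ⟨l, l1, l2⟩ := cyc_of_ball (ball_hom (fun a => φ.symm (w0, a)) hh _ _ x x1) (hh _ _ x2)
      have := s0.lt l2
      obtain rfl : l = g := by omega
      exact ⟨l2, fun l' h => by have := s0.lt h; omega⟩
    exact ⟨hVT, hd, hg, (extremal V X hVT d g hd hg h3).mpr ⟨W, _, T, c, e, h1, h2, h4, h5, ⟨φ⟩⟩⟩

end Pool.Agent.P.MP_81f9fb_co
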