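import Pool.Agent.P.MP_81f9fb_co.Eq2

set_option autoImplicit false

namespace Pool.Agent.P.MP_81f9fb_co

open Finset Classical

variable {V : Type} [Fintype V]

/-- the highly connected extremal situation -/
structure Good (X : V → V → Prop) (k d : ℕ) : Prop where
  vt : VT X
  ns : NoShort k X
  deg : ∀ v, (out X v).card = d
  conn : Conn X (d + 1)
  hn : Fintype.card V + 1 ≤ k * (d + 1)
  hk : 3 ≤ k
  hd : 2 ≤ d

/-- distinct non-adjacent vertices -/
def NA (X : V → V → Prop) (u w : V) : Prop := u ≠ w ∧ ¬ X u w ∧ ¬ X w u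

omit [Fintype V] in
lemma NA.symm {X : V → V → Prop} {u w : V} (h : NA X u w) : NA X w u :=
  ⟨h.1.symm, h.2.2, h.2.1⟩

omit [Fintype V] in
lemma NA.flip {X : V → V → Prop} {u w : V} (h : NA X u w) : NA (fun a b => X b a) u w :=
  ⟨h.1, h.2.2, h.2.1⟩

omit [Fintype V] in
lemma NA.map {X : V → V → Prop} {u w : V} (h : NA X u w) {φ : Equiv.Perm V} (hφ : Inv X φ) :
    NA X (φ u) (φ w) :=
  ⟨fun e => h.1 (φ.injective e), fun e => h.2.1 ((hφ _ _).mp e), fun e => h.2.2 ((hφ _ _).mp e)⟩

lemma mem_ball_step {X : V → V → Prop} {t : ℕ} {v x y : V} (hx : x ∈ ball X t v) (h : X x y) :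
    y ∈ ball X (t + 1) v := by
  rw [ball_succ]; exact mem_nb_of_rel hx h

lemma iter_union (X : V → V → Prop) (F F' : Finset V) (t : ℕ) :
    (nb X)^[t] (F ∪ F') = (nb X)^[t] F ∪ (nb X)^[t] F' := by
  induction t with
  | zero => rfl
  | succ t ih => simp only [Function.iterate_succ_apply', ih, nb_union]

namespace Good

variable {X : V → V → Prop} {k d : ℕ}

lemma indeg (G : Good X k d) (v : V) : (inn X v).card = d := by
  rw [G.vt.card_inn v v, G.deg]

lemma flip (G : Good X k d) : Good (fun a b => X b a) k d :=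
  ⟨G.vt.flip, G.ns.flip, G.indeg, G.conn.flip, G.hn, G.hk, G.hd⟩

lemma irr (G : Good X k d) (x : V) : ¬ X x x := G.ns.irrefl (by have := G.hk; omega) x

lemma asy (G : Good X k d) {x y : V} (h : X x y) : ¬ X y x :=
  G.ns.asymm (by have := G.hk; omega) h

lemma no3 (G : Good X k d) {x y z : V} (h : X x y) (h' : X y z) : ¬ X z x :=
  G.ns 2 (by have := G.hk; omega) x z
    (mem_ball_step (mem_ball_step (mem_ball_self X 0 x) h) h')

lemma no4 (G : Good X k d) (hk : 4 ≤ k) {x y z w : V} (h : X x y) (h' : X y z) (h'' : X z w) :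
    ¬ X w x :=
  G.ns 3 (by omega) x w
    (mem_ball_step (mem_ball_step (mem_ball_step (mem_ball_self X 0 x) h) h') h'')

lemma ne (G : Good X k d) {x y : V} (h : X x y) : x ≠ y := fun e => G.irr x (e ▸ h)

lemma grow (G : Good X k d) (U : Finset V) (hU : 2 ≤ U.card) : ∀ t,
    ((nb X)^[t] U).card + 2 ≤ Fintype.card V → U.card + t * (d + 1) ≤ ((nb X)^[t] U).card := by
  intro t
  induction t with
  | zero => intro _; simp
  | succ t ih =>
    intro h
    rw [Function.iterate_succ_apply'] at h ⊢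
    have h1 := card_le_card (subset_nb X ((nb X)^[t] U))
    have h2 := ih (by omega)
    have h3 := G.conn _ (by omega) h
    rw [add_mul]
    omega

lemma ball_last (G : Good X k d) (v : V) (t : ℕ) (ht : t < k) :
    (ball X t v).card + d ≤ Fintype.card V := by
  have : Disjoint (ball X t v) (inn X v) := by
    rw [disjoint_left]
    exact fun x h1 h2 => G.ns t ht v x h1 (mem_inn.mp h2)
  rw [← G.indeg v, ← card_union_of_disjoint this]
  exact card_le_univ _

lemma card_one (G : Good X k d) (v : V) : (ball X 1 v).card = d + 1 := by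
  rw [ball_succ, ball_zero, card_nb_singleton G.irr, G.deg]

lemma ball_le (G : Good X k d) (v : V) (j : ℕ) (h1 : 1 ≤ j) (hj : j < k) :
    (ball X j v).card ≤ j * (d + 1) := by
  obtain ⟨t, rfl⟩ : ∃ t, k = t + j + 1 := ⟨k - j - 1, by omega⟩
  have e1 := G.ball_last v (t + j) (by omega)
  have e2 := card_le_card (ball_mono X v h1)
  rw [G.card_one] at e2
  have e3 : ball X (t + j) v = (nb X)^[t] (ball X j v) := Function.iterate_add_apply _ _ _ _
  have hd := G.hd
  have e4 := G.grow (ball X j v) (by omega) t (by rw [← e3]; omega)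
  rw [← e3] at e4
  have e5 := G.hn
  have e6 : (t + j + 1) * (d + 1) = t * (d + 1) + j * (d + 1) + (d + 1) := by ring
  omega

lemma card_eq (G : Good X k d) (v : V) : Fintype.card V + 1 = k * (d + 1) := by
  obtain ⟨t, rfl⟩ : ∃ t, k = t + 1 + 1 := ⟨k - 2, by have := G.hk; omega⟩
  have e1 := G.ball_last v (t + 1) (by omega)
  have e3 : ball X (t + 1) v = (nb X)^[t] (ball X 1 v) := Function.iterate_add_apply _ _ _ _
  have hd := G.hd
  have e2 := G.card_one v
  have e4 := G.grow (ball X 1 v) (by omega) t (by rw [← e3]; omega)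
  rw [← e3] at e4
  have e5 := G.hn
  have e6 : (t + 1 + 1) * (d + 1) = t * (d + 1) + (d + 1) + (d + 1) := by ring
  omega

lemma pair_bound (G : Good X k d) (u w : V) (h : 2 ≤ (inn X u ∩ inn X w).card) :
    (nb X {u, w}).card + (inn X u ∩ inn X w).card + 1 ≤ 2 * (d + 1) := by
  obtain ⟨t, rfl⟩ : ∃ t, k = t + 1 + 1 := ⟨k - 2, by have := G.hk; omega⟩
  have e3 : (nb X)^[t] (nb X {u, w}) = ball X (t + 1) u ∪ ball X (t + 1) w := by
    rw [← Function.iterate_succ_apply, insert_eq, iter_union]; rfl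
  have e1 : Disjoint (ball X (t + 1) u ∪ ball X (t + 1) w) (inn X u ∩ inn X w) := by
    rw [disjoint_left]
    intro x h1 h2
    rcases mem_union.mp h1 with h1 | h1
    · exact G.ns _ (by omega) u x h1 (mem_inn.mp (mem_inter.mp h2).1)
    · exact G.ns _ (by omega) w x h1 (mem_inn.mp (mem_inter.mp h2).2)
  have e2 := card_le_univ ((ball X (t + 1) u ∪ ball X (t + 1) w) ∪ (inn X u ∩ inn X w))
  rw [card_union_of_disjoint e1] at e2
  have e0 := card_le_card (nb_mono X (show ({u} : Finset V) ⊆ {u, w} by simp))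
  rw [card_nb_singleton G.irr, G.deg] at e0
  have hd := G.hd
  have e4 := G.grow (nb X {u, w}) (by omega) t (by rw [e3]; omega)
  rw [e3] at e4
  have e5 := G.hn
  have e6 : (t + 1 + 1) * (d + 1) = t * (d + 1) + 2 * (d + 1) := by ring
  omega

lemma card_pair (G : Good X k d) {u w : V} (h : NA X u w) :
    (nb X {u, w}).card + (out X u ∩ out X w).card = 2 * (d + 1) := by
  have e1 : nb X {u} ∩ nb X {w} = out X u ∩ out X w := by
    ext y
    simp only [nb_singleton, mem_inter, mem_insert, mem_out]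
    constructor
    · rintro ⟨rfl | h1, h2 | h2⟩
      · exact absurd h2 h.1
      · exact absurd h2 h.2.2
      · exact absurd (h2 ▸ h1) h.2.1
      · exact ⟨h1, h2⟩
    · exact fun h => ⟨Or.inr h.1, Or.inr h.2⟩
  rw [insert_eq, nb_union, ← e1, card_union_add_card_inter, card_nb_singleton G.irr,
    card_nb_singleton G.irr, G.deg, G.deg]
  ring

lemma out_le (G : Good X k d) {u w : V} (h : NA X u w) : (out X u ∩ out X w).card ≤ 1 := by
  by_contra hc
  have e1 : (nb (fun a b => X b a) {u, w}).card + (out X u ∩ out X w).card + 1 ≤ 2 * (d + 1) :=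
    G.flip.pair_bound u w (show 2 ≤ (out X u ∩ out X w).card by omega)
  have e2 : (nb (fun a b => X b a) {u, w}).card + (inn X u ∩ inn X w).card = 2 * (d + 1) :=
    G.flip.card_pair h.flip
  have e3 := G.pair_bound u w (by omega)
  have e4 := G.card_pair h
  omega

lemma out_uniq (G : Good X k d) {u w p q : V} (h : NA X u w) (h1 : X u p) (h2 : X w p)
    (h3 : X u q) (h4 : X w q) : p = q :=
  card_le_one.mp (G.out_le h) p (by simp [h1, h2]) q (by simp [h3, h4])

lemma in_uniq (G : Good X k d) {u w p q : V} (h : NA X u w) (h1 : X p u) (h2 : X p w)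
    (h3 : X q u) (h4 : X q w) : p = q :=
  G.flip.out_uniq h.flip h1 h2 h3 h4

lemma notwin (G : Good X k d) {u w : V} (h : X u w) : ∃ z, X u z ∧ z ≠ w ∧ ¬ X w z := by
  by_contra hc
  push Not at hc
  have e1 : nb X {u, w} ⊆ insert u (nb X {w}) := by
    intro y hy
    rw [insert_eq, nb_union, nb_singleton, nb_singleton] at hy
    rw [nb_singleton]
    simp only [mem_union, mem_insert, mem_out] at hy ⊢
    rcases hy with (h1 | h1) | h1
    · exact Or.inl h1
    · by_cases h2 : y = w
      · exact Or.inr (Or.inl h2)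
      · exact Or.inr (Or.inr (hc y h1 h2))
    · exact Or.inr h1
  have e2 := (card_le_card e1).trans (card_insert_le _ _)
  rw [card_nb_singleton G.irr, G.deg] at e2
  have e3 := card_ge G.vt G.ns u
  rw [G.deg] at e3
  have e4 : 3 * d ≤ k * d := Nat.mul_le_mul_right d G.hk
  have hd := G.hd
  have e5 := G.conn {u, w} (by rw [Finset.card_pair (G.ne h)]) (by omega)
  rw [Finset.card_pair (G.ne h)] at e5
  omega

lemma exists_na (G : Good X k d) (u : V) : ∃ x x', X u x ∧ X u x' ∧ NA X x x' := by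
  by_contra hc
  push Not at hc
  have hne : (out X u).Nonempty := card_pos.mp (by rw [G.deg]; have := G.hd; omega)
  obtain ⟨w, hw, hmax⟩ := exists_max_image (out X u) (fun w => (out X u ∩ out X w).card) hne
  have hw' := mem_out.mp hw
  obtain ⟨z, h1, h2, h3⟩ := G.notwin hw'
  have h4 : X z w := by
    by_contra h4
    exact hc z w h1 hw' ⟨h2, h4, h3⟩
  have e1 : insert w (out X u ∩ out X w) ⊆ out X u ∩ out X z := by
    intro y hy
    rcases mem_insert.mp hy with rfl | hy
    · simp [hw', h4]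
    · simp only [mem_inter, mem_out] at hy ⊢
      refine ⟨hy.1, ?_⟩
      by_contra h5
      exact hc z y h1 hy.1 ⟨fun e => h3 (e ▸ hy.2), h5, G.no3 h4 hy.2⟩
  have e2 := card_le_card e1
  rw [card_insert_of_notMem (by simp [G.irr])] at e2
  have := hmax z (mem_out.mpr h1)
  omega

lemma dom (G : Good X k d) {u x x' : V} (h1 : X u x) (h2 : X u x') (h : NA X x x') :
    nb X {x, x'} = (ball X 2 u).erase u ∧ ∃ b, X x b ∧ X x' b := by
  have e1 : nb X {x, x'} ⊆ (ball X 2 u).erase u := by
    intro y hy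
    have a1 := mem_ball_step (mem_ball_self X 0 u) h1
    have a2 := mem_ball_step (mem_ball_self X 0 u) h2
    rcases mem_nb.mp hy with h3 | ⟨z, hz, h3⟩
    · rcases mem_insert.mp h3 with rfl | h3
      · exact mem_erase.mpr ⟨(G.ne h1).symm, ball_mono X u (by omega) a1⟩
      · rw [mem_singleton.mp h3]
        exact mem_erase.mpr ⟨(G.ne h2).symm, ball_mono X u (by omega) a2⟩
    · rcases mem_insert.mp hz with rfl | hz
      · exact mem_erase.mpr ⟨fun e => G.asy h1 (e ▸ h3), mem_ball_step a1 h3⟩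
      · rw [mem_singleton.mp hz] at h3
        exact mem_erase.mpr ⟨fun e => G.asy h2 (e ▸ h3), mem_ball_step a2 h3⟩
  have e2 := G.ball_le u 2 (by omega) (by have := G.hk; omega)
  have e3 := card_erase_of_mem (mem_ball_self X 2 u)
  have e4 := G.card_pair h
  have e5 := G.out_le h
  have e6 := card_le_card e1
  refine ⟨eq_of_subset_of_card_le e1 (by omega), ?_⟩
  obtain ⟨b, hb⟩ : (out X x ∩ out X x').Nonempty := card_pos.mp (by omega)
  exact ⟨b, by simpa using hb⟩

lemma dom1 (G : Good X k d) {u x x' y : V} (h1 : X u x) (h2 : X u x') (h : NA X x x')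
    (hy : X u y) : y = x ∨ y = x' ∨ X x y ∨ X x' y := by
  have : y ∈ nb X {x, x'} := by
    rw [(G.dom h1 h2 h).1]
    exact mem_erase.mpr ⟨(G.ne hy).symm,
      ball_mono X u (by omega) (mem_ball_step (mem_ball_self X 0 u) hy)⟩
  simpa [mem_nb, or_assoc] using this

lemma dom2 (G : Good X k d) {u x x' y z : V} (h1 : X u x) (h2 : X u x') (h : NA X x x')
    (hy : X u y) (hz : X y z) : z = x ∨ z = x' ∨ X x z ∨ X x' z := by
  have : z ∈ nb X {x, x'} := by
    rw [(G.dom h1 h2 h).1]
    exact mem_erase.mpr ⟨fun e => G.asy hy (e ▸ hz),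
      mem_ball_step (mem_ball_step (mem_ball_self X 0 u) hy) hz⟩
  simpa [mem_nb, or_assoc] using this

end Good

end Pool.Agent.P.MP_81f9fb_co
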