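import Pool.Agent.P.MP_81f9fb_co.Eq3

set_option autoImplicit false

namespace Pool.Agent.P.MP_81f9fb_co

open Finset Classical

variable {V : Type} [Fintype V]

/-- the shape of an out-neighbourhood -/
def Src (X : V → V → Prop) (u x x' : V) : Prop :=
  X u x ∧ X u x' ∧ NA X x x' ∧ ∀ z, X u z → z ≠ x → z ≠ x' → X x z ∧ X z x'

omit [Fintype V] in
lemma Src.map {X : V → V → Prop} {u x x' : V} (h : Src X u x x') {φ : Equiv.Perm V}
    (hφ : Inv X φ) : Src X (φ u) (φ x) (φ x') := by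
  refine ⟨(hφ _ _).mpr h.1, (hφ _ _).mpr h.2.1, h.2.2.1.map hφ, fun z h1 h2 h3 => ?_⟩
  obtain ⟨z, rfl⟩ := φ.surjective z
  have := h.2.2.2 z ((hφ _ _).mp h1) (fun e => h2 (by rw [e])) (fun e => h3 (by rw [e]))
  exact ⟨(hφ _ _).mpr this.1, (hφ _ _).mpr this.2⟩

namespace Good

variable {X : V → V → Prop} {k d : ℕ}

lemma adj (G : Good X k d) {u x x' z : V} (h1 : X u x) (h2 : X u x') (h : NA X x x')
    (hz : X u z) (n1 : z ≠ x) (n2 : z ≠ x') : X x z ∨ X z x := by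
  by_contra hc
  push Not at hc
  have a1 : X x' z := by
    rcases G.dom1 h1 h2 h hz with e | e | e | e
    · exact absurd e n1
    · exact absurd e n2
    · exact absurd e hc.1
    · exact e
  rcases G.dom1 h1 hz ⟨n1.symm, hc.1, hc.2⟩ h2 with e | e | e | e
  · exact h.1 e.symm
  · exact n2 e.symm
  · exact h.2.1 e
  · exact G.asy a1 e

lemma cls (G : Good X k d) {u x x' z : V} (h1 : X u x) (h2 : X u x') (h : NA X x x')
    (hz : X u z) (n1 : z ≠ x) (n2 : z ≠ x') (hn : ¬ X x z) : X z x ∧ X x' z := by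
  refine ⟨(G.adj h1 h2 h hz n1 n2).resolve_left hn, ?_⟩
  rcases G.dom1 h1 h2 h hz with e | e | e | e
  · exact absurd e n1
  · exact absurd e n2
  · exact absurd e hn
  · exact e

lemma orient (G : Good X k d) {u x x' : V} (h1 : X u x) (h2 : X u x') (h : NA X x x') :
    (∀ z, X u z → z ≠ x → z ≠ x' → X x z) ∨ (∀ z, X u z → z ≠ x' → z ≠ x → X x' z) := by
  by_contra hc
  push Not at hc
  obtain ⟨⟨q, q1, q2, q3, q4⟩, p, p1, p2, p3, p4⟩ := hc
  obtain ⟨q5, q6⟩ := G.cls h1 h2 h q1 q2 q3 q4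
  obtain ⟨p5, p6⟩ := G.cls h2 h1 h.symm p1 p2 p3 p4
  have hpq : NA X p q := ⟨fun e => q4 (e ▸ p6), fun e => G.no3 p6 e q5, fun e => G.no3 q6 e p5⟩
  set R := out X u \ {x, x', p, q} with hR
  have mR : ∀ z, z ∈ R ↔ X u z ∧ z ≠ x ∧ z ≠ x' ∧ z ≠ p ∧ z ≠ q := by
    intro z; simp [hR]
  have cR : R.card + 4 = d := by
    have e1 : ({x, x', p, q} : Finset V) ⊆ out X u := by
      intro z hz
      simp only [mem_insert, mem_singleton] at hz
      rcases hz with rfl | rfl | rfl | rfl <;> simpa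
    have e2 := card_sdiff_add_card_eq_card e1
    rw [G.deg, card_insert_of_notMem (by simp [h.1, p3.symm, q2.symm]),
      card_insert_of_notMem (by simp [p2.symm, q3.symm]), Finset.card_pair hpq.1] at e2
    exact e2
  have hRz : ∀ z ∈ R, X x z ∧ X x' z ∧ X p z ∧ X q z := by
    intro z hz
    obtain ⟨z1, z2, z3, z4, z5⟩ := (mR z).mp hz
    have a1 := G.adj p1 q1 hpq z1 z4 z5
    have a2 := G.adj q1 p1 hpq.symm z1 z5 z4
    have b1 : X x z := by
      by_contra hn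
      obtain ⟨c1, c2⟩ := G.cls h1 h2 h z1 z2 z3 hn
      rcases a1 with e | e
      · exact G.no3 p6 e c1
      · exact G.no3 c2 e p5
    have b2 : X x' z := by
      by_contra hn
      obtain ⟨c1, c2⟩ := G.cls h2 h1 h.symm z1 z3 z2 hn
      rcases a2 with e | e
      · exact G.no3 q6 e c1
      · exact G.no3 c2 e q5
    exact ⟨b1, b2, a1.resolve_right fun e => G.no3 b2 e p5,
      a2.resolve_right fun e => G.no3 b1 e q5⟩
  have C0 : ∀ w, X u w → (out X u ∩ out X w).card + 3 ≤ d := by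
    have aux : ∀ w t, (∀ z, X u z → X w z → z = t ∨ z ∈ R) →
        (out X u ∩ out X w).card + 3 ≤ d := by
      intro w t hw
      have e1 : out X u ∩ out X w ⊆ insert t R := by
        intro z hz
        simp only [mem_inter, mem_out] at hz
        exact mem_insert.mpr (hw z hz.1 hz.2)
      have := (card_le_card e1).trans (card_insert_le _ _)
      omega
    intro w hw
    by_cases w1 : w = x
    · subst w1
      refine aux w p fun z z1 z2 => or_iff_not_imp_left.mpr fun z3 => (mR z).mpr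
        ⟨z1, (G.ne z2).symm, fun e => h.2.1 (e ▸ z2), z3, fun e => q4 (e ▸ z2)⟩
    by_cases w2 : w = x'
    · subst w2
      refine aux w q fun z z1 z2 => or_iff_not_imp_left.mpr fun z3 => (mR z).mpr
        ⟨z1, fun e => h.2.2 (e ▸ z2), (G.ne z2).symm, fun e => p4 (e ▸ z2), z3⟩
    by_cases w3 : w = p
    · subst w3
      refine aux w x' fun z z1 z2 => or_iff_not_imp_left.mpr fun z3 => (mR z).mpr
        ⟨z1, fun e => G.asy p6 (e ▸ z2), z3, (G.ne z2).symm, fun e => hpq.2.1 (e ▸ z2)⟩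
    by_cases w4 : w = q
    · subst w4
      refine aux w x fun z z1 z2 => or_iff_not_imp_left.mpr fun z3 => (mR z).mpr
        ⟨z1, z3, fun e => G.asy q6 (e ▸ z2), fun e => hpq.2.2 (e ▸ z2), (G.ne z2).symm⟩
    obtain ⟨c1, c2, c3, c4⟩ := hRz w ((mR w).mpr ⟨hw, w1, w2, w3, w4⟩)
    refine aux w w fun z z1 z2 => Or.inr ((mR z).mpr
      ⟨z1, fun e => G.asy c1 (e ▸ z2), fun e => G.asy c2 (e ▸ z2), fun e => G.asy c3 (e ▸ z2),
        fun e => G.asy c4 (e ▸ z2)⟩)
  have C : ∀ u' w, X u' w → (out X u' ∩ out X w).card + 3 ≤ d := by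
    intro u' w hw
    obtain ⟨φ, hφ, rfl⟩ := G.vt u u'
    obtain ⟨w, rfl⟩ := φ.surjective w
    rw [← card_equiv (s := out X u ∩ out X w) φ fun a => by simp [hφ u a, hφ w a]]
    exact C0 w ((hφ _ _).mp hw)
  have e1 : out X p ⊆ insert x' ((out X x ∩ out X p) ∪ (out X p ∩ out X x')) := by
    intro y hy
    have hy' := mem_out.mp hy
    simp only [mem_insert, mem_union, mem_inter, mem_out]
    rcases G.dom2 h1 h2 h p1 hy' with e | e | e | e
    · exact absurd (e ▸ hy') (G.asy p6)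
    · exact Or.inl e
    · exact Or.inr (Or.inl ⟨e, hy'⟩)
    · exact Or.inr (Or.inr ⟨hy', e⟩)
  have e2 := (card_le_card e1).trans (card_insert_le _ _)
  have e3 := card_union_add_card_inter (out X x ∩ out X p) (out X p ∩ out X x')
  have e4 : R ⊆ (out X x ∩ out X p) ∩ (out X p ∩ out X x') := by
    intro z hz
    obtain ⟨c1, c2, c3, -⟩ := hRz z hz
    simp [c1, c2, c3]
  have e5 := card_le_card e4
  have e6 := C x p p6
  have e7 := C p x' p5
  rw [G.deg] at e2
  omega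

lemma sinkR (G : Good X k d) {u x x' r z : V} (h1 : X u x) (h2 : X u x') (h : NA X x x')
    (ho : ∀ z, X u z → z ≠ x → z ≠ x' → X x z) (r2 : X x r) (r3 : X x' r)
    (z1 : X u z) : ¬ X r z := by
  intro z2
  have n1 : z ≠ x := fun e => G.asy r2 (e ▸ z2)
  have n2 : z ≠ x' := fun e => G.asy r3 (e ▸ z2)
  rcases G.adj h2 h1 h.symm z1 n2 n1 with e | e
  · exact G.ne z2 (G.out_uniq h r2 r3 (ho z z1 n1 n2) e)
  · exact G.no3 r3 z2 e

lemma factR (G : Good X k d) {u x x' r y : V} (h1 : X u x) (h2 : X u x') (h : NA X x x')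
    (ho : ∀ z, X u z → z ≠ x → z ≠ x' → X x z) (r1 : X u r) (r2 : X x r) (r3 : X x' r)
    (y1 : X x y) (y2 : ¬ X u y) : X r y := by
  by_contra hc
  obtain ⟨w, w1, w2, w3⟩ := G.notwin r3
  have e1 : ((out X u).erase x).erase x' ⊆ out X x ∩ out X u := by
    intro z hz
    simp only [mem_erase, mem_out, mem_inter] at hz ⊢
    exact ⟨ho z hz.2.2 hz.2.1 hz.1, hz.2.2⟩
  have e2 := card_le_card e1
  rw [card_erase_of_mem (by simp [h2, h.1.symm]), card_erase_of_mem (by simp [h1]), G.deg] at e2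
  have e3 := card_sdiff_add_card_inter (out X x) (out X u)
  have e4 : out X r ⊆ (out X x \ out X u).erase y ∪ ((out X x').erase r).erase w := by
    intro z hz
    have hz' := mem_out.mp hz
    have hzu : ¬ X u z := fun e => G.sinkR h1 h2 h ho r2 r3 e hz'
    simp only [mem_union, mem_erase, mem_sdiff, mem_out]
    rcases G.dom2 h1 h2 h r1 hz' with e | e | e | e
    · exact absurd (e ▸ h1) hzu
    · exact absurd (e ▸ h2) hzu
    · exact Or.inl ⟨fun e' => hc (e' ▸ hz'), e, hzu⟩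
    · exact Or.inr ⟨fun e' => w3 (e' ▸ hz'), (G.ne hz').symm, e⟩
  have e5 := (card_le_card e4).trans (card_union_le _ _)
  rw [card_erase_of_mem (by simp [y1, y2]), card_erase_of_mem (by simp [w1, w2]),
    card_erase_of_mem (by simp [r3]), G.deg, G.deg] at e5
  rw [G.deg] at e3
  have := G.hd
  omega

lemma noR (G : Good X k d) {u0 x0 x0' r0 : V} (g1 : X u0 x0) (g2 : X u0 x0') (g : NA X x0 x0')
    (g3 : X u0 r0) (g4 : X x0 r0) (g5 : X x0' r0) : False := by
  have all : ∀ u, ∃ x x' r, X u x ∧ X u x' ∧ NA X x x' ∧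
      (∀ z, X u z → z ≠ x → z ≠ x' → X x z) ∧ X u r ∧ X x r ∧ X x' r := by
    intro u
    obtain ⟨φ, hφ, rfl⟩ := G.vt u0 u
    have a1 := (hφ _ _).mpr g1
    have a2 := (hφ _ _).mpr g2
    have a3 := (hφ _ _).mpr g3
    have a4 := (hφ _ _).mpr g4
    have a5 := (hφ _ _).mpr g5
    rcases G.orient a1 a2 (g.map hφ) with e | e
    · exact ⟨_, _, _, a1, a2, g.map hφ, e, a3, a4, a5⟩
    · exact ⟨_, _, _, a2, a1, (g.map hφ).symm, e, a3, a5, a4⟩
  obtain ⟨x, x', r, h1, h2, h, ho, r1, r2, r3⟩ := all u0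
  obtain ⟨p, a, s, p1, a1, hpa, hp, s1, s2, s3⟩ := all x
  have A : ∀ z, X x z → z ≠ r → X u0 z → X z r := by
    intro z z1 z2 z3
    by_contra hc
    exact G.ne h1 (G.in_uniq ⟨z2, hc, G.sinkR h1 h2 h ho r2 r3 z3⟩ z3 r1 z1 r2)
  have B : ∀ z, X x z → ¬ X u0 z → X r z := fun z z1 z2 => G.factR h1 h2 h ho r1 r2 r3 z1 z2
  have AB : ∀ z, X x z → z ≠ r → X z r ∨ X r z := fun z z1 z2 =>
    (Classical.em (X u0 z)).imp (A z z1 z2) (B z z1)
  have n1 : r ≠ p := by
    rintro rfl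
    rcases AB a a1 hpa.1.symm with e | e
    · exact hpa.2.2 e
    · exact hpa.2.1 e
  have n2 : r ≠ a := by
    rintro rfl
    rcases AB p p1 hpa.1 with e | e
    · exact hpa.2.1 e
    · exact hpa.2.2 e
  have b1 : X u0 p := by
    by_contra hc
    exact G.asy (hp r r2 n1 n2) (B p p1 hc)
  have b2 : X p x' := by
    rcases G.adj h2 h1 h.symm b1 (fun e => h.2.1 (e ▸ p1)) (G.ne p1).symm with e | e
    · exact absurd (G.out_uniq h r2 r3 p1 e) n1
    · exact e
  have b3 : X s x' := G.factR p1 a1 hpa hp s1 s2 s3 b2 h.2.1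
  have n3 : s ≠ r := fun e => G.asy r3 (e ▸ b3)
  by_cases c1 : X u0 s
  · by_cases c2 : X u0 a
    · exact G.ne h1 (G.in_uniq hpa b1 c2 p1 a1)
    · exact G.no3 s3 (A s s1 n3 c1) (B a a1 c2)
  · exact G.no3 r3 (B s s1 c1) b3

lemma exists_src (G : Good X k d) (u : V) : ∃ x x', Src X u x x' := by
  have aux : ∀ x x', X u x → X u x' → NA X x x' → (∀ z, X u z → z ≠ x → z ≠ x' → X x z) →
      Src X u x x' := fun x x' h1 h2 h ho =>
    ⟨h1, h2, h, fun z z1 z2 z3 => ⟨ho z z1 z2 z3,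
      (G.adj h2 h1 h.symm z1 z3 z2).resolve_left fun e => G.noR h1 h2 h z1 (ho z z1 z2 z3) e⟩⟩
  obtain ⟨x, x', h1, h2, h⟩ := G.exists_na u
  rcases G.orient h1 h2 h with e | e
  · exact ⟨x, x', aux x x' h1 h2 h e⟩
  · exact ⟨x', x, aux x' x h2 h1 h.symm e⟩

lemma src_uniq (G : Good X k d) (hd : 3 ≤ d) {u x x' y y' : V} (h : Src X u x x')
    (g : Src X u y y') : x = y ∧ x' = y' := by
  obtain ⟨h1, h2, h3, h4⟩ := h
  obtain ⟨g1, g2, g3, g4⟩ := g
  by_cases c1 : y = x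
  · subst c1
    refine ⟨rfl, ?_⟩
    by_contra hc
    exact g3.2.1 (h4 y' g2 g3.1.symm (Ne.symm hc)).1
  exfalso
  by_cases c2 : y = x'
  · subst c2
    have c3 : y' = x := by
      by_contra hc
      exact g3.2.2 (h4 y' g2 hc g3.1.symm).2
    subst c3
    have : 0 < (((out X u).erase y').erase y).card := by
      rw [card_erase_of_mem (by simp [h2, c1]), card_erase_of_mem (by simp [h1]), G.deg]
      omega
    obtain ⟨z, hz⟩ := card_pos.mp this
    simp only [mem_erase, mem_out] at hz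
    exact G.asy (h4 z hz.2.2 hz.2.1 hz.1).1 (g4 z hz.2.2 hz.1 hz.2.1).2
  obtain ⟨a1, a2⟩ := h4 y g1 c1 c2
  have a3 := (h4 y' g2 (fun e => g3.2.2 (e ▸ a1)) (fun e => g3.2.1 (e ▸ a2))).1
  exact G.ne h1 (G.in_uniq g3 g1 g2 a1 a3)

end Good

end Pool.Agent.P.MP_81f9fb_co
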