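import Pool.Agent.P.MP_81f9fb_co.Eq4
import Pool.Agent.P.MP_81f9fb_co.Defs2

set_option autoImplicit false

namespace Pool.Agent.P.MP_81f9fb_co

open Finset Classical

variable {V : Type} [Fintype V]

lemma perm_of_equiv {X : V → V → Prop} (hVT : VT X) (P : V → V → Prop)
    (hP : ∀ φ : Equiv.Perm V, Inv X φ → ∀ u x, P u x → P (φ u) (φ x))
    (hex : ∀ u, ∃ x, P u x) (hun : ∀ u x y, P u x → P u y → x = y) :
    ∃ σ : Equiv.Perm V, ∀ u, P u (σ u) := by
  choose f hf using hex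
  have hs : Function.Surjective f := by
    intro y
    obtain ⟨φ, hφ, h⟩ := hVT (f y) y
    exact ⟨φ y, hun _ _ _ (hf _) (by have := hP φ hφ _ _ (hf y); rwa [h] at this)⟩
  exact ⟨Equiv.ofBijective f (Finite.surjective_iff_bijective.mp hs), hf⟩

lemma period_card (σ : Equiv.Perm V) (v : V) (hall : ∀ y, ∃ i : ℕ, σ^[i] v = y) :
    Function.minimalPeriod σ v = Fintype.card V := by
  have hpos : 0 < Function.minimalPeriod σ v :=
    Function.minimalPeriod_pos_of_mem_periodicPts (σ.injective.mem_periodicPts v)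
  rw [← card_univ, ← card_range (Function.minimalPeriod σ v)]
  refine card_bij (fun i _ => σ^[i] v) (fun _ _ => mem_univ _) ?_ ?_
  · intro i hi j hj h
    exact Function.iterate_injOn_Iio_minimalPeriod (mem_range.mp hi) (mem_range.mp hj) h
  · intro y _
    obtain ⟨i, hi⟩ := hall y
    exact ⟨i % Function.minimalPeriod σ v, mem_range.mpr (Nat.mod_lt _ hpos), by
      rw [Function.iterate_mod_minimalPeriod_eq, hi]⟩

lemma iso_of_orbit {X : V → V → Prop} (σ : Equiv.Perm V) (v : V)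
    (hall : ∀ y, ∃ i : ℕ, σ^[i] v = y) (S : ℕ → Prop)
    (hS : ∀ u z, X u z ↔ ∃ s, S s ∧ z = σ^[s] u) (N : ℕ) (hN : Fintype.card V = N) :
    Nonempty (X ≃r fun x y : ZMod N => ∃ s : ℕ, S s ∧ y = x + (s : ZMod N)) := by
  have hp : Function.minimalPeriod σ v = N := (period_card σ v hall).trans hN
  have hNpos : 0 < N := hN ▸ Fintype.card_pos_iff.mpr ⟨v⟩
  have : NeZero N := ⟨hNpos.ne'⟩
  let c : ZMod N → V := fun i => σ^[i.val] v
  have hc1 : ∀ m : ℕ, c (m : ZMod N) = σ^[m] v := by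
    intro m
    simp only [c, ZMod.val_natCast]
    rw [← hp]
    exact Function.iterate_mod_minimalPeriod_eq
  have hcs : ∀ (i : ZMod N) (s : ℕ), c (i + s) = σ^[s] (c i) := by
    intro i s
    have := hc1 (s + i.val)
    rw [Function.iterate_add_apply] at this
    simpa [add_comm] using this
  have hinj : Function.Injective c := by
    intro i j h
    apply ZMod.val_injective
    exact Function.iterate_injOn_Iio_minimalPeriod (hp ▸ ZMod.val_lt i) (hp ▸ ZMod.val_lt j) h
  have hsurj : Function.Surjective c := by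
    intro y
    obtain ⟨i, hi⟩ := hall y
    exact ⟨i, by rw [hc1, hi]⟩
  refine ⟨RelIso.symm ⟨Equiv.ofBijective c ⟨hinj, hsurj⟩, ?_⟩⟩
  intro i j
  show X (c i) (c j) ↔ _
  rw [hS]
  exact exists_congr fun s => and_congr_right fun _ => by rw [← hcs, hinj.eq_iff]

lemma seg {Y : V → V → Prop} (σ : Equiv.Perm V) (e : ℕ) (hirr : ∀ x, ¬ Y x x)
    (hσ : ∀ x z, Y x z → z = σ x ∨ Y (σ x) z) (horb : ∀ x z, Y x z → ∃ i, σ^[i] x = z)
    (hin : ∀ z, (inn Y z).card = e) (x z : V) : Y x z ↔ ∃ s, 1 ≤ s ∧ s ≤ e ∧ z = σ^[s] x := by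
  set N := Function.minimalPeriod σ.symm z with hN
  have hNpos : 0 < N := Function.minimalPeriod_pos_of_mem_periodicPts
    (σ.symm.injective.mem_periodicPts z)
  have l1 : ∀ s y, σ.symm^[s] (σ^[s] y) = y := fun s => Function.LeftInverse.iterate σ.symm_apply_apply s
  have l2 : ∀ s y, σ^[s] (σ.symm^[s] y) = y := fun s => Function.LeftInverse.iterate σ.apply_symm_apply s
  have hinj : ∀ s t, s < N → t < N → σ.symm^[s] z = σ.symm^[t] z → s = t :=
    fun s t hs ht h => Function.iterate_injOn_Iio_minimalPeriod hs ht h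
  have hmod : ∀ y, Y y z → ∃ s, s < N ∧ σ.symm^[s] z = y := by
    intro y hy
    obtain ⟨i, hi⟩ := horb y z hy
    exact ⟨i % N, Nat.mod_lt _ hNpos, by rw [Function.iterate_mod_minimalPeriod_eq, ← hi, l1]⟩
  set T := (range N).filter (fun s : ℕ => Y (σ.symm^[s] z) z) with hT
  have hTc : T.card = e := by
    rw [← hin z]
    refine card_bij (fun s _ => σ.symm^[s] z) (fun s hs => mem_inn.mpr (mem_filter.mp hs).2) ?_ ?_
    · intro s hs t ht h
      exact hinj s t (mem_range.mp (mem_filter.mp hs).1) (mem_range.mp (mem_filter.mp ht).1) h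
    · intro y hy
      obtain ⟨s, h1, h2⟩ := hmod y (mem_inn.mp hy)
      exact ⟨s, mem_filter.mpr ⟨mem_range.mpr h1, by rw [h2]; exact mem_inn.mp hy⟩, h2⟩
  have h0 : ∀ s ∈ T, 1 ≤ s := by
    intro s hs
    by_contra h
    have : s = 0 := by omega
    subst this
    exact hirr _ (mem_filter.mp hs).2
  have hstep : ∀ s, 1 ≤ s → s + 1 ∈ T → s ∈ T := by
    intro s h1 h2
    obtain ⟨h3, h4⟩ := mem_filter.mp h2
    have h5 := mem_range.mp h3
    refine mem_filter.mpr ⟨mem_range.mpr (by omega), ?_⟩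
    have h6 : σ (σ.symm^[s + 1] z) = σ.symm^[s] z := by
      rw [Function.iterate_succ_apply', σ.apply_symm_apply]
    rcases hσ _ _ h4 with h7 | h7
    · rw [h6] at h7
      have := hinj 0 s hNpos (by omega) h7
      omega
    · rwa [h6] at h7
  have hdown : ∀ m t, 1 ≤ t → t + m ∈ T → t ∈ T := by
    intro m
    induction m with
    | zero => intro t _ h; exact h
    | succ m ih => intro t h1 h; exact ih t h1 (hstep (t + m) (by omega) h)
  constructor
  · intro h
    obtain ⟨s, h1, h2⟩ := hmod x h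
    have hsT : s ∈ T := mem_filter.mpr ⟨mem_range.mpr h1, by rw [h2]; exact h⟩
    refine ⟨s, h0 s hsT, ?_, by rw [← h2, l2]⟩
    have : Icc 1 s ⊆ T := fun t ht =>
      hdown (s - t) t (mem_Icc.mp ht).1 (by
        rwa [show t + (s - t) = s by have := (mem_Icc.mp ht).2; omega])
    have := card_le_card this
    rw [Nat.card_Icc] at this
    omega
  · rintro ⟨s, h1, h2, h3⟩
    have hx : x = σ.symm^[s] z := by rw [h3, l1]
    by_contra hc
    have : T ⊆ Ico 1 s := by
      intro t ht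
      refine mem_Ico.mpr ⟨h0 t ht, ?_⟩
      by_contra h'
      exact hc (hx ▸ (mem_filter.mp
        (hdown (t - s) s h1 (by rwa [show s + (t - s) = t by omega]))).2)
    have := card_le_card this
    rw [Nat.card_Ico] at this
    omega

namespace Good

variable {X : V → V → Prop} {k d : ℕ}

lemma orbit_all (G : Good X k d) (σ : Equiv.Perm V) (h1 : ∀ u, σ u ≠ u)
    (h2 : ∀ u z, X u z → ∃ i, σ^[i] u = z) (v y : V) : ∃ i : ℕ, σ^[i] v = y := by
  by_contra hc
  set O := univ.filter (fun y => ∃ i : ℕ, σ^[i] v = y) with hO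
  have e1 : nb X O ⊆ O := by
    intro z hz
    rcases mem_nb.mp hz with h | ⟨x, hx, h⟩
    · exact h
    · obtain ⟨i, rfl⟩ := (mem_filter.mp hx).2
      obtain ⟨j, rfl⟩ := h2 _ _ h
      exact mem_filter.mpr ⟨mem_univ _, j + i, Function.iterate_add_apply _ _ _ _⟩
  have e2 : ({v, σ v} : Finset V) ⊆ O := by
    intro z hz
    rcases mem_insert.mp hz with rfl | hz
    · exact mem_filter.mpr ⟨mem_univ _, 0, rfl⟩
    · exact mem_filter.mpr ⟨mem_univ _, 1, (mem_singleton.mp hz).symm⟩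
  have e3 : ({σ.symm y, y} : Finset V) ⊆ Oᶜ := by
    intro z hz
    rw [mem_compl]
    intro h
    obtain ⟨i, hi⟩ := (mem_filter.mp h).2
    rcases mem_insert.mp hz with rfl | hz
    · exact hc ⟨i + 1, by rw [Function.iterate_succ_apply', hi, σ.apply_symm_apply]⟩
    · exact hc ⟨i, hi.trans (mem_singleton.mp hz)⟩
  have e4 := card_le_card e1
  have e5 := card_le_card e2
  have e6 := card_le_card e3
  rw [Finset.card_pair (h1 v).symm] at e5
  rw [Finset.card_pair fun e => h1 (σ.symm y) (by rw [σ.apply_symm_apply, e])] at e6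
  have e7 := card_add_card_compl O
  have := G.conn O e5 (by omega)
  omega

lemma hole_of_orbit (G : Good X k d) (σ : Equiv.Perm V) (h1 : ∀ u, X u (σ u))
    (hS : ∀ u z, X u z ↔ ∃ s, ((1 ≤ s ∧ s < d) ∨ s = d + 1) ∧ z = σ^[s] u) (v : V) :
    Nonempty (X ≃r hole (k * (d + 1) - 1) d) :=
  iso_of_orbit σ v (G.orbit_all σ (fun u => (G.ne (h1 u)).symm) (fun u z h => by
    obtain ⟨s, -, h⟩ := (hS u z).mp h
    exact ⟨s, h.symm⟩) v) _ hS _ (by have := G.card_eq v; omega)

theorem hole_big (G : Good X k d) (hd : 3 ≤ d) (v : V) :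
    Nonempty (X ≃r hole (k * (d + 1) - 1) d) := by
  obtain ⟨σ, hσ⟩ := perm_of_equiv G.vt (fun u x => ∃ x', Src X u x x')
    (fun φ hφ u x ⟨x', h⟩ => ⟨_, h.map hφ⟩)
    (fun u => by obtain ⟨x, x', h⟩ := G.exists_src u; exact ⟨x, x', h⟩)
    (fun u x y ⟨_, h⟩ ⟨_, g⟩ => (G.src_uniq hd h g).1)
  obtain ⟨τ, hτ⟩ := perm_of_equiv G.vt (fun u x' => ∃ x, Src X u x x')
    (fun φ hφ u x ⟨x', h⟩ => ⟨_, h.map hφ⟩)
    (fun u => by obtain ⟨x, x', h⟩ := G.exists_src u; exact ⟨x', x, h⟩)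
    (fun u x y ⟨_, h⟩ ⟨_, g⟩ => (G.src_uniq hd h g).2)
  have hS : ∀ u, Src X u (σ u) (τ u) := by
    intro u
    obtain ⟨x', h⟩ := hσ u
    obtain ⟨x, g⟩ := hτ u
    rw [← (G.src_uniq hd h g).2]
    exact h
  let Y : V → V → Prop := fun u z => X u z ∧ z ≠ τ u
  have hY : ∀ u z, Y u z → z = σ u ∨ Y (σ u) z := by
    rintro u z ⟨z1, z2⟩
    refine or_iff_not_imp_left.mpr fun z3 => ?_
    obtain ⟨h1, h2, h3, h4⟩ := hS u
    obtain ⟨a1, a2⟩ := h4 z z1 z3 z2
    refine ⟨a1, fun e => ?_⟩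
    obtain ⟨w, w1, w2, w3⟩ := G.notwin a2
    obtain ⟨-, -, g3, g4⟩ := hS (σ u)
    rw [← e] at g3 g4
    rcases G.dom2 h1 h2 h3 z1 w1 with e' | e' | e' | e'
    · exact G.asy a1 (e' ▸ w1)
    · exact w2 e'
    · by_cases c : w = σ (σ u)
      · exact g3.2.2 (c ▸ w1)
      · exact G.asy w1 (g4 w e' c (G.ne w1).symm).2
    · exact w3 e'
  have horb : ∀ u z, Y u z → ∃ i, σ^[i] u = z := by
    intro u z hz
    by_contra hc
    push Not at hc
    have a1 : ∀ i, Y (σ^[i] u) z := by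
      intro i
      induction i with
      | zero => exact hz
      | succ i ih =>
        rw [Function.iterate_succ_apply']
        exact (hY _ _ ih).resolve_left fun e =>
          hc (i + 1) (by rw [Function.iterate_succ_apply', e])
    have a2 : ∀ i, X (σ^[i] u) (σ^[i + 1] u) := fun i => by
      rw [Function.iterate_succ_apply']; exact (hS _).1
    obtain ⟨y, y', b1, b2, b3, b4⟩ := G.flip.exists_src z
    have a3 : ∀ i, σ^[i] u ≠ y := by
      intro i e
      have c1 := a2 i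
      rw [e] at c1
      by_cases c2 : σ^[i + 1] u = y'
      · exact b3.2.2 (c2 ▸ c1)
      · exact G.asy c1 (b4 _ (a1 (i + 1)).1 (G.ne c1).symm c2).1
    have a4 : ∀ i j, ¬ NA X (σ^[i] u) (σ^[j] u) := by
      intro i j h
      by_cases c1 : σ^[i] u = y'
      · exact h.2.1 (c1 ▸ (b4 _ (a1 j).1 (a3 j) (c1 ▸ h.1.symm)).2)
      by_cases c2 : σ^[j] u = y'
      · exact h.2.2 (c2 ▸ (b4 _ (a1 i).1 (a3 i) c1).2)
      exact G.ne b1 (G.out_uniq h (b4 _ (a1 i).1 (a3 i) c1).1 (b4 _ (a1 j).1 (a3 j) c2).1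
        (a1 i).1 (a1 j).1)
    have a5 : ∀ i, X u (σ^[i + 1] u) := by
      intro i
      induction i with
      | zero => exact a2 0
      | succ i ih =>
        by_contra hn
        exact a4 0 (i + 1 + 1) ⟨fun e => G.asy ih (by
          have := a2 (i + 1); rwa [← e] at this), hn, G.no3 ih (a2 (i + 1))⟩
    have hpos : 0 < Function.minimalPeriod σ u :=
      Function.minimalPeriod_pos_of_mem_periodicPts (σ.injective.mem_periodicPts u)
    have := a5 (Function.minimalPeriod σ u - 1)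
    rw [Nat.sub_add_cancel hpos, Function.iterate_minimalPeriod] at this
    exact G.irr u this
  have hin : ∀ z, (inn Y z).card = d - 1 := by
    intro z
    have h1 : X (τ.symm z) z := by have := (hS (τ.symm z)).2.1; rwa [τ.apply_symm_apply] at this
    have : inn Y z = (inn X z).erase (τ.symm z) := by
      ext w
      simp only [mem_inn, mem_erase, Y, ne_eq, Equiv.eq_symm_apply]
      exact ⟨fun h => ⟨fun e => h.2 e.symm, h.1⟩, fun h => ⟨h.2, fun e => h.1 e.symm⟩⟩
    rw [this, card_erase_of_mem (mem_inn.mpr h1), G.indeg]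
  have hseg := seg σ (d - 1) (fun x h => G.irr x h.1) hY horb hin
  have hτσ : ∀ u, τ u = σ^[d + 1] u := by
    intro u
    obtain ⟨h1, h2, h3, h4⟩ := hS u
    have a1 : Y u (σ^[2] u) := (hseg _ _).mpr ⟨2, by omega, by omega, rfl⟩
    have a2 : X (σ u) (σ^[2] u) := (hS (σ u)).1
    have a3 := (h4 _ a1.1 (G.ne a2).symm a1.2).2
    have a4 : Y (σ^[2] u) (τ u) := ⟨a3, fun e => G.asy h1 (by
      have := a2; rwa [← τ.injective e] at this)⟩
    obtain ⟨s, s1, s2, s3⟩ := (hseg _ _).mp a4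
    rw [← Function.iterate_add_apply] at s3
    by_cases c1 : s + 2 ≤ d - 1
    · exact absurd rfl ((hseg _ _).mpr ⟨s + 2, by omega, c1, s3⟩).2
    by_cases c2 : s + 2 = d
    · refine absurd ((hseg (σ u) (τ u)).mpr ⟨s + 1, by omega, by omega, ?_⟩).1 h3.2.1
      rw [s3]; rfl
    rw [s3, show s + 2 = d + 1 by omega]
  refine G.hole_of_orbit σ (fun u => (hS u).1) (fun u z => ⟨fun h => ?_, ?_⟩) v
  · by_cases c : z = τ u
    · exact ⟨d + 1, Or.inr rfl, c.trans (hτσ u)⟩
    · obtain ⟨s, s1, s2, s3⟩ := (hseg u z).mp ⟨h, c⟩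
      exact ⟨s, Or.inl ⟨s1, by omega⟩, s3⟩
  · rintro ⟨s, ⟨s1, s2⟩ | rfl, s3⟩
    · exact ((hseg u z).mpr ⟨s, s1, by omega, s3⟩).1
    · rw [s3, ← hτσ]; exact (hS u).2.1

end Good

end Pool.Agent.P.MP_81f9fb_co
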