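import Pool.Agent.P.MP_81f9fb_co.Eq5

set_option autoImplicit false

namespace Pool.Agent.P.MP_81f9fb_co

open Finset Classical

variable {V : Type} [Fintype V]

lemma perm_of_equiv2 {X : V → V → Prop} (hVT : VT X) (P : V → V → Prop)
    (hP : ∀ φ : Equiv.Perm V, Inv X φ → ∀ u x, P u x → P (φ u) (φ x))
    (hex : ∃ u x, P u x) (hun : ∀ u x y, P u x → P u y → x = y) :
    ∃ σ : Equiv.Perm V, (∀ u, P u (σ u)) ∧ ∀ φ : Equiv.Perm V, Inv X φ → ∀ u, σ (φ u) = φ (σ u) := by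
  obtain ⟨σ, h⟩ := perm_of_equiv hVT P hP (fun w => by
    obtain ⟨u, x, h⟩ := hex
    obtain ⟨φ, hφ, rfl⟩ := hVT u w
    exact ⟨_, hP φ hφ u x h⟩) hun
  exact ⟨σ, h, fun φ hφ u => hun _ _ _ (h _) (hP φ hφ _ _ (h u))⟩

namespace Good

variable {X : V → V → Prop} {k : ℕ}

lemma two_out (G : Good X k 2) {u x x' z : V} (h1 : X u x) (h2 : X u x') (h : x ≠ x')
    (hz : X u z) : z = x ∨ z = x' := by
  have e : ({x, x'} : Finset V) = out X u :=
    eq_of_subset_of_card_le (by intro y; simp only [mem_insert, mem_singleton, mem_out]; rintro (rfl | rfl) <;> assumption)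
      (by rw [G.deg, Finset.card_pair h])
  have : z ∈ ({x, x'} : Finset V) := by rw [e]; exact mem_out.mpr hz
  simpa using this

lemma na2 (G : Good X k 2) {u x x' : V} (h1 : X u x) (h2 : X u x') (h : x ≠ x') : NA X x x' := by
  obtain ⟨y, y', a1, a2, a3⟩ := G.exists_na u
  rcases G.two_out a1 a2 a3.1 h1 with rfl | rfl <;> rcases G.two_out a1 a2 a3.1 h2 with rfl | rfl
  · exact absurd rfl h
  · exact a3
  · exact a3.symm
  · exact absurd rfl h

lemma other (G : Good X k 2) {u x : V} (h : X u x) : ∃ z, X u z ∧ z ≠ x := by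
  obtain ⟨z, h1, h2, -⟩ := G.notwin h
  exact ⟨z, h1, h2⟩

lemma exists_mu (G : Good X k 2) (v : V) : ∃ μ : Equiv.Perm V, (∀ u z, X z (μ u) ↔ X u z) ∧
    ∀ φ : Equiv.Perm V, Inv X φ → ∀ u, μ (φ u) = φ (μ u) := by
  refine perm_of_equiv2 G.vt (fun u b => ∀ z, X z b ↔ X u z) (fun φ hφ u b h z => ?_) ?_ ?_
  · obtain ⟨z, rfl⟩ := φ.surjective z
    rw [hφ, hφ, h]
  · obtain ⟨x, x', a1, a2, a3⟩ := G.exists_na v
    obtain ⟨b, b1, b2⟩ := (G.dom a1 a2 a3).2
    refine ⟨v, b, fun z => ⟨fun h => ?_, fun h => ?_⟩⟩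
    · rcases G.flip.two_out b1 b2 a3.1 h with rfl | rfl <;> assumption
    · rcases G.two_out a1 a2 a3.1 h with rfl | rfl <;> assumption
  · intro u b b' h h'
    obtain ⟨x, x', a1, a2, a3⟩ := G.exists_na u
    exact G.out_uniq a3 ((h _).mpr a1) ((h _).mpr a2) ((h' _).mpr a1) ((h' _).mpr a2)

lemma mem2 (G : Good X k 2) {u x x' y : V} (h1 : X u x) (h2 : X u x') (h : x ≠ x')
    (hy : y ∈ ball X 2 u) : y = u ∨ y = x ∨ y = x' ∨ X x y ∨ X x' y := by
  refine or_iff_not_imp_left.mpr fun hn => ?_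
  have : y ∈ nb X {x, x'} := by
    rw [(G.dom h1 h2 (G.na2 h1 h2 h)).1]
    exact mem_erase.mpr ⟨hn, hy⟩
  simpa [mem_nb, or_assoc] using this

lemma six (G : Good X k 2) (u : V) : 6 ≤ (ball X 2 u).card := by
  have e1 := G.ball_last u 2 (by have := G.hk; omega)
  have e2 := G.card_one u
  have e3 := G.grow (ball X 1 u) (by omega) 1 e1
  have e4 : (nb X)^[1] (ball X 1 u) = ball X 2 u := (ball_succ X 1 u).symm
  rw [e4] at e3
  omega

section
variable {μ : Equiv.Perm V}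

lemma mu_notin (G : Good X k 2) (hμ : ∀ u z, X z (μ u) ↔ X u z) {u x : V} (h1 : X u x) :
    μ x ∉ ball X 2 u := by
  intro hy
  obtain ⟨x', h2, h⟩ := G.other h1
  rcases G.mem2 h1 h2 h.symm hy with e | e | e | e | e
  · exact G.no3 h1 ((hμ u x).mpr h1) (e ▸ (hμ x (μ u)).mpr ((hμ u x).mpr h1))
  · exact G.asy h1 ((hμ x u).mp (e.symm ▸ h1))
  · exact G.asy h1 ((hμ x u).mp (e.symm ▸ h2))
  · exact G.irr x ((hμ x x).mp e)
  · exact (G.na2 h1 h2 h.symm).2.1 ((hμ x x').mp e)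

lemma nomu (G : Good X k 2) (hμ : ∀ u z, X z (μ u) ↔ X u z) {u x a : V} (h1 : X u x)
    (a1 : X x a) : ¬ X a (μ u) :=
  fun e => (G.na2 h1 ((hμ u a).mp e) (G.ne a1)).2.1 a1

lemma third (G : Good X k 2) (hμ : ∀ u z, X z (μ u) ↔ X u z) {u x x' a c z : V} (h1 : X u x)
    (h2 : X u x') (h : x ≠ x') (a1 : X x a) (a2 : a ≠ μ u) (c1 : X x' c) (c2 : c ≠ μ u)
    (z1 : X a z) (hz : z ∈ ball X 2 u) : z = x' ∨ z = c := by
  rcases G.mem2 h1 h2 h hz with e | e | e | e | e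
  · exact absurd (e ▸ z1) (G.no3 h1 a1)
  · exact absurd (e ▸ z1) (G.asy a1)
  · exact Or.inl e
  · rcases G.two_out a1 ((hμ u x).mpr h1) a2 e with e' | e'
    · exact absurd (e' ▸ z1) (G.irr z)
    · exact absurd (e' ▸ z1) (G.nomu hμ h1 a1)
  · rcases G.two_out c1 ((hμ u x').mpr h2) c2 e with e' | e'
    · exact Or.inr e'
    · exact absurd (e' ▸ z1) (G.nomu hμ h1 a1)

lemma cross (G : Good X k 2) (hμ : ∀ u z, X z (μ u) ↔ X u z) {u x x' a : V} (h1 : X u x)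
    (h2 : X u x') (h : x ≠ x') (a1 : X x a) (a2 : a ≠ μ u) : ¬ X a (μ x') :=
  fun e => a2 (G.out_uniq (G.na2 h1 h2 h) a1 ((hμ x' a).mp e) ((hμ u x).mpr h1) ((hμ u x').mpr h2))

lemma tri (G : Good X k 2) (hk : 4 ≤ k) (hμ : ∀ u z, X z (μ u) ↔ X u z) {u x x' a c : V}
    (h1 : X u x) (h2 : X u x') (h : x ≠ x') (a1 : X x a) (a2 : a ≠ μ u) (c1 : X x' c)
    (c2 : c ≠ μ u) : X a x' ∨ X c x ∨ X a c ∨ X c a ∨ ∃ p, X p a ∧ X p c := by
  by_contra hc
  push Not at hc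
  obtain ⟨n1, n2, n3, n4, n5⟩ := hc
  obtain ⟨a', b1, b2⟩ := G.other ((hμ x a).mpr a1)
  obtain ⟨c', d1, d2⟩ := G.other ((hμ x' c).mpr c1)
  have e1 : a' ∉ ball X 2 u := fun e => by
    rcases G.third hμ h1 h2 h a1 a2 c1 c2 b1 e with rfl | rfl
    · exact n1 b1
    · exact n3 b1
  have e2 : c' ∉ ball X 2 u := fun e => by
    rcases G.third hμ h2 h1 h.symm c1 c2 a1 a2 d1 e with rfl | rfl
    · exact n2 d1
    · exact n4 d1
  have e3 : a' ≠ c' := by
    rintro rfl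
    obtain ⟨p, rfl⟩ := μ.surjective a'
    exact n5 p ((hμ _ _).mp b1) ((hμ _ _).mp d1)
  have e4 : a' ≠ μ x' := fun e => G.cross hμ h1 h2 h a1 a2 (e ▸ b1)
  have e5 : c' ≠ μ x := fun e => G.cross hμ h2 h1 h.symm c1 c2 (e ▸ d1)
  have e6 : μ x ≠ μ x' := fun e => h (μ.injective e)
  have s1 := mem_ball_step (mem_ball_step (mem_ball_self X 0 u) h1) a1
  have s2 := mem_ball_step (mem_ball_step (mem_ball_self X 0 u) h2) c1
  have e7 : insert (μ x) (insert (μ x') (insert a' (insert c' (ball X 2 u)))) ⊆ ball X 3 u :=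
    insert_subset (mem_ball_step s1 ((hμ x a).mpr a1)) (insert_subset
      (mem_ball_step s2 ((hμ x' c).mpr c1)) (insert_subset (mem_ball_step s1 b1)
        (insert_subset (mem_ball_step s2 d1) (ball_mono X u (by omega)))))
  have e8 := card_le_card e7
  rw [card_insert_of_notMem (by simp [e6, b2.symm, e5.symm, G.mu_notin hμ h1]),
    card_insert_of_notMem (by simp [e4.symm, d2.symm, G.mu_notin hμ h2]),
    card_insert_of_notMem (by simp [e3, e1]), card_insert_of_notMem e2] at e8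
  have := G.six u
  have := G.ball_le u 3 (by omega) (by omega)
  omega

lemma k3cover (G : Good X 3 2) (u y : V) : y ∈ ball X 2 u ∨ X y u := by
  have e1 : Disjoint (ball X 2 u) (inn X u) := by
    rw [disjoint_left]
    exact fun x h1 h2 => G.ns 2 (by omega) u x h1 (mem_inn.mp h2)
  have e2 : ball X 2 u ∪ inn X u = univ := by
    apply eq_univ_of_card
    have := card_le_univ (ball X 2 u ∪ inn X u)
    rw [card_union_of_disjoint e1, G.indeg] at this ⊢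
    have := G.six u
    have := G.hn
    omega
  have : y ∈ ball X 2 u ∪ inn X u := e2 ▸ mem_univ y
  simpa using this

lemma k3a (G : Good X 3 2) (hμ : ∀ u z, X z (μ u) ↔ X u z) {u x x' a c z : V} (h1 : X u x)
    (h2 : X u x') (h : x ≠ x') (a1 : X x a) (a2 : a ≠ μ u) (c1 : X x' c) (c2 : c ≠ μ u)
    (z1 : X a z) : z = μ x ∨ z = x' ∨ z = c := by
  rcases G.k3cover u z with e | e
  · exact Or.inr (G.third hμ h1 h2 h a1 a2 c1 c2 z1 e)
  · rcases G.flip.two_out ((G.k3cover u _).resolve_left (G.mu_notin hμ h1))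
      ((G.k3cover u _).resolve_left (G.mu_notin hμ h2)) (fun e => h (μ.injective e)) e with e' | e'
    · exact Or.inl e'
    · exact absurd (e' ▸ z1) (G.cross hμ h1 h2 h a1 a2)

lemma k3c (G : Good X 3 2) (hμ : ∀ u z, X z (μ u) ↔ X u z) {u x x' a c : V} (h1 : X u x)
    (h2 : X u x') (h : x ≠ x') (a1 : X x a) (a2 : a ≠ μ u) (c1 : X x' c) (c2 : c ≠ μ u) :
    X a x' ∧ X (μ x) c := by
  have e0 : X (μ a) x := (G.k3cover x _).resolve_left (G.mu_notin hμ a1)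
  have e1 : X a x' := by
    obtain ⟨z, z1, z2⟩ := G.other ((hμ x a).mpr a1)
    rcases G.k3a hμ h1 h2 h a1 a2 c1 c2 z1 with e | e | e
    · exact absurd e z2
    · exact e ▸ z1
    · exfalso
      rcases G.k3a hμ h2 h1 h.symm c1 c2 a1 a2 ((hμ a c).mpr (e ▸ z1)) with e' | e' | e'
      · exact (G.na2 h1 h2 h).2.1 (μ.injective e' ▸ a1)
      · exact G.irr x (e' ▸ e0)
      · exact G.asy a1 (e' ▸ e0)
  refine ⟨e1, ?_⟩
  rcases G.two_out c1 ((hμ u x').mpr h2) c2 ((hμ a x').mpr e1) with e | e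
  · exact e ▸ (hμ a (μ x)).mpr ((hμ x a).mpr a1)
  · exact absurd (μ.injective e ▸ a1) (G.asy h1)

end

theorem hole_eight (G : Good X 3 2) (u : V) : Nonempty (X ≃r hole 8 2) := by
  obtain ⟨μ, hμ, -⟩ := G.exists_mu u
  obtain ⟨x, x', h1, h2, h, -⟩ := G.exists_na u
  obtain ⟨a, a1, a2⟩ := G.other ((hμ u x).mpr h1)
  obtain ⟨c, c1, c2⟩ := G.other ((hμ u x').mpr h2)
  obtain ⟨p1, p2⟩ := G.k3c hμ h1 h2 h a1 a2 c1 c2
  obtain ⟨q1, q2⟩ := G.k3c hμ h2 h1 h.symm c1 c2 a1 a2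
  have y1 : X (μ x) u := (G.k3cover u _).resolve_left (G.mu_notin hμ h1)
  have y2 : X (μ x') u := (G.k3cover u _).resolve_left (G.mu_notin hμ h2)
  have b1 := (hμ u x).mpr h1
  have b2 := (hμ u x').mpr h2
  have b3 := (hμ x a).mpr a1
  have b4 := (hμ x' c).mpr c1
  have b5 := (hμ x _).mpr b1
  have b6 := (hμ x' _).mpr b2
  let f : Fin 8 → V := ![u, x, a, x', μ u, μ x, c, μ x']
  have hs : Function.Surjective f := by
    intro y
    rcases G.k3cover u y with e | e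
    · rcases G.mem2 h1 h2 h e with e | e | e | e | e
      · exact ⟨0, e.symm⟩
      · exact ⟨1, e.symm⟩
      · exact ⟨3, e.symm⟩
      · rcases G.two_out a1 b1 a2 e with e | e
        · exact ⟨2, e.symm⟩
        · exact ⟨4, e.symm⟩
      · rcases G.two_out c1 b2 c2 e with e | e
        · exact ⟨6, e.symm⟩
        · exact ⟨4, e.symm⟩
    · rcases G.flip.two_out y1 y2 (fun e => h (μ.injective e)) e with e | e
      · exact ⟨5, e.symm⟩
      · exact ⟨7, e.symm⟩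
  have hb : Function.Bijective f :=
    (Fintype.bijective_iff_surjective_and_card f).mpr ⟨hs, by
      have := G.card_eq u
      rw [Fintype.card_fin]; omega⟩
  have arc : ∀ i : Fin 8, X (f i) (f (i + 1)) ∧ X (f i) (f (i + 3)) := by
    intro i
    fin_cases i
    · exact ⟨h1, h2⟩
    · exact ⟨a1, b1⟩
    · exact ⟨p1, b3⟩
    · exact ⟨b2, c1⟩
    · exact ⟨b5, b6⟩
    · exact ⟨p2, y1⟩
    · exact ⟨b4, q1⟩
    · exact ⟨y2, q2⟩
  refine ⟨RelIso.symm ⟨(Equiv.ofBijective f hb : ZMod 8 ≃ V), ?_⟩⟩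
  intro (i : Fin 8) (j : Fin 8)
  show X (f i) (f j) ↔ _
  constructor
  · intro e
    rcases G.two_out (arc i).1 (arc i).2 
      (fun e => (by decide : ∀ i : Fin 8, i + 1 ≠ i + 3) i (hb.1 e)) e with e | e
    · exact ⟨1, Or.inl ⟨le_rfl, by omega⟩, hb.1 e⟩
    · exact ⟨3, Or.inr rfl, hb.1 e⟩
  · rintro ⟨s, ⟨s1, s2⟩ | rfl, e⟩
    · obtain rfl : s = 1 := by omega
      exact e ▸ (arc i).1
    · exact e ▸ (arc i).2

end Good

end Pool.Agent.P.MP_81f9fb_co
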