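import Pool.Agent.P.MP_81f9fb_co.Eq6

set_option autoImplicit false

namespace Pool.Agent.P.MP_81f9fb_co

open Finset Classical

variable {V : Type} [Fintype V]

namespace Good

variable {X : V → V → Prop} {k : ℕ}

lemma label (G : Good X k 2) {μ : Equiv.Perm V} (hμ : ∀ u z, X z (μ u) ↔ X u z)
    (hμ2 : ∀ φ : Equiv.Perm V, Inv X φ → ∀ u, μ (φ u) = φ (μ u)) (P : V → V → V → Prop)
    (hP : ∀ φ : Equiv.Perm V, Inv X φ → ∀ u x y, P u x y → P (φ u) (φ x) (φ y))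
    (h0 : ∀ u x y, P u x y → X u x ∧ X u y ∧ x ≠ y) (h1 : ∀ u x y, P u x y → ¬ P u y x)
    (hex : ∃ u x y, P u x y) : ∃ σ τ : Equiv.Perm V, (∀ u, P u (σ u) (τ u)) ∧
      (((∀ u, μ u = τ (σ u)) ∧ ∀ u, μ u = σ (τ u)) ∨
        ((∀ u, μ u = σ (σ u)) ∧ ∀ u, μ u = τ (τ u))) := by
  have hun : ∀ u x y x' y', P u x y → P u x' y' → x = x' ∧ y = y' := by
    intro u x y x' y' p q
    obtain ⟨a1, a2, a3⟩ := h0 _ _ _ p
    obtain ⟨b1, b2, b3⟩ := h0 _ _ _ q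
    rcases G.two_out a1 a2 a3 b1 with rfl | rfl <;> rcases G.two_out a1 a2 a3 b2 with rfl | rfl
    · exact absurd rfl b3
    · exact ⟨rfl, rfl⟩
    · exact absurd q (h1 _ _ _ p)
    · exact absurd rfl b3
  obtain ⟨u0, x0, y0, p0⟩ := hex
  obtain ⟨σ, s1, s2⟩ := perm_of_equiv2 G.vt (fun u x => ∃ y, P u x y)
    (fun φ hφ u x ⟨y, h⟩ => ⟨_, hP φ hφ u x y h⟩) ⟨u0, x0, y0, p0⟩
    (fun u x y ⟨_, h⟩ ⟨_, g⟩ => (hun _ _ _ _ _ h g).1)
  obtain ⟨τ, t1, t2⟩ := perm_of_equiv2 G.vt (fun u y => ∃ x, P u x y)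
    (fun φ hφ u y ⟨x, h⟩ => ⟨_, hP φ hφ u x y h⟩) ⟨u0, y0, x0, p0⟩
    (fun u x y ⟨_, h⟩ ⟨_, g⟩ => (hun _ _ _ _ _ h g).2)
  have hS : ∀ u, P u (σ u) (τ u) := by
    intro u
    obtain ⟨x', h⟩ := s1 u
    obtain ⟨x, g⟩ := t1 u
    rw [← (hun _ _ _ _ _ h g).2]
    exact h
  have two : ∀ u z, X u z → z = σ u ∨ z = τ u := fun u z h =>
    G.two_out (h0 _ _ _ (hS u)).1 (h0 _ _ _ (hS u)).2.1 (h0 _ _ _ (hS u)).2.2 h
  have m2 : ∀ u, μ u = σ (τ u) ∨ μ u = τ (τ u) := fun u =>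
    two _ _ ((hμ u _).mpr (h0 _ _ _ (hS u)).2.1)
  refine ⟨σ, τ, hS, ?_⟩
  rcases two _ _ ((hμ u0 _).mpr (h0 _ _ _ (hS u0)).1) with e | e
  · have a : ∀ u, μ u = σ (σ u) := by
      intro u
      obtain ⟨φ, hφ, rfl⟩ := G.vt u0 u
      rw [hμ2 φ hφ, s2 φ hφ, s2 φ hφ, e]
    exact Or.inr ⟨a, fun u => (m2 u).resolve_left fun e' =>
      (h0 _ _ _ (hS u)).2.2 (σ.injective ((a u).symm.trans e'))⟩
  · have a : ∀ u, μ u = τ (σ u) := by
      intro u
      obtain ⟨φ, hφ, rfl⟩ := G.vt u0 u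
      rw [hμ2 φ hφ, s2 φ hφ, t2 φ hφ, e]
    exact Or.inl ⟨a, fun u => (m2 u).resolve_right fun e' =>
      (h0 _ _ _ (hS u)).2.2 (τ.injective ((a u).symm.trans e'))⟩

lemma case_beta (G : Good X k 2) (hk : 4 ≤ k) {u0 x0 y0 a0 : V} (g1 : X u0 x0) (g2 : X u0 y0)
    (g3 : x0 ≠ y0) (g4 : X x0 a0) (g5 : X a0 y0) : Nonempty (X ≃r hole (k * (2 + 1) - 1) 2) := by
  obtain ⟨μ, hμ, hμ2⟩ := G.exists_mu u0
  obtain ⟨σ, τ, hS, hc⟩ := G.label hμ hμ2
    (fun u x y => (X u x ∧ X u y ∧ x ≠ y) ∧ ∃ a, X x a ∧ X a y)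
    (fun φ hφ u x y ⟨⟨a1, a2, a3⟩, a, a4, a5⟩ => ⟨⟨(hφ _ _).mpr a1, (hφ _ _).mpr a2,
      fun e => a3 (φ.injective e)⟩, φ a, (hφ _ _).mpr a4, (hφ _ _).mpr a5⟩)
    (fun u x y h => h.1) (fun u x y ⟨_, a, a1, a2⟩ ⟨_, c, c1, c2⟩ => G.no4 hk a1 a2 c1 c2)
    ⟨u0, x0, y0, ⟨g1, g2, g3⟩, a0, g4, g5⟩
  have two : ∀ u z, X u z → z = σ u ∨ z = τ u := fun u z h =>
    G.two_out (hS u).1.1 (hS u).1.2.1 (hS u).1.2.2 h
  have n1 : ∀ u, ¬ X (μ u) (τ u) := fun u => G.asy ((hμ u _).mpr (hS u).1.2.1)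
  have n2 : ∀ u, τ u ≠ μ (σ u) := fun u e =>
    G.asy (hS u).1.1 ((hμ _ u).mp (e ▸ (hS u).1.2.1))
  rcases hc with ⟨c1, -⟩ | ⟨c1, c2⟩
  · have h3 : ∀ u, τ u = σ^[2 + 1] u := by
      intro u
      obtain ⟨a, a1, a2⟩ := (hS u).2
      rcases two _ _ a1 with rfl | rfl
      · exact (two _ _ a2).resolve_right fun e => n2 u (e.trans (c1 _).symm)
      · exact absurd a2 (c1 u ▸ n1 u)
    refine G.hole_of_orbit σ (fun u => (hS u).1.1) (fun u z => ⟨fun h => ?_, ?_⟩) u0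
    · rcases two u z h with e | e
      · exact ⟨1, Or.inl ⟨le_rfl, by omega⟩, e⟩
      · exact ⟨2 + 1, Or.inr rfl, e.trans (h3 u)⟩
    · rintro ⟨s, ⟨s1, s2⟩ | rfl, e⟩
      · obtain rfl : s = 1 := by omega
        exact e ▸ (hS u).1.1
      · rw [e, ← h3]; exact (hS u).1.2.1
  · exfalso
    have h3 : ∀ u, τ u = σ (τ (σ u)) := by
      intro u
      obtain ⟨a, a1, a2⟩ := (hS u).2
      rcases two _ _ a1 with rfl | rfl
      · exact absurd a2 (c1 u ▸ n1 u)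
      · exact (two _ _ a2).resolve_right fun e => n2 u (e.trans (c2 _).symm)
    have h4 : σ (σ (σ (σ (τ u0)))) = τ u0 := by
      have e : σ (σ (τ u0)) = τ (σ (σ u0)) := by rw [← c1, c2, ← c1, c2]
      rw [e, ← h3, ← h3]
    refine G.no4 hk (hS (τ u0)).1.1 (hS _).1.1 (hS _).1.1 ?_
    have := (hS (σ (σ (σ (τ u0))))).1.1
    rwa [h4] at this

lemma case_gamma (G : Good X k 2) {u0 x0 y0 a0 c0 : V} (g1 : X u0 x0) (g2 : X u0 y0)
    (g3 : x0 ≠ y0) (g4 : X x0 a0) (g5 : X y0 c0) (g6 : X a0 c0) : False := by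
  obtain ⟨μ, hμ, hμ2⟩ := G.exists_mu u0
  have nm : ∀ u x y a c, X u x → X u y → X x a → X y c → X a c → a ≠ μ u ∧ c ≠ μ u := by
    intro u x y a c a1 a2 a3 a4 a5
    refine ⟨fun e => ?_, fun e => G.nomu hμ a1 a3 (e ▸ a5)⟩
    exact (G.na2 (e ▸ (hμ u y).mpr a2) a4 (G.ne a5)).2.1 a5
  obtain ⟨σ, τ, hS, hc⟩ := G.label hμ hμ2
    (fun u x y => (X u x ∧ X u y ∧ x ≠ y) ∧ ∃ a c, X x a ∧ X y c ∧ X a c)
    (fun φ hφ u x y ⟨⟨a1, a2, a3⟩, a, c, a4, a5, a6⟩ => ⟨⟨(hφ _ _).mpr a1, (hφ _ _).mpr a2,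
      fun e => a3 (φ.injective e)⟩, φ a, φ c, (hφ _ _).mpr a4, (hφ _ _).mpr a5, (hφ _ _).mpr a6⟩)
    (fun u x y h => h.1)
    (fun u x y ⟨⟨a1, a2, _⟩, a, c, a4, a5, a6⟩ ⟨_, a', c', b4, b5, b6⟩ => by
      obtain ⟨n1, n2⟩ := nm _ _ _ _ _ a1 a2 a4 a5 a6
      obtain ⟨n3, n4⟩ := nm _ _ _ _ _ a2 a1 b4 b5 b6
      rw [(G.two_out a4 ((hμ u x).mpr a1) n1 b5).resolve_right n4,
        (G.two_out a5 ((hμ u y).mpr a2) n2 b4).resolve_right n3] at b6
      exact G.asy a6 b6)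
    ⟨u0, x0, y0, ⟨g1, g2, g3⟩, a0, c0, g4, g5, g6⟩
  have two : ∀ u z, X u z → z = σ u ∨ z = τ u := fun u z h =>
    G.two_out (hS u).1.1 (hS u).1.2.1 (hS u).1.2.2 h
  have n2 : ∀ u, ¬ X (τ u) (μ (σ u)) := fun u e =>
    (G.na2 (hS u).1.1 (hS u).1.2.1 (hS u).1.2.2).2.1 ((hμ _ _).mp e)
  rcases hc with ⟨c1, c2⟩ | ⟨c1, c2⟩
  · have h3 : ∀ u, τ (τ u) = σ (σ (σ u)) := by
      intro u
      obtain ⟨a, c, a1, a2, a3⟩ := (hS u).2
      obtain ⟨m1, m2⟩ := nm _ _ _ _ _ (hS u).1.1 (hS u).1.2.1 a1 a2 a3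
      obtain rfl := (two _ _ a1).resolve_right fun e => m1 (e.trans (c1 u).symm)
      obtain rfl := (two _ _ a2).resolve_left fun e => m2 (e.trans (c2 u).symm)
      exact (two _ _ a3).resolve_right fun e => n2 u (by rw [c1, ← e]; exact a2)
    let t : Equiv.Perm V := σ.symm.trans τ
    have ht : ∀ u, t (σ u) = τ u := fun u => by simp [t]
    have t2 : ∀ u, t (t u) = σ u := by
      intro u
      obtain ⟨u, rfl⟩ := σ.surjective u
      obtain ⟨u, rfl⟩ := σ.surjective u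
      rw [ht, ← c1, c2, ht, h3]
    have t3 : ∀ u, t (t (t u)) = τ u := fun u => by
      rw [t2]
      obtain ⟨u, rfl⟩ := σ.surjective u
      rw [ht, ← c2, c1]
    have hall := G.orbit_all t (fun u => by
        obtain ⟨u, rfl⟩ := σ.surjective u
        rw [ht]
        exact (hS u).1.2.2.symm) (fun u z h => by
        rcases two u z h with e | e
        · exact ⟨2, (t2 u).trans e.symm⟩
        · exact ⟨3, (t3 u).trans e.symm⟩) u0
    have hp := Function.iterate_minimalPeriod (f := t) (x := u0)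
    rw [period_card t u0 hall] at hp
    have hstep : ∀ j, X (t^[3 * j + 2] u0) (t^[3 * (j + 1) + 2] u0) := by
      intro j
      rw [show 3 * (j + 1) + 2 = 3 + (3 * j + 2) by ring, Function.iterate_add_apply t 3]
      have := (hS (t^[3 * j + 2] u0)).1.2.1
      rwa [← t3] at this
    have hb : ∀ j, t^[3 * j + 2] u0 ∈ ball X (j + 1) u0 := by
      intro j
      induction j with
      | zero =>
        have := (hS u0).1.1
        rw [← t2] at this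
        exact mem_ball_step (mem_ball_self X 0 u0) this
      | succ j ih => exact mem_ball_step ih (hstep j)
    obtain ⟨j, rfl⟩ : ∃ j, k = j + 2 := ⟨k - 2, by have := G.hk; omega⟩
    have e := hstep j
    rw [show 3 * (j + 1) + 2 = Fintype.card V by have := G.card_eq u0; omega, hp] at e
    exact G.ns (j + 1) (by omega) u0 _ (hb j) e
  · obtain ⟨a, c, a1, a2, a3⟩ := (hS u0).2
    obtain ⟨m1, m2⟩ := nm _ _ _ _ _ (hS u0).1.1 (hS u0).1.2.1 a1 a2 a3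
    obtain rfl := (two _ _ a1).resolve_left fun e => m1 (e.trans (c1 u0).symm)
    obtain rfl := (two _ _ a2).resolve_right fun e => m2 (e.trans (c2 u0).symm)
    rcases two _ _ a3 with e | e
    · exact G.ne (hS u0).1.1 (τ.injective (σ.injective e))
    · exact n2 u0 (by rw [c2, ← e]; exact a2)

lemma case_alpha (G : Good X k 2) (v : V) {μ : Equiv.Perm V} (hμ : ∀ u z, X z (μ u) ↔ X u z)
    (H : ∀ u x y a c, X u x → X u y → x ≠ y → X x a → a ≠ μ u → X y c → c ≠ μ u →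
      ∃ p, X p a ∧ X p c) : False := by
  let E : V → V → Prop := fun y z => y = z ∨ ∃ p, X p y ∧ X p z
  have Es : ∀ y z, E y z → E z y := fun y z h =>
    h.imp Eq.symm fun ⟨p, h1, h2⟩ => ⟨p, h2, h1⟩
  have key : ∀ y, (out E y).card = 3 ∧ ∀ z, E y z → ∀ w, E y w → E z w := by
    intro y
    obtain ⟨u, rfl⟩ := μ.surjective y
    obtain ⟨x, x', h1, h2, h⟩ := G.exists_na u
    have b1 := (hμ u x).mpr h1
    have b2 := (hμ u x').mpr h2
    obtain ⟨a, a1, a2⟩ := G.other b1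
    obtain ⟨c, c1, c2⟩ := G.other b2
    have hac : a ≠ c := fun e => a2 (G.out_uniq h a1 (e ▸ c1) b1 b2)
    have e1 : E (μ u) a := Or.inr ⟨x, b1, a1⟩
    have e2 : E (μ u) c := Or.inr ⟨x', b2, c1⟩
    have e3 : E a c := Or.inr (H u x x' a c h1 h2 h.1 a1 a2 c1 c2)
    have e4 : ∀ z, E (μ u) z → z = μ u ∨ z = a ∨ z = c := by
      rintro z (e | ⟨p, p1, p2⟩)
      · exact Or.inl e.symm
      · rcases G.two_out h1 h2 h.1 ((hμ _ _).mp p1) with rfl | rfl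
        · rcases G.two_out a1 b1 a2 p2 with e | e
          · exact Or.inr (Or.inl e)
          · exact Or.inl e
        · rcases G.two_out c1 b2 c2 p2 with e | e
          · exact Or.inr (Or.inr e)
          · exact Or.inl e
    constructor
    · refine card_eq_three.mpr ⟨μ u, a, c, a2.symm, c2.symm, hac, ?_⟩
      ext z
      simp only [mem_out, mem_insert, mem_singleton]
      refine ⟨e4 z, ?_⟩
      rintro (rfl | rfl | rfl)
      · exact Or.inl rfl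
      · exact e1
      · exact e2
    · intro z hz w hw
      rcases e4 z hz with rfl | rfl | rfl <;> rcases e4 w hw with rfl | rfl | rfl <;>
        first | exact Or.inl rfl | assumption | (apply Es; assumption)
  have e1 : Fintype.card V = ∑ C ∈ univ.image (out E), (univ.filter (fun z => out E z = C)).card := by
    rw [← card_univ]; exact card_eq_sum_card_image _ _
  have e2 : 3 ∣ Fintype.card V := by
    rw [e1]
    refine dvd_sum fun C hC => ?_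
    obtain ⟨y, -, rfl⟩ := mem_image.mp hC
    have : univ.filter (fun z => out E z = out E y) = out E y := by
      ext z
      simp only [mem_filter, mem_univ, true_and]
      constructor
      · intro h
        rw [← h]
        exact mem_out.mpr (Or.inl rfl)
      · intro h
        refine (eq_of_subset_of_card_le (fun w hw => ?_) (by rw [(key _).1, (key _).1])).symm
        exact mem_out.mpr ((key y).2 z (mem_out.mp h) w (mem_out.mp hw))
    rw [this, (key y).1]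
  have := G.card_eq v
  omega

theorem hole_iso {d : ℕ} (G : Good X k d) (v : V) : Nonempty (X ≃r hole (k * (d + 1) - 1) d) := by
  rcases eq_or_lt_of_le G.hd with rfl | hd
  swap
  · exact G.hole_big hd v
  rcases eq_or_lt_of_le G.hk with rfl | hk
  · exact G.hole_eight v
  obtain ⟨μ, hμ, -⟩ := G.exists_mu v
  by_contra hc
  refine G.case_alpha v hμ fun u x y a c h1 h2 h a1 a2 c1 c2 => ?_
  rcases G.tri hk hμ h1 h2 h a1 a2 c1 c2 with e | e | e | e | e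
  · exact absurd (G.case_beta hk h1 h2 h a1 e) hc
  · exact absurd (G.case_beta hk h2 h1 h.symm c1 e) hc
  · exact (G.case_gamma h1 h2 h a1 c1 e).elim
  · exact (G.case_gamma h2 h1 h.symm c1 a1 e).elim
  · exact e

end Good

end Pool.Agent.P.MP_81f9fb_co
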