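import Pool.Agent.P.MP_81f9fb_co.Eq7

set_option autoImplicit false

namespace Pool.Agent.P.MP_81f9fb_co

open Finset Classical

/-- a product of a member of the class with a circular digraph with a hole -/
def Ext (k : ℕ) (V : Type) (X : V → V → Prop) : Prop :=
  ∃ (W : Type) (T : W → W → Prop) (e : ℕ), InL W T ∧ 2 ≤ e ∧
    Nonempty (X ≃r lex T (hole (k * (e + 1) - 1) e))

/-- the reverse of a circular digraph with a hole -/
def holeFlip (n d : ℕ) : (fun a b => hole n d b a) ≃r hole n d where
  toEquiv := Equiv.neg (ZMod n)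
  map_rel_iff' := by
    intro a b
    simp only [hole, Equiv.neg_apply]
    refine exists_congr fun s => and_congr_right fun _ => ?_
    constructor
    · intro h; linear_combination h
    · intro h; linear_combination h

lemma Ext.flip {k : ℕ} {V : Type} {X : V → V → Prop} (h : Ext k V X) :
    Ext k V (fun a b => X b a) := by
  obtain ⟨W, T, e, h1, h2, ⟨φ⟩⟩ := h
  exact ⟨W, _, e, h1.flip, h2, ⟨(isoFlip φ).trans ((lexFlip _ _).trans
    (lexCongr (RelIso.refl _) (holeFlip _ e)))⟩⟩

/-- the product with the one-point digraph -/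
def lexOne {V : Type} (X : V → V → Prop) : X ≃r lex (circ 1 0) X where
  toEquiv := (Equiv.uniqueProd V (ZMod 1)).symm
  map_rel_iff' := by
    intro a b
    simp [lex, circ]

lemma arith5a (k n' h d' e : ℕ) (hk : 3 ≤ k) (hn : n' * h + 1 ≤ k * (d' * h + e + 1))
    (h2 : k * e + 1 ≤ h) (h1 : 1 < h) : n' + 2 ≤ k * (d' + 1) := by
  by_contra hc
  have h3 : k * (d' + 1) ≤ n' + 1 := by omega
  have h4 := Nat.mul_le_mul_right h h3
  obtain ⟨m, rfl⟩ : ∃ m, k = m + 3 := ⟨k - 3, by omega⟩
  have h5 := Nat.mul_le_mul_left (m + 2) h2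
  rcases Nat.eq_zero_or_pos e with rfl | he
  · nlinarith
  · nlinarith [Nat.zero_le (m * e), Nat.zero_le (m * m * e)]

lemma arith6a (k n' h d' e : ℕ) (hn : n' * h + 1 ≤ k * (d' * h + e + 1))
    (h1 : k * d' + 1 ≤ n') : h + 1 ≤ k * (e + 1) := by
  have h4 := Nat.mul_le_mul_right h h1
  nlinarith

theorem eq_ind {k : ℕ} (hk : 3 ≤ k) : ∀ (n : ℕ) (V : Type) [Fintype V] (X : V → V → Prop)
    (v : V), Fintype.card V = n → VT X → NoShort k X →
    Fintype.card V + 1 ≤ k * ((out X v).card + 1) → InL V X ∨ Ext k V X := by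
  intro n
  induction n using Nat.strong_induction_on with
  | _ n ih =>
    have blk : ∀ (V : Type) [Fintype V] (X : V → V → Prop) (v : V), Fintype.card V = n → VT X →
        NoShort k X → Fintype.card V + 1 ≤ k * ((out X v).card + 1) → HasBlock X →
        InL V X ∨ Ext k V X := by
      intro V _ X v hn hVT hX hb ⟨E, hE, hVT2, h1, h2, w, hw⟩
      obtain ⟨k', rfl⟩ : ∃ k', k = k' + 2 := ⟨k - 2, by omega⟩
      have hmod := block_module1 hE hVT2 k' (by omega) hX w (by rw [hVT.card_out w v]; exact hb) hw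
      obtain ⟨Q, M, _, _, X', Y, v1, v2, c1, c2, ⟨e⟩⟩ := decompose hE hVT2 hmod h1 h2
      obtain ⟨q, -⟩ := Fintype.one_lt_card_iff.mp c1
      obtain ⟨m, -⟩ := Fintype.one_lt_card_iff.mp c2
      have s1 : NoShort (k' + 2) X' :=
        hX.hom (fun B => e (B, m)) fun a b h => e.map_rel_iff.mpr (Or.inl h)
      have s2 : NoShort (k' + 2) Y :=
        hX.hom (fun y => e (q, y)) fun a b h => e.map_rel_iff.mpr (Or.inr ⟨rfl, h⟩)
      have hc : Fintype.card V = Fintype.card Q * Fintype.card M := by
        rw [← Fintype.card_prod, Fintype.card_congr e.toEquiv]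
      have hd : (out X v).card = (out X' q).card * Fintype.card M + (out Y m).card := by
        rw [← card_out_lex (s1.irrefl (by omega)), card_out_iso e, hVT.card_out]
      have g1 := card_ge v1 s1 q
      have g2 := card_ge v2 s2 m
      rw [hc, hd] at hb
      have i1 := main_ind hk _ Q X' q rfl v1 s1 (arith5a _ _ _ _ _ hk hb g2 c2)
      rcases ih _ (by rw [← hn, hc]; nlinarith) M Y m rfl v2 s2 (arith6a _ _ _ _ _ hb g1) with
        i2 | ⟨W, T, f, i2, i3, ⟨φ⟩⟩
      · exact Or.inl (InL.congr e.symm (i1.lex i2))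
      · exact Or.inr ⟨_, _, f, i1.lex i2, i3,
          ⟨(e.symm.trans (lexCongr (RelIso.refl _) φ)).trans (lexAssoc _ _ _).symm⟩⟩
    intro V _ X v hn hVT hX hb
    by_cases hsm : Fintype.card V + 2 ≤ k * ((out X v).card + 1)
    · exact Or.inl (main_ind hk _ V X v rfl hVT hX hsm)
    rcases Nat.eq_zero_or_pos (out X v).card with hd | hd
    · have hpos : 0 < Fintype.card V := Fintype.card_pos_iff.mpr ⟨v⟩
      have : NeZero (Fintype.card V) := ⟨hpos.ne'⟩
      refine Or.inl (InL.base (Fintype.card V) 0 hpos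
        ⟨⟨Fintype.equivOfCardEq (ZMod.card _).symm, fun {a b} => iff_of_false ?_ ?_⟩⟩)
      · rintro ⟨s, h1, h2, -⟩; omega
      · intro h
        have : 0 < (out X a).card := card_pos.mpr ⟨b, mem_out.mpr h⟩
        rw [hVT.card_out a v] at this
        omega
    have hio : (out (fun a b => X b a) v).card = (out X v).card := hVT.card_inn v v
    have tw : NearTwin X → InL V X ∨ Ext k V X := fun h =>
      (twin hVT hk hX v hd h).elim (blk V X v hn hVT hX hb) Or.inl
    have fl : HasBlock (fun a b => X b a) → InL V X ∨ Ext k V X := fun h =>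
      (blk V _ v hn hVT.flip hX.flip (by rw [hio]; exact hb) h).imp InL.flip Ext.flip
    rcases eq_or_lt_of_le (show 1 ≤ (out X v).card from hd) with hd1 | hd2
    · obtain ⟨w, hw⟩ := card_pos.mp hd
      have hirr := hX.irrefl (by omega)
      refine tw ⟨v, w, fun h => hirr v (by simpa [← h] using hw), ?_⟩
      have : nb X {v, w} ⊆ insert v (nb X {w}) := by
        obtain ⟨w', hw'⟩ := card_eq_one.mp hd1.symm
        have hww : w = w' := by simpa [hw'] using hw
        intro y hy
        rw [insert_eq, nb_union, nb_singleton, hw', ← hww] at hy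
        rcases mem_union.mp hy with h | h
        · rcases mem_insert.mp h with h | h
          · exact h ▸ mem_insert_self _ _
          · exact mem_insert_of_mem (subset_nb X _ h)
        · exact mem_insert_of_mem h
      refine (card_le_card this).trans ((card_insert_le _ _).trans ?_)
      rw [card_nb_singleton hirr, hVT.card_out w v]
    rcases block_or_twin1 hVT hk hX v hb with ((h | h) | (h | h)) | h
    · exact blk V X v hn hVT hX hb h
    · exact tw h
    · exact fl h
    · rcases twin hVT.flip hk hX.flip v (by rw [hio]; exact hd) h with h | h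
      · exact fl h
      · exact Or.inl h.flip
    · obtain ⟨φ⟩ := Good.hole_iso ⟨hVT, hX, fun u => hVT.card_out u v, h, hb, hk, hd2⟩ v
      exact Or.inr ⟨_, _, _, InL.base 1 0 (by omega) ⟨RelIso.refl _⟩, hd2,
        ⟨φ.trans (lexOne _)⟩⟩

end Pool.Agent.P.MP_81f9fb_co
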