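import Pool.Agent.P.MP_81f9fb_co.Eq8

set_option autoImplicit false

namespace Pool.Agent.P.MP_81f9fb_co

open Finset Classical

/-- two vertices whose closed out-neighbourhoods are nested up to one vertex -/
def NT {V : Type} (X : V → V → Prop) : Prop :=
  ∃ u w t, u ≠ w ∧ ∀ z, (z = u ∨ X u z) → z = t ∨ z = w ∨ X w z

lemma NT.congr {V W : Type} {X : V → V → Prop} {Y : W → W → Prop} (e : X ≃r Y) (h : NT X) :
    NT Y := by
  obtain ⟨u, w, t, h1, h2⟩ := h
  refine ⟨e u, e w, e t, fun h => h1 (e.injective h), fun z hz => ?_⟩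
  obtain ⟨z, rfl⟩ := e.surjective z
  simp only [e.map_rel_iff, e.injective.eq_iff] at hz ⊢
  exact h2 z hz

lemma circ_step (n d : ℕ) (z : ZMod n) (h : circ n d 0 z) : z = 1 ∨ circ n d 1 z := by
  obtain ⟨s, h1, h2, rfl⟩ := h
  rcases eq_or_lt_of_le h1 with rfl | h3
  · left; simp
  · right
    refine ⟨s - 1, by omega, by omega, ?_⟩
    obtain ⟨r, rfl⟩ : ∃ r, s = r + 1 := ⟨s - 1, by omega⟩
    simp [add_comm]

lemma InL.nt {V : Type} {X : V → V → Prop} (h : InL V X) (h2 : ∃ u w : V, u ≠ w) : NT X := by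
  induction h with
  | base n d hd h =>
    obtain ⟨e⟩ := h
    obtain ⟨u, w, huw⟩ := h2
    have : Nontrivial (ZMod n) := ⟨e u, e w, fun h => huw (e.injective h)⟩
    refine NT.congr e.symm ⟨0, 1, 0, zero_ne_one, fun z hz => ?_⟩
    exact hz.imp id (circ_step n d z)
  | @prod V W X Y n d hd _ h ih =>
    obtain ⟨e⟩ := h
    refine NT.congr e.symm ?_
    by_cases hW : ∃ u w : W, u ≠ w
    · obtain ⟨u, w, t, h1, h3⟩ := ih hW
      refine ⟨(0, u), (0, w), (0, t), fun h => h1 (Prod.ext_iff.mp h).2, ?_⟩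
      rintro ⟨a, z⟩ (hz | hz | ⟨hz1, hz2⟩)
      · rw [hz]
        rcases h3 _ (Or.inl rfl) with e | e | e
        · exact Or.inl (Prod.ext rfl e)
        · exact Or.inr (Or.inl (Prod.ext rfl e))
        · exact Or.inr (Or.inr (Or.inr ⟨rfl, e⟩))
      · exact Or.inr (Or.inr (Or.inl hz))
      · rcases h3 z (Or.inr hz2) with e | e | e
        · exact Or.inl (Prod.ext hz1.symm e)
        · exact Or.inr (Or.inl (Prod.ext hz1.symm e))
        · exact Or.inr (Or.inr (Or.inr ⟨hz1, e⟩))
    · push Not at hW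
      obtain ⟨u, w, huw⟩ := h2
      have : Nontrivial (ZMod n) :=
        ⟨(e u).1, (e w).1, fun h => huw (e.injective (Prod.ext h (hW _ _)))⟩
      refine ⟨(0, (e u).2), (1, (e u).2), (0, (e u).2),
        fun h => zero_ne_one (Prod.ext_iff.mp h).1, ?_⟩
      rintro ⟨a, z⟩ (hz | hz | ⟨hz1, -⟩)
      · exact Or.inl hz
      · rcases circ_step n d a hz with e' | e'
        · exact Or.inr (Or.inl (Prod.ext e' (hW _ _)))
        · exact Or.inr (Or.inr (Or.inl e'))
      · exact Or.inl (Prod.ext hz1.symm (hW _ _))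

lemma cast_inj_lt {m a b : ℕ} (ha : a < m) (hb : b < m) (h : (a : ZMod m) = b) : a = b := by
  have := congrArg ZMod.val h
  rwa [ZMod.val_cast_of_lt ha, ZMod.val_cast_of_lt hb] at this

lemma hole_not_nt {m e : ℕ} (he : 2 ≤ e) (hm : 3 * e + 2 ≤ m) : ¬ NT (hole m e) := by
  rintro ⟨u, w, t, h1, h2⟩
  have : NeZero m := ⟨by omega⟩
  obtain ⟨D, hD, rfl⟩ : ∃ D : ℕ, D < m ∧ u = w + D := ⟨(u - w).val, ZMod.val_lt _, by simp⟩
  have hD0 : D ≠ 0 := by rintro rfl; simp at h1
  have bad : ∀ s r : ℕ, (s < e ∨ s = e + 1) → r < m → (r = e ∨ e + 2 ≤ r) →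
      (D + s = r ∨ D + s = r + m) → w + D + (s : ZMod m) = t := by
    intro s r hs hr hr' hc
    have e1 : w + D + (s : ZMod m) = w + (r : ZMod m) := by
      rw [add_assoc, ← Nat.cast_add]
      rcases hc with hc | hc <;> simp [hc]
    have e2 : w + D + (s : ZMod m) = w + D ∨ hole m e (w + D) (w + D + s) := by
      rcases Nat.eq_zero_or_pos s with rfl | hs0
      · left; simp
      · exact Or.inr ⟨s, by omega, rfl⟩
    rcases h2 _ e2 with e3 | e3 | ⟨s', e3, e4⟩
    · exact e3
    · rw [e1] at e3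
      have := cast_inj_lt hr (show 0 < m by omega) (by simpa using e3)
      omega
    · rw [e1] at e4
      have := cast_inj_lt hr (show s' < m by omega) (add_left_cancel e4)
      omega
  have fin : ∀ s s' : ℕ, s < m → s' < m → w + D + (s : ZMod m) = t →
      w + D + (s' : ZMod m) = t → s = s' :=
    fun s s' a b c d => cast_inj_lt a b (add_left_cancel (c.trans d.symm))
  by_cases c1 : D + e + 2 ≤ m
  · have b1 := bad (e + 1) (D + (e + 1)) (by omega) (by omega) (by omega) (by omega)
    by_cases c2 : D = 2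
    · have := fin _ _ (by omega) (by omega) b1
        (bad (e - 2) e (by omega) (by omega) (by omega) (by omega))
      omega
    · have := fin _ _ (by omega) (by omega) b1
        (bad (e - 1) (D + (e - 1)) (by omega) (by omega) (by omega) (by omega))
      omega
  · have b1 := bad 0 D (by omega) (by omega) (by omega) (by omega)
    by_cases c2 : D + 1 = m
    · have := fin _ _ (by omega) (by omega) b1
        (bad (e + 1) e (by omega) (by omega) (by omega) (by omega))
      omega
    · have := fin _ _ (by omega) (by omega) b1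
        (bad 1 (D + 1) (by omega) (by omega) (by omega) (by omega))
      omega

lemma lex_not_nt {W M : Type} [Fintype W] {T : W → W → Prop} {Y : M → M → Prop}
    (hasy : ∀ a b, T a b → ¬ T b a) (hreg : ∀ a b, (out T a).card = (out T b).card)
    (hY : ¬ NT Y) (hY2 : ∀ u, ∃ z, Y u z ∧ z ≠ u) : ¬ NT (lex T Y) := by
  rintro ⟨⟨a, u⟩, ⟨b, w⟩, ⟨c, t⟩, h1, h2⟩
  by_cases hab : a = b
  · subst hab
    refine hY ⟨u, w, t, fun h => h1 (by rw [h]), fun z hz => ?_⟩
    rcases h2 (a, z) (hz.imp (fun h => by rw [h]) fun h => Or.inr ⟨rfl, h⟩) with e | e | e | e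
    · exact Or.inl (Prod.ext_iff.mp e).2
    · exact Or.inr (Or.inl (Prod.ext_iff.mp e).2)
    · exact absurd e (hasy a a e)
    · exact Or.inr (Or.inr e.2)
  obtain ⟨z, z1, z2⟩ := hY2 u
  have key : ∀ s, ((s, u) = (a, u) ∨ lex T Y (a, u) (s, u)) →
      ((s, z) = (a, u) ∨ lex T Y (a, u) (s, z)) → s = b ∨ T b s := by
    intro s p q
    rcases h2 _ p with e | e | e | e
    · rcases h2 _ q with e' | e' | e' | e'
      · exact absurd (Prod.ext_iff.mp (e'.trans e.symm)).2 z2
      · exact Or.inl (Prod.ext_iff.mp e').1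
      · exact Or.inr e'
      · exact Or.inl e'.1.symm
    · exact Or.inl (Prod.ext_iff.mp e).1
    · exact Or.inr e
    · exact Or.inl e.1.symm
  have hba : T b a := (key a (Or.inl rfl) (Or.inr (Or.inr ⟨rfl, z1⟩))).resolve_left hab
  have e1 : insert a (out T a) ⊆ out T b := by
    intro s hs
    rcases mem_insert.mp hs with rfl | hs
    · exact mem_out.mpr hba
    · have hs' := mem_out.mp hs
      exact mem_out.mpr ((key s (Or.inr (Or.inl hs')) (Or.inr (Or.inl hs'))).resolve_left
        fun e => hasy _ _ hba (e ▸ hs'))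
  have e2 := card_le_card e1
  rw [card_insert_of_notMem (fun h => hasy a a (mem_out.mp h) (mem_out.mp h)), hreg a b] at e2
  omega

lemma card_out_hole {m e : ℕ} [NeZero m] (he : 1 ≤ e) (hm : e + 1 < m) (y : ZMod m) :
    (out (hole m e) y).card = e := by
  have : out (hole m e) y = (insert (e + 1) (Ico 1 e)).image (fun s : ℕ => y + (s : ZMod m)) := by
    ext z
    simp only [mem_out, hole, mem_image, mem_insert, mem_Ico]
    exact exists_congr fun s => and_congr or_comm eq_comm
  rw [this, card_image_of_injOn, card_insert_of_notMem (by simp), Nat.card_Ico]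
  · omega
  · intro s hs t ht h
    simp only [coe_insert, coe_Ico, Set.mem_insert_iff, Set.mem_Ico] at hs ht
    exact cast_inj_lt (by omega) (by omega) (add_left_cancel h)

theorem extremal (V : Type) [Fintype V] (X : V → V → Prop)
    (hVT : ∀ u v : V, ∃ φ : X ≃r X, φ u = v) (d g : ℕ)
    (hd : ∀ v : V, Set.ncard {w | X v w} = d) (hg : IsLeast {l | HasCycle X l} g) (h3 : 3 < g) :
    (¬ InL V X ∧ (Fintype.card V : ℤ) ≤ ((d : ℤ) + 1) * ((g : ℤ) - 1) - 1) ↔
      ∃ (W : Type) (_ : Fintype W) (T : W → W → Prop) (c e : ℕ), InL W T ∧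
        (∀ w : W, Set.ncard {w' | T w w'} = c) ∧ Fintype.card W = (g - 1) * c + 1 ∧ 2 ≤ e ∧
        Nonempty (X ≃r lex T (hole ((g - 1) * (e + 1) - 1) e)) := by
  obtain ⟨k, rfl⟩ : ∃ k, g = k + 1 := ⟨g - 1, by omega⟩
  generalize hk : k + 1 - 1 = k'
  obtain rfl : k = k' := by omega
  obtain ⟨-, c0, -, -⟩ := hg.1
  have hVT' : VT X := fun u v => by
    obtain ⟨φ, h⟩ := hVT u v
    exact ⟨φ.toEquiv, fun a b => φ.map_rel_iff, h⟩
  have hX : NoShort k X := by
    intro t ht v x hx hxv
    obtain ⟨l, hl, f, h1, h2, h4⟩ := walk_of_ball v t x hx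
    obtain ⟨l', h5, h6⟩ := cycle_of_walk (X := X) (l + 1) (fun i => if i ≤ l then f i else v)
      (by omega) (by simp [h1]) (by
        intro i hi
        by_cases h7 : i < l
        · simp only [h7.le, Nat.succ_le_of_lt h7, if_true]
          exact h4 i h7
        · have : i = l := by omega
          subst this
          simp only [le_refl, if_true, Nat.not_succ_le_self, if_false]
          rw [h2]; exact hxv)
    have := hg.2 h6
    omega
  have nc : ∀ (W : Type) [Fintype W] (T : W → W → Prop) (w : W),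
      Set.ncard {w' | T w w'} = (out T w).card := by
    intro W _ T w
    rw [← Set.ncard_coe_finset]
    congr 1
    ext w; simp
  have hdv : ∀ v, (out X v).card = d := fun v => by rw [← nc, hd]
  have hz : (Fintype.card V : ℤ) ≤ ((d : ℤ) + 1) * (((k + 1 : ℕ) : ℤ) - 1) - 1 ↔
      Fintype.card V + 1 ≤ k * (d + 1) := by
    rw [← Nat.cast_le (α := ℤ)]
    push_cast
    constructor <;> intro h <;> linarith
  have facts : ∀ (W : Type) [Fintype W] (T : W → W → Prop) (e m : ℕ), 2 ≤ e →
      m + 1 = k * (e + 1) → (X ≃r lex T (hole m e)) → 3 * e + 2 ≤ m ∧ (∀ a b, T a b → ¬ T b a) ∧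
        Fintype.card V = Fintype.card W * m ∧ ∀ w, d = (out T w).card * m + e := by
    intro W _ T e m he hm φ
    have h1 : 3 * (e + 1) ≤ k * (e + 1) := Nat.mul_le_mul_right _ (by omega)
    have : NeZero m := ⟨by omega⟩
    have s1 : NoShort k T :=
      hX.hom (fun B => φ.symm (B, 0)) fun a b h => φ.symm.map_rel_iff.mpr (Or.inl h)
    refine ⟨by omega, fun a b h => s1.asymm (by omega) h, ?_, fun w => ?_⟩
    · rw [Fintype.card_congr φ.toEquiv, Fintype.card_prod, ZMod.card]
    · have := card_out_lex (Y := hole m e) (s1.irrefl (by omega)) w 0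
      rw [ZMod.card, card_out_hole (by omega) (by omega), card_out_iso φ.symm, hdv] at this
      exact this
  have hm : ∀ e, k * (e + 1) - 1 + 1 = k * (e + 1) := fun e =>
    Nat.sub_add_cancel (Nat.mul_pos (by omega) (by omega))
  rw [hz]
  constructor
  · rintro ⟨hL, hn⟩
    obtain ⟨W, T, e, h1, h2, ⟨φ⟩⟩ := (eq_ind (k := k) (by omega) _ V X (c0 0) rfl hVT' hX
      (by rw [hdv]; exact hn)).resolve_left hL
    have : Finite W := Finite.of_injective (fun w => φ.symm (w, 0))
      fun a b h => (Prod.ext_iff.mp (φ.symm.injective h)).1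
    have := Fintype.ofFinite W
    obtain ⟨f1, -, f3, f4⟩ := facts W T e _ h2 (hm e) φ
    have hge : ¬ Fintype.card V + 2 ≤ k * (d + 1) := fun h =>
      hL (main_ind (k := k) (by omega) _ V X (c0 0) rfl hVT' hX (by rw [hdv]; exact h))
    have hme := hm e
    have w0 := (φ (c0 0)).1
    refine ⟨W, this, T, (out T w0).card, e, h1, fun w => ?_, ?_, h2, ⟨φ⟩⟩
    all_goals generalize k * (e + 1) - 1 = m at *
    · rw [nc]
      exact Nat.eq_of_mul_eq_mul_right (show 0 < m by omega)
        (by have := f4 w; have := f4 w0; omega)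
    · refine Nat.eq_of_mul_eq_mul_right (show 0 < m by omega) ?_
      have e1 : Fintype.card V + 1 = k * (d + 1) := by omega
      rw [f3, f4 w0] at e1
      nlinarith
  · rintro ⟨W, _, T, c, e, -, h2, h4, h5, ⟨φ⟩⟩
    obtain ⟨f1, f2, f3, f4⟩ := facts W T e _ h5 (hm e) φ
    have hme := hm e
    generalize k * (e + 1) - 1 = m at *
    have hc : ∀ w, (out T w).card = c := fun w => by rw [← nc, h2]
    have h01 : ∀ u : ZMod m, u + ((1 : ℕ) : ZMod m) ≠ u := fun u h => by
      have := cast_inj_lt (m := m) (a := 1) (b := 0) (by omega) (by omega) (by simpa using h)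
      omega
    constructor
    · intro hL
      refine lex_not_nt f2 (fun a b => by rw [hc, hc]) (hole_not_nt h5 f1)
        (fun u => ⟨_, ⟨1, by omega, rfl⟩, h01 u⟩) (NT.congr φ (hL.nt ?_))
      exact ⟨φ.symm ((φ (c0 0)).1, 0 + ((1 : ℕ) : ZMod m)), φ.symm ((φ (c0 0)).1, 0),
        fun h => h01 0 (Prod.ext_iff.mp (φ.symm.injective h)).2⟩
    · rw [f3, f4 (φ (c0 0)).1, hc, h4]
      nlinarith

end Pool.Agent.P.MP_81f9fb_co
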