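import Pool.Agent.P.MP_81f9fb_co.Twin

set_option autoImplicit false

namespace Pool.Agent.P.MP_81f9fb_co

open Finset Classical

lemma InL.congr {V W : Type} {X : V → V → Prop} {Y : W → W → Prop} (e : X ≃r Y)
    (h : InL W Y) : InL V X := by
  cases h with
  | base n d hd h => exact InL.base n d hd ⟨e.trans h.some⟩
  | prod n d hd hY h => exact InL.prod n d hd hY ⟨e.trans h.some⟩

/-- functoriality of the lexicographic product -/
def lexCongr {V V' W W' : Type} {X : V → V → Prop} {X' : V' → V' → Prop} {Y : W → W → Prop}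
    {Y' : W' → W' → Prop} (e : X ≃r X') (f : Y ≃r Y') : lex X Y ≃r lex X' Y' where
  toEquiv := e.toEquiv.prodCongr f.toEquiv
  map_rel_iff' := by
    rintro ⟨a, b⟩ ⟨c, d⟩
    simp [lex, e.map_rel_iff, f.map_rel_iff]

/-- associativity of the lexicographic product -/
def lexAssoc {U V W : Type} (X : U → U → Prop) (Y : V → V → Prop) (Z : W → W → Prop) :
    lex (lex X Y) Z ≃r lex X (lex Y Z) where
  toEquiv := Equiv.prodAssoc U V W
  map_rel_iff' := by
    rintro ⟨⟨a, b⟩, c⟩ ⟨⟨a', b'⟩, c'⟩
    simp only [lex, Equiv.prodAssoc_apply, Prod.mk.injEq]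
    tauto

lemma InL.lex {V W : Type} {X : V → V → Prop} {Y : W → W → Prop} (hX : InL V X) (hY : InL W Y) :
    InL (V × W) (lex X Y) := by
  induction hX with
  | base n d hd h => exact InL.prod n d hd hY ⟨lexCongr h.some (RelIso.refl Y)⟩
  | prod n d hd _ h ih =>
    exact InL.prod n d hd ih ⟨(lexCongr h.some (RelIso.refl Y)).trans (lexAssoc _ _ _)⟩

/-- the reverse of a circular digraph -/
def circFlip (n d : ℕ) : (fun a b => circ n d b a) ≃r circ n d where
  toEquiv := Equiv.neg (ZMod n)
  map_rel_iff' := by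
    intro a b
    simp only [circ, Equiv.neg_apply]
    refine exists_congr fun s => and_congr_right fun _ => and_congr_right fun _ => ?_
    constructor
    · intro h; linear_combination h
    · intro h; linear_combination h

/-- reversing an isomorphism -/
def isoFlip {V W : Type} {X : V → V → Prop} {Y : W → W → Prop} (e : X ≃r Y) :
    (fun a b => X b a) ≃r (fun a b => Y b a) where
  toEquiv := e.toEquiv
  map_rel_iff' := e.map_rel_iff

/-- the reverse of a lexicographic product -/
def lexFlip {V W : Type} (X : V → V → Prop) (Y : W → W → Prop) :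
    (fun a b => lex X Y b a) ≃r lex (fun a b => X b a) (fun a b => Y b a) where
  toEquiv := Equiv.refl _
  map_rel_iff' := by
    intro a b
    simp only [lex, Equiv.refl_apply, eq_comm]

lemma InL.flip {V : Type} {X : V → V → Prop} (h : InL V X) : InL V (fun a b => X b a) := by
  induction h with
  | base n d hd h => exact InL.base n d hd ⟨(isoFlip h.some).trans (circFlip n d)⟩
  | prod n d hd _ h ih =>
    exact InL.prod n d hd ih ⟨(isoFlip h.some).trans ((lexFlip _ _).trans
      (lexCongr (circFlip n d) (RelIso.refl _)))⟩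

lemma card_out_lex {V W : Type} [Fintype V] [Fintype W] {X : V → V → Prop} {Y : W → W → Prop}
    (hirr : ∀ x, ¬ X x x) (a : V) (b : W) :
    (out (lex X Y) (a, b)).card = (out X a).card * Fintype.card W + (out Y b).card := by
  have : out (lex X Y) (a, b) = (out X a ×ˢ univ) ∪ ({a} ×ˢ out Y b) := by
    ext ⟨c, d⟩
    simp [lex, eq_comm]
    tauto
  rw [this, card_union_of_disjoint, card_product, card_product, card_singleton, one_mul, card_univ]
  rw [disjoint_left]
  rintro ⟨c, d⟩ h1 h2
  simp only [mem_product, mem_out, mem_singleton] at h1 h2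
  exact hirr a (h2.1 ▸ h1.1)

lemma card_out_iso {V W : Type} [Fintype V] [Fintype W] {X : V → V → Prop} {Y : W → W → Prop}
    (e : X ≃r Y) (a : V) : (out X a).card = (out Y (e a)).card :=
  card_equiv e.toEquiv fun b => by simp [e.map_rel_iff]

/-- a system of modules gives a lexicographic decomposition -/
theorem decompose {V : Type} [Fintype V] {X E : V → V → Prop} (hE : Equivalence E)
    (hVT : VT2 X E) (hmod : ∀ x x' w w', E x x' → E w w' → ¬ E x w → X x w → X x' w')
    (h1 : ∃ x y, x ≠ y ∧ E x y) (h2 : ∃ x y, ¬ E x y) :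
    ∃ (Q M : Type) (_ : Fintype Q) (_ : Fintype M) (X' : Q → Q → Prop) (Y : M → M → Prop),
      VT X' ∧ VT Y ∧ 1 < Fintype.card Q ∧ 1 < Fintype.card M ∧ Nonempty (lex X' Y ≃r X) := by
  obtain ⟨v, v', hvv, hv⟩ := h1
  let s : Setoid V := ⟨E, hE⟩
  have hq : ∀ a b : V, Quotient.mk s a = Quotient.mk s b ↔ E a b := fun a b => Quotient.eq
  let X' : Quotient s → Quotient s → Prop := fun B C => B ≠ C ∧ X B.out C.out
  have hX' : ∀ a b : V, X' (Quotient.mk s a) (Quotient.mk s b) ↔ ¬ E a b ∧ X a b := by
    intro a b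
    have ea : E (Quotient.mk s a).out a := Quotient.mk_out (s := s) a
    have eb : E (Quotient.mk s b).out b := Quotient.mk_out (s := s) b
    simp only [X', ne_eq, hq]
    refine and_congr_right fun hn => ⟨fun h => ?_, fun h => ?_⟩
    · exact hmod _ _ _ _ ea eb (fun h' => hn (hE.trans (hE.symm ea) (hE.trans h' eb))) h
    · exact hmod _ _ _ _ (hE.symm ea) (hE.symm eb) hn h
  let Y : {y // E v y} → {y // E v y} → Prop := fun a b => X a.1 b.1
  choose ψ hψ1 hψ2 hψ3 using fun B : Quotient s => hVT v B.out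
  have hcl : ∀ (B : Quotient s) (y : {y // E v y}), Quotient.mk s (ψ B y.1) = B := by
    intro B y
    have : E (ψ B v) (ψ B y.1) := (hψ2 B _ _).mpr y.2
    rw [← (hq _ _).mpr this, hψ3, Quotient.out_eq]
  let F : Quotient s × {y // E v y} → V := fun p => ψ p.1 p.2.1
  have hFi : Function.Injective F := by
    rintro ⟨B, y⟩ ⟨C, z⟩ h
    have hBC : B = C := by rw [← hcl B y, ← hcl C z]; exact congrArg _ h
    subst hBC
    exact Prod.ext rfl (Subtype.ext ((ψ B).injective h))
  have hFs : Function.Surjective F := by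
    intro x
    refine ⟨(Quotient.mk s x, ⟨(ψ (Quotient.mk s x)).symm x, ?_⟩), by simp [F]⟩
    rw [← hψ2 (Quotient.mk s x), hψ3, Equiv.apply_symm_apply]
    exact Quotient.mk_out (s := s) x
  refine ⟨Quotient s, {y // E v y}, inferInstance, inferInstance, X', Y, ?_, ?_, ?_, ?_,
    ⟨⟨Equiv.ofBijective F ⟨hFi, hFs⟩, ?_⟩⟩⟩
  · intro B C
    obtain ⟨φ, g1, g2, g3⟩ := hVT B.out C.out
    refine ⟨Quotient.congr φ (fun a b => (g2 a b).symm), fun a b => ?_, ?_⟩
    · induction a using Quotient.inductionOn
      induction b using Quotient.inductionOn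
      rw [Quotient.congr_mk, Quotient.congr_mk, hX', hX', g1, g2]
    · rw [← Quotient.out_eq B, Quotient.congr_mk, g3, Quotient.out_eq]
  · intro y z
    obtain ⟨φ, g1, g2, g3⟩ := hVT y.1 z.1
    have hp : ∀ x, E v (φ x) ↔ E v x := by
      intro x
      constructor
      · intro h
        exact hE.trans y.2 ((g2 _ _).mp (by rw [g3]; exact hE.trans (hE.symm z.2) h))
      · intro h
        exact hE.trans z.2 (by rw [← g3]; exact (g2 _ _).mpr (hE.trans (hE.symm y.2) h))
    exact ⟨φ.subtypePerm hp, fun a b => g1 _ _, Subtype.ext g3⟩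
  · obtain ⟨x, y, hxy⟩ := h2
    exact Fintype.one_lt_card_iff.mpr ⟨Quotient.mk s x, Quotient.mk s y, fun h => hxy ((hq _ _).mp h)⟩
  · exact Fintype.one_lt_card_iff.mpr ⟨⟨v, hE.refl v⟩, ⟨v', hv⟩, fun h => hvv (congrArg Subtype.val h)⟩
  · rintro ⟨B, y⟩ ⟨C, z⟩
    simp only [Equiv.ofBijective_apply, F, lex, Y]
    by_cases hBC : B = C
    · subst hBC
      simp only [X', ne_eq, not_true_eq_false, false_and, true_and, false_or]
      exact hψ1 B _ _
    · simp only [hBC, false_and, or_false]
      conv_rhs => rw [← hcl B y, ← hcl C z, hX']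
      refine ⟨fun h => ⟨fun h' => hBC ?_, h⟩, fun h => h.2⟩
      rw [← hcl B y, ← hcl C z]; exact (hq _ _).mpr h'

lemma arith5 (k n' h d' e : ℕ) (hk : 3 ≤ k) (hn : n' * h + 2 ≤ k * (d' * h + e + 1))
    (h2 : k * e + 1 ≤ h) : n' + 2 ≤ k * (d' + 1) := by
  by_contra hc
  have h3 : k * (d' + 1) ≤ n' + 1 := by omega
  have h4 := Nat.mul_le_mul_right h h3
  obtain ⟨m, rfl⟩ : ∃ m, k = m + 3 := ⟨k - 3, by omega⟩
  have h5 := Nat.mul_le_mul_left (m + 2) h2
  nlinarith [Nat.zero_le (m * e), Nat.zero_le (m * m * e)]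

lemma arith6 (k n' h d' e : ℕ) (hn : n' * h + 2 ≤ k * (d' * h + e + 1))
    (h1 : k * d' + 1 ≤ n') : h + 2 ≤ k * (e + 1) := by
  have h4 := Nat.mul_le_mul_right h h1
  nlinarith

theorem main_ind {k : ℕ} (hk : 3 ≤ k) : ∀ (n : ℕ) (V : Type) [Fintype V] (X : V → V → Prop)
    (v : V), Fintype.card V = n → VT X → NoShort k X →
    Fintype.card V + 2 ≤ k * ((out X v).card + 1) → InL V X := by
  intro n
  induction n using Nat.strong_induction_on with
  | _ n ih =>
    have blk : ∀ (V : Type) [Fintype V] (X : V → V → Prop) (v : V), Fintype.card V = n → VT X →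
        NoShort k X → Fintype.card V + 2 ≤ k * ((out X v).card + 1) → HasBlock X → InL V X := by
      intro V _ X v hn hVT hX hb ⟨E, hE, hVT2, h1, h2, w, hw⟩
      obtain ⟨k', rfl⟩ : ∃ k', k = k' + 2 := ⟨k - 2, by omega⟩
      have hmod := block_module hE hVT2 k' (by omega) hX w (by rw [hVT.card_out w v]; exact hb) hw
      obtain ⟨Q, M, _, _, X', Y, v1, v2, c1, c2, ⟨e⟩⟩ := decompose hE hVT2 hmod h1 h2
      obtain ⟨q, -⟩ := Fintype.one_lt_card_iff.mp c1
      obtain ⟨m, -⟩ := Fintype.one_lt_card_iff.mp c2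
      have s1 : NoShort (k' + 2) X' :=
        hX.hom (fun B => e (B, m)) fun a b h => e.map_rel_iff.mpr (Or.inl h)
      have s2 : NoShort (k' + 2) Y :=
        hX.hom (fun y => e (q, y)) fun a b h => e.map_rel_iff.mpr (Or.inr ⟨rfl, h⟩)
      have hc : Fintype.card V = Fintype.card Q * Fintype.card M := by
        rw [← Fintype.card_prod, Fintype.card_congr e.toEquiv]
      have hd : (out X v).card = (out X' q).card * Fintype.card M + (out Y m).card := by
        rw [← card_out_lex (s1.irrefl (by omega)), card_out_iso e, hVT.card_out]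
      have g1 := card_ge v1 s1 q
      have g2 := card_ge v2 s2 m
      rw [hc, hd] at hb
      have i1 := ih _ (by rw [← hn, hc]; nlinarith) Q X' q rfl v1 s1 (arith5 _ _ _ _ _ hk hb g2)
      have i2 := ih _ (by rw [← hn, hc]; nlinarith) M Y m rfl v2 s2 (arith6 _ _ _ _ _ hb g1)
      exact InL.congr e.symm (i1.lex i2)
    intro V _ X v hn hVT hX hb
    rcases Nat.eq_zero_or_pos (out X v).card with hd | hd
    · have hpos : 0 < Fintype.card V := Fintype.card_pos_iff.mpr ⟨v⟩
      have : NeZero (Fintype.card V) := ⟨hpos.ne'⟩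
      refine InL.base (Fintype.card V) 0 hpos
        ⟨⟨Fintype.equivOfCardEq (ZMod.card _).symm, fun {a b} => iff_of_false ?_ ?_⟩⟩
      · rintro ⟨s, h1, h2, -⟩; omega
      · intro h
        have : 0 < (out X a).card := card_pos.mpr ⟨b, mem_out.mpr h⟩
        rw [hVT.card_out a v] at this
        omega
    have hio : (out (fun a b => X b a) v).card = (out X v).card := hVT.card_inn v v
    rcases block_or_twin hVT hk hX v hb hd with (h | h) | (h | h)
    · exact blk V X v hn hVT hX hb h
    · rcases twin hVT hk hX v hd h with h | h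
      · exact blk V X v hn hVT hX hb h
      · exact h
    · exact (blk V _ v hn hVT.flip hX.flip (by rw [hio]; exact hb) h).flip
    · rcases twin hVT.flip hk hX.flip v (by rw [hio]; exact hd) h with h | h
      · exact (blk V _ v hn hVT.flip hX.flip (by rw [hio]; exact hb) h).flip
      · exact h.flip

lemma walk_of_ball {V : Type} [Fintype V] {X : V → V → Prop} (v : V) (t : ℕ) :
    ∀ x ∈ ball X t v, ∃ l ≤ t, ∃ f : ℕ → V, f 0 = v ∧ f l = x ∧ ∀ i < l, X (f i) (f (i + 1)) := by
  induction t with
  | zero =>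
    intro x hx
    rw [ball_zero, mem_singleton] at hx
    exact ⟨0, le_rfl, fun _ => v, rfl, hx.symm, fun i hi => absurd hi (Nat.not_lt_zero i)⟩
  | succ t ih =>
    intro x hx
    rw [ball_succ] at hx
    rcases mem_nb.mp hx with h | ⟨y, hy, h⟩
    · obtain ⟨l, hl, f, h⟩ := ih x h
      exact ⟨l, by omega, f, h⟩
    · obtain ⟨l, hl, f, h1, h2, h3⟩ := ih y hy
      refine ⟨l + 1, by omega, fun i => if i ≤ l then f i else x, by simp [h1], by simp, ?_⟩
      intro i hi
      by_cases h4 : i < l
      · simp only [h4.le, Nat.succ_le_of_lt h4, if_true]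
        exact h3 i h4
      · have : i = l := by omega
        subst this
        simp only [le_refl, if_true, Nat.not_succ_le_self, if_false]
        rw [h2]; exact h

lemma cycle_of_walk {V : Type} {X : V → V → Prop} : ∀ (l : ℕ) (f : ℕ → V), 0 < l → f l = f 0 →
    (∀ i < l, X (f i) (f (i + 1))) → ∃ l' ≤ l, HasCycle X l' := by
  intro l
  induction l using Nat.strong_induction_on with
  | _ l ih =>
    intro f hl h0 hf
    by_cases hinj : ∀ i j, i < j → j < l → f i ≠ f j
    · have : NeZero l := ⟨hl.ne'⟩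
      refine ⟨l, le_rfl, hl, fun i => f i.val, fun i j h => ?_, fun i => ?_⟩
      · apply ZMod.val_injective
        rcases lt_trichotomy i.val j.val with h1 | h1 | h1
        · exact absurd h (hinj _ _ h1 (ZMod.val_lt j))
        · exact h1
        · exact absurd h.symm (hinj _ _ h1 (ZMod.val_lt i))
      · have h1 := hf i.val (ZMod.val_lt i)
        have h2 : (i + 1).val = (i.val + 1) % l := by
          rw [← ZMod.val_natCast]; simp
        have h3 := ZMod.val_lt i
        show X (f i.val) (f (i + 1).val)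
        rw [h2]
        rcases eq_or_lt_of_le (Nat.succ_le_of_lt h3) with h4 | h4
        · rw [show i.val + 1 = l from h4, Nat.mod_self, ← h0]
          rwa [show i.val + 1 = l from h4] at h1
        · rwa [Nat.mod_eq_of_lt h4]
    · push Not at hinj
      obtain ⟨i, j, hij, hj, h⟩ := hinj
      obtain ⟨l', h1, h2⟩ := ih (j - i) (by omega) (fun m => f (i + m)) (by omega)
        (by simp only [Nat.add_zero]; rw [show i + (j - i) = j by omega, h])
        (fun m hm => hf (i + m) (by omega))
      exact ⟨l', by omega, h2⟩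

theorem main (V : Type) [Fintype V] (X : V → V → Prop)
    (hVT : ∀ u v : V, ∃ φ : X ≃r X, φ u = v) (d g : ℕ)
    (hd : ∀ v : V, Set.ncard {w | X v w} = d) (hg : IsLeast {l | HasCycle X l} g) (h3 : 3 < g)
    (hL : ¬ InL V X) : ((d : ℤ) + 1) * ((g : ℤ) - 1) - 1 ≤ (Fintype.card V : ℤ) := by
  by_contra hc
  apply hL
  obtain ⟨k, rfl⟩ : ∃ k, g = k + 1 := ⟨g - 1, by omega⟩
  obtain ⟨-, c, -, -⟩ := hg.1
  have hVT' : VT X := fun u v => by
    obtain ⟨φ, h⟩ := hVT u v
    exact ⟨φ.toEquiv, fun a b => φ.map_rel_iff, h⟩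
  have hX : NoShort k X := by
    intro t ht v x hx hxv
    obtain ⟨l, hl, f, h1, h2, h4⟩ := walk_of_ball v t x hx
    obtain ⟨l', h5, h6⟩ := cycle_of_walk (X := X) (l + 1) (fun i => if i ≤ l then f i else v)
      (by omega) (by simp [h1]) (by
        intro i hi
        by_cases h7 : i < l
        · simp only [h7.le, Nat.succ_le_of_lt h7, if_true]
          exact h4 i h7
        · have : i = l := by omega
          subst this
          simp only [le_refl, if_true, Nat.not_succ_le_self, if_false]
          rw [h2]; exact hxv)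
    have := hg.2 h6
    omega
  have hdv : (out X (c 0)).card = d := by
    rw [← hd (c 0), ← Set.ncard_coe_finset]
    congr 1
    ext w; simp
  refine main_ind (k := k) (by omega) _ V X (c 0) rfl hVT' hX ?_
  rw [hdv]
  push_cast at hc
  have : ((Fintype.card V + 2 : ℕ) : ℤ) ≤ ((k * (d + 1) : ℕ) : ℤ) := by
    push_cast; linarith
  exact_mod_cast this

end Pool.Agent.P.MP_81f9fb_co
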