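import Pool.Agent.P.MP_81f9fb_co.Atoms
import Pool.Agent.P.MP_81f9fb_co.Defs

set_option autoImplicit false

namespace Pool.Agent.P.MP_81f9fb_co

open Finset Classical

variable {V : Type} [Fintype V]

lemma circ_of_cycle {X : V → V → Prop} (hirr : ∀ x, ¬ X x x) (hVT : VT X) (σ : Equiv.Perm V)
    (hσ : ∀ x z, X x z → z = σ x ∨ X (σ x) z) (v : V) (hall : ∀ y, ∃ i : ℕ, σ^[i] v = y) :
    InL V X := by
  set N := Function.minimalPeriod σ v with hN
  have hNpos : 0 < N := Function.minimalPeriod_pos_of_mem_periodicPts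
    (σ.injective.mem_periodicPts v)
  have : NeZero N := ⟨hNpos.ne'⟩
  let c : ZMod N → V := fun i => σ^[i.val] v
  have hc1 : ∀ m : ℕ, c (m : ZMod N) = σ^[m] v := by
    intro m
    simp only [c, ZMod.val_natCast]
    exact Function.iterate_mod_minimalPeriod_eq
  have hcs : ∀ i, c (i + 1) = σ (c i) := by
    intro i
    have := hc1 (i.val + 1)
    rw [Function.iterate_succ_apply'] at this
    simpa using this
  have hinj : Function.Injective c := by
    intro i j h
    apply ZMod.val_injective
    exact Function.iterate_injOn_Iio_minimalPeriod (ZMod.val_lt i) (ZMod.val_lt j) h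
  have hsurj : Function.Surjective c := by
    intro y
    obtain ⟨i, hi⟩ := hall y
    exact ⟨i, by rw [hc1, hi]⟩
  set d := (out X v).card with hd
  have main : ∀ j : ZMod N, d < N ∧ ∀ s < N, (X (c (j - s)) (c j) ↔ 1 ≤ s ∧ s ≤ d) := by
    intro j
    set T := (range N).filter (fun s : ℕ => X (c (j - s)) (c j)) with hT
    have hTc : T.card = d := by
      rw [hd, ← hVT.card_inn (c j) v]
      refine card_bij (fun s _ => c (j - s)) (fun s hs => mem_inn.mpr (mem_filter.mp hs).2) ?_ ?_
      · intro s hs t ht h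
        have h1 := sub_right_injective (hinj h)
        have h2 := congrArg ZMod.val h1
        rwa [ZMod.val_cast_of_lt (mem_range.mp (mem_filter.mp hs).1),
          ZMod.val_cast_of_lt (mem_range.mp (mem_filter.mp ht).1)] at h2
      · intro y hy
        obtain ⟨i, rfl⟩ := hsurj y
        refine ⟨(j - i).val, mem_filter.mpr ⟨mem_range.mpr (ZMod.val_lt _), ?_⟩, ?_⟩
        · simpa using hy
        · simp
    have h0 : ∀ s ∈ T, 1 ≤ s := by
      intro s hs
      by_contra h
      have : s = 0 := by omega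
      subst this
      exact hirr _ (by simpa using (mem_filter.mp hs).2)
    have hstep : ∀ s, 1 ≤ s → s + 1 ∈ T → s ∈ T := by
      intro s h1 h2
      obtain ⟨h3, h4⟩ := mem_filter.mp h2
      have h5 := mem_range.mp h3
      refine mem_filter.mpr ⟨mem_range.mpr (by omega), ?_⟩
      have h6 : σ (c (j - ((s + 1 : ℕ) : ZMod N))) = c (j - s) := by
        rw [← hcs]; congr 1; push_cast; ring
      rcases hσ _ _ h4 with h7 | h7
      · rw [h6] at h7
        have h8 : (s : ZMod N) = 0 := by simpa using (sub_eq_self.mp (hinj h7).symm)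
        have h9 := congrArg ZMod.val h8
        rw [ZMod.val_cast_of_lt (by omega), ZMod.val_zero] at h9
        omega
      · rwa [h6] at h7
    have hdown : ∀ m t, 1 ≤ t → t + m ∈ T → t ∈ T := by
      intro m
      induction m with
      | zero => intro t _ h; exact h
      | succ m ih => intro t h1 h; exact ih t h1 (hstep (t + m) (by omega) h)
    refine ⟨?_, fun s hs => ⟨fun h => ?_, fun h => ?_⟩⟩
    · have : T ⊆ Ico 1 N := fun s hs =>
        mem_Ico.mpr ⟨h0 s hs, mem_range.mp (mem_filter.mp hs).1⟩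
      have := card_le_card this
      rw [Nat.card_Ico] at this
      omega
    · have hsT : s ∈ T := mem_filter.mpr ⟨mem_range.mpr hs, h⟩
      refine ⟨h0 s hsT, ?_⟩
      have : Icc 1 s ⊆ T := fun t ht =>
        hdown (s - t) t (mem_Icc.mp ht).1 (by
          rwa [show t + (s - t) = s by have := (mem_Icc.mp ht).2; omega])
      have := card_le_card this
      rw [Nat.card_Icc] at this
      omega
    · by_contra hc
      have : T ⊆ Ico 1 s := by
        intro t ht
        refine mem_Ico.mpr ⟨h0 t ht, ?_⟩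
        by_contra h'
        exact hc (mem_filter.mp (hdown (t - s) s h.1 (by rwa [show s + (t - s) = t by omega]))).2
      have := card_le_card this
      rw [Nat.card_Ico] at this
      omega
  refine InL.base N d (main 0).1 ⟨RelIso.symm ⟨Equiv.ofBijective c ⟨hinj, hsurj⟩, ?_⟩⟩
  intro i j
  simp only [Equiv.ofBijective_apply, circ]
  constructor
  · intro h
    have h1 := ((main j).2 (j - i).val (ZMod.val_lt _)).mp (by simpa using h)
    exact ⟨(j - i).val, h1.1, h1.2, by simp⟩
  · rintro ⟨s, h1, h2, rfl⟩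
    have := ((main (i + s)).2 s (lt_of_le_of_lt h2 (main 0).1)).mpr ⟨h1, h2⟩
    simpa using this

lemma twin_arc {X : V → V → Prop} (hVT : VT X) {k : ℕ} (hk : 3 ≤ k) (hX : NoShort k X)
    (u w : V) (huw : X u w) (hS : ∀ z, X u z → z = w ∨ X w z) : HasBlock X ∨ InL V X := by
  have hirr := hX.irrefl (by omega)
  let S : V → V → Prop := fun x y => X x y ∧ ∀ z, X x z → z = y ∨ X y z
  have hinv : ∀ φ : Equiv.Perm V, Inv X φ → ∀ x y, S x y → S (φ x) (φ y) := by
    intro φ hφ x y h
    refine ⟨(hφ _ _).mpr h.1, fun z hz => ?_⟩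
    obtain ⟨z, rfl⟩ := φ.surjective z
    rcases h.2 z ((hφ _ _).mp hz) with h1 | h1
    · exact Or.inl (by rw [h1])
    · exact Or.inr ((hφ _ _).mpr h1)
  have huniq : ∀ x y y', S x y → S x y' → y = y' := by
    intro x y y' h1 h2
    rcases h1.2 y' h2.1 with h3 | h3
    · exact h3.symm
    · rcases h2.2 y h1.1 with h4 | h4
      · exact h4
      · exact absurd h4 (hX.asymm (by omega) h3)
  have hex : ∀ x, ∃ y, S x y := by
    intro x
    obtain ⟨φ, hφ, rfl⟩ := hVT u x
    exact ⟨φ w, hinv φ hφ u w ⟨huw, hS⟩⟩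
  choose f hf using hex
  have hcomm : ∀ φ : Equiv.Perm V, Inv X φ → ∀ x, f (φ x) = φ (f x) :=
    fun φ hφ x => huniq _ _ _ (hf _) (hinv φ hφ _ _ (hf x))
  have hsurj : Function.Surjective f := by
    intro y
    obtain ⟨φ, hφ, h⟩ := hVT (f u) y
    exact ⟨φ u, by rw [hcomm φ hφ, h]⟩
  let σ : Equiv.Perm V := Equiv.ofBijective f (Finite.surjective_iff_bijective.mp hsurj)
  have hσ : ∀ x, σ x = f x := fun _ => rfl
  by_cases hall : ∀ x y, σ.SameCycle x y
  · right
    refine circ_of_cycle hirr hVT σ (fun x z h => (hf x).2 z h) u fun y => ?_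
    obtain ⟨i, -, hi⟩ := (hall u y).exists_pow_eq'
    exact ⟨i, by rw [← hi, Equiv.Perm.coe_pow]⟩
  · left
    push Not at hall
    refine ⟨σ.SameCycle, Equiv.Perm.SameCycle.equivalence σ, fun x y => ?_,
      ⟨u, σ u, fun h => hirr u ?_, ⟨1, by simp⟩⟩, hall, u, card_le_card ?_⟩
    · obtain ⟨φ, hφ, h⟩ := hVT x y
      refine ⟨φ, hφ, fun a b => ?_, h⟩
      have hc : Commute σ φ := by
        ext z
        simp only [Equiv.Perm.mul_apply, hσ, hcomm φ hφ]
      have hz : ∀ i : ℤ, (σ ^ i) (φ a) = φ ((σ ^ i) a) := fun i =>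
        congrArg (fun g : Equiv.Perm V => g a) (hc.zpow_left i).eq
      constructor
      · rintro ⟨i, hi⟩
        exact ⟨i, φ.injective (by rw [← hz, hi])⟩
      · rintro ⟨i, hi⟩
        exact ⟨i, by rw [hz, hi]⟩
    · have := (hf u).1
      rwa [← hσ, ← h] at this
    · intro z hz
      obtain ⟨h1, y, h2, h3⟩ := mem_bd.mp hz
      obtain ⟨i, -, hi⟩ := h2.symm.exists_pow_eq'
      have : ∀ m : ℕ, X ((σ ^ m) y) z := by
        intro m
        induction m with
        | zero => simpa using h3
        | succ m ih =>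
          rcases (hf _).2 z ih with h4 | h4
          · exact absurd (h2.trans ⟨((m + 1 : ℕ) : ℤ), by
              rw [zpow_natCast, pow_succ', Equiv.Perm.mul_apply, hσ, h4]⟩) h1
          · rwa [pow_succ', Equiv.Perm.mul_apply, hσ]
      exact mem_out.mpr (hi ▸ this i)

theorem twin {X : V → V → Prop} (hVT : VT X) {k : ℕ} (hk : 3 ≤ k) (hX : NoShort k X)
    (v : V) (hd : 1 ≤ (out X v).card) (h : NearTwin X) : HasBlock X ∨ InL V X := by
  have hirr := hX.irrefl (by omega)
  obtain ⟨u, w, hne, hc⟩ := h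
  have arc : ∀ u w, u ≠ w → (nb X {u, w}).card ≤ (out X u).card + 2 → X u w →
      HasBlock X ∨ InL V X := by
    intro u w hne hc huw
    refine twin_arc hVT hk hX u w huw fun z hz => ?_
    have h1 : u ∉ nb X {w} := by
      rw [nb_singleton]
      simp only [mem_insert, mem_out, not_or]
      exact ⟨hne, hX.asymm (by omega) huw⟩
    have h2 : insert u (nb X {w}) ⊆ nb X {u, w} :=
      insert_subset (subset_nb X _ (mem_insert_self _ _)) (nb_mono X (by simp))
    have h3 := eq_of_subset_of_card_le h2 (by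
      rw [card_insert_of_notMem h1, card_nb_singleton hirr, hVT.card_out w u]; exact hc)
    have h4 : z ∈ insert u (nb X {w}) := h3 ▸ mem_nb_of_rel (mem_insert_self _ _) hz
    rw [nb_singleton] at h4
    simp only [mem_insert, mem_out] at h4
    rcases h4 with h4 | h4
    · exact absurd (h4 ▸ hz) (hirr u)
    · exact h4
  by_cases h1 : X u w
  · exact arc u w hne hc h1
  by_cases h2 : X w u
  · exact arc w u hne.symm (by rw [pair_comm, hVT.card_out w u]; exact hc) h2
  left
  have h3 : insert u (insert w (out X u ∪ out X w)) ⊆ nb X {u, w} := by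
    intro y hy
    simp only [mem_insert, mem_union, mem_out] at hy
    rcases hy with h | h | h | h
    · exact subset_nb X _ (by simp [h])
    · exact subset_nb X _ (by simp [h])
    · exact mem_nb_of_rel (by simp) h
    · exact mem_nb_of_rel (by simp) h
  have h4 := card_le_card h3
  rw [card_insert_of_notMem (by simp [hne, hirr, h2]), card_insert_of_notMem (by simp [hirr, h1])]
    at h4
  have h5 : out X u = out X u ∪ out X w := eq_of_subset_of_card_le subset_union_left (by omega)
  have h6 : out X w = out X u :=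
    eq_of_subset_of_card_le (h5 ▸ subset_union_right) (hVT.card_out u w).le
  refine ⟨fun x y => out X x = out X y, ⟨fun _ => rfl, Eq.symm, Eq.trans⟩, fun x y => ?_,
    ⟨u, w, hne, h6.symm⟩, ?_, v, card_le_card ?_⟩
  · obtain ⟨φ, hφ, h⟩ := hVT x y
    refine ⟨φ, hφ, fun a b => ?_, h⟩
    simp only [Finset.ext_iff, mem_out]
    constructor
    · intro h z
      rw [← hφ a z, ← hφ b z]; exact h _
    · intro h z
      obtain ⟨z, rfl⟩ := φ.surjective z
      rw [hφ, hφ]; exact h _
  · obtain ⟨y, hy⟩ := card_pos.mp hd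
    exact ⟨v, y, fun h => hirr y (mem_out.mp (h ▸ hy))⟩
  · intro z hz
    obtain ⟨-, y, h7, h8⟩ := mem_bd.mp hz
    exact h7 ▸ mem_out.mpr h8

end Pool.Agent.P.MP_81f9fb_co
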